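import Pool.Agent.Q103.SG.Dual

/-!
# Von Neumann dimensions of invariant subspaces of `ℓ²(G)^n`
-/

set_option autoImplicit false

open Set Filter Topology
open Pool.Agent.Helper386.PD3
open ContinuousLinearMap (adjoint)

namespace Pool.Agent.Q103.SG

noncomputable section

section Hilbert

variable {E F : Type*} [NormedAddCommGroup E] [InnerProductSpace ℝ E] [CompleteSpace E]
  [NormedAddCommGroup F] [InnerProductSpace ℝ F] [CompleteSpace F]

/-- the orthogonal projection onto the closure of a subspace -/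
def prj (W : Submodule ℝ E) : E →L[ℝ] E :=
  haveI : CompleteSpace W.topologicalClosure := W.isClosed_topologicalClosure.completeSpace_coe
  W.topologicalClosure.starProjection

theorem prj_mem (W : Submodule ℝ E) (x : E) : prj W x ∈ closure (W : Set E) := by
  have : CompleteSpace W.topologicalClosure := W.isClosed_topologicalClosure.completeSpace_coe
  rw [← Submodule.topologicalClosure_coe]
  exact W.topologicalClosure.starProjection_apply_mem x

theorem prj_orth (W : Submodule ℝ E) (x : E) {w : E} (hw : w ∈ closure (W : Set E)) :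
    inner ℝ (x - prj W x) w = 0 := by
  have : CompleteSpace W.topologicalClosure := W.isClosed_topologicalClosure.completeSpace_coe
  rw [← Submodule.topologicalClosure_coe] at hw
  exact W.topologicalClosure.starProjection_inner_eq_zero x w hw

theorem prj_eq (W : Submodule ℝ E) {x m : E} (hm : m ∈ closure (W : Set E))
    (h : ∀ w ∈ closure (W : Set E), inner ℝ (x - m) w = 0) : prj W x = m := by
  have : CompleteSpace W.topologicalClosure := W.isClosed_topologicalClosure.completeSpace_coe
  rw [← Submodule.topologicalClosure_coe] at hm h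
  exact Submodule.eq_starProjection_of_mem_of_inner_eq_zero hm h

omit [CompleteSpace E] in
theorem orth_closure {W : Set E} {x : E} (h : ∀ w ∈ W, inner ℝ x w = 0) :
    ∀ w ∈ closure W, inner ℝ x w = 0 := by
  intro w hw
  have h1 : closure W ⊆ {w | inner ℝ x w = 0} :=
    closure_minimal h (isClosed_eq (continuous_const.inner continuous_id) continuous_const)
  exact h1 hw

theorem exists_resolvent (T : E →L[ℝ] F) {ε : ℝ} (hε : 0 < ε) : ∃ A : E →L[ℝ] E,
    (∀ x, adjoint T (T (A x)) + ε • A x = x) ∧ (∀ x, A (adjoint T (T x) + ε • x) = x) ∧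
    (∀ x y, inner ℝ (A x) y = inner ℝ x (A y)) ∧ ∀ x, 0 ≤ inner ℝ (A x) x := by
  let M : E →L[ℝ] E := adjoint T ∘L T + ε • ContinuousLinearMap.id ℝ E
  have hM : ∀ x, M x = adjoint T (T x) + ε • x := fun x => rfl
  have hinner : ∀ x y, inner ℝ (M x) y = inner ℝ (T x) (T y) + ε * inner ℝ x y := by
    intro x y
    rw [hM, inner_add_left, ContinuousLinearMap.adjoint_inner_left, inner_smul_left]
    rfl
  let B : E →L[ℝ] E →L[ℝ] ℝ := (innerSL ℝ) ∘L M
  have hB : ∀ x y, B x y = inner ℝ (M x) y := fun x y => rfl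
  have hco : IsCoercive B := by
    refine ⟨ε, hε, fun u => ?_⟩
    rw [hB, hinner, real_inner_self_eq_norm_sq, real_inner_self_eq_norm_sq]
    nlinarith [sq_nonneg ‖T u‖]
  have heq : ∀ v, hco.continuousLinearEquivOfBilin v = M v := by
    intro v
    refine ext_inner_right ℝ fun w => ?_
    rw [hco.continuousLinearEquivOfBilin_apply, hB]
  let A : E →L[ℝ] E := (hco.continuousLinearEquivOfBilin).symm
  have h1 : ∀ x, M (A x) = x := by
    intro x
    rw [← heq]
    exact hco.continuousLinearEquivOfBilin.apply_symm_apply x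
  have h2 : ∀ x, A (M x) = x := by
    intro x
    rw [← heq]
    exact hco.continuousLinearEquivOfBilin.symm_apply_apply x
  refine ⟨A, h1, h2, fun x y => ?_, fun x => ?_⟩
  · conv_lhs => rw [← h1 y]
    conv_rhs => rw [← h1 x]
    rw [real_inner_comm, hinner, hinner, real_inner_comm (T (A x)), real_inner_comm (A x)]
  · conv_lhs => rw [← inner_zero_left (𝕜 := ℝ) (0 : E)]
    have h3 : inner ℝ (A x) x = inner ℝ (T (A x)) (T (A x)) + ε * inner ℝ (A x) (A x) := by
      rw [← hinner, h1, real_inner_comm]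
    rw [h3, inner_zero_left]
    have := real_inner_self_nonneg (x := T (A x))
    have := real_inner_self_nonneg (x := A x)
    positivity

end Hilbert

variable {G : Type} [Group G] {a b c : ℕ}

theorem inner_e (x : VV G a) (i : Fin a) : inner ℝ x (inj i (dl (1 : G))) = x i 1 := by
  rw [PiLp.inner_apply, Finset.sum_eq_single i]
  · have : (inj i (dl (1 : G)) : VV G a).ofLp i = dl 1 := by
      have := inj_apply i i (dl (1 : G))
      simpa using this
    rw [this, inner_dl]
  · intro j _ hj
    have : (inj i (dl (1 : G)) : VV G a).ofLp j = 0 := by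
      have := inj_apply i j (dl (1 : G))
      simpa [hj] using this
    rw [this, inner_zero_right]
  · intro h
    exact absurd (Finset.mem_univ i) h

theorem norm_e (i : Fin a) : ‖(inj i (dl (1 : G)) : VV G a)‖ = 1 := by
  have h1 : inner ℝ (inj i (dl (1 : G)) : VV G a) (inj i (dl (1 : G))) = 1 := by
    rw [inner_e, inj_apply, if_pos rfl, dl_apply, if_pos rfl]
  rw [real_inner_self_eq_norm_sq] at h1
  exact (pow_eq_one_iff_of_nonneg (norm_nonneg _) two_ne_zero).1 h1

/-- commuting with right translations -/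
def EquiR (T : VV G a →L[ℝ] VV G b) : Prop := ∀ k x, T (RV k x) = RV k (T x)

theorem equiR_eval {S : VV G a →L[ℝ] VV G b} (hS : EquiR S) (i : Fin b) (j : Fin a) (g : G) :
    S (inj j (dl g)) i 1 = S (inj j (dl 1)) i g⁻¹ := by
  rw [← rho_dl, ← RV_inj, hS, RV_apply, rho_apply, one_mul]

theorem expandR {S : VV G a →L[ℝ] VV G b} (hS : EquiR S) (y : VV G a) (i : Fin b) :
    S y i 1 = ∑ j, ∑' g, y j g * S (inj j (dl 1)) i g⁻¹ := by
  have h1 : ∀ j, HasSum (fun g => y j g * S (inj j (dl 1)) i g⁻¹) (S (inj j (y j)) i 1) := by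
    intro j
    have h2 := (hasSum_dl (y j)).mapL (evV i 1 ∘L S ∘L inj j)
    have h3 : (fun g => (evV i 1 ∘L S ∘L inj j) (y j g • dl g)) =
        fun g => y j g * S (inj j (dl 1)) i g⁻¹ := by
      funext g
      rw [map_smul, smul_eq_mul]
      congr 1
      exact equiR_eval hS i j g
    rw [h3] at h2
    exact h2
  conv_lhs => rw [← sum_inj y]
  rw [map_sum]
  change evV i 1 (∑ j, S (inj j (y j))) = _
  rw [map_sum]
  exact Finset.sum_congr rfl fun j _ => (h1 j).tsum_eq.symm

theorem trR_comm {S : VV G a →L[ℝ] VV G b} {T : VV G b →L[ℝ] VV G a} (hS : EquiR S)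
    (hT : EquiR T) : trV (S ∘L T) = trV (T ∘L S) := by
  have h1 : trV (S ∘L T) = ∑ i, ∑ j, ∑' g, T (inj i (dl 1)) j g * S (inj j (dl 1)) i g⁻¹ :=
    Finset.sum_congr rfl fun i _ => expandR hS _ i
  have h2 : trV (T ∘L S) = ∑ i, ∑ j, ∑' g, S (inj i (dl 1)) j g * T (inj j (dl 1)) i g⁻¹ :=
    Finset.sum_congr rfl fun i _ => expandR hT _ i
  rw [h1, h2, Finset.sum_comm]
  refine Finset.sum_congr rfl fun i _ => Finset.sum_congr rfl fun j _ => ?_
  rw [← (Equiv.inv G).tsum_eq]
  refine tsum_congr fun g => ?_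
  change T (inj j (dl 1)) i g⁻¹ * S (inj i (dl 1)) j g⁻¹⁻¹ = _
  rw [inv_inv, mul_comm]

/-- the von Neumann dimension of the closure of a subspace -/
def vd (W : Submodule ℝ (VV G a)) : ℝ := trV (prj W)

theorem vd_eq (W : Submodule ℝ (VV G a)) :
    vd W = ∑ i, inner ℝ (prj W (inj i (dl (1 : G)))) (inj i (dl 1)) := by
  unfold vd trV
  exact Finset.sum_congr rfl fun i _ => (inner_e (prj W (inj i (dl (1 : G)))) i).symm

theorem equiR_adjoint {T : VV G a →L[ℝ] VV G b} (hT : EquiR T) : EquiR (adjoint T) := by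
  intro k y
  refine ext_inner_right ℝ fun x => ?_
  rw [ContinuousLinearMap.adjoint_inner_left, ← RV_RV_inv k (T x), inner_RV, ← hT,
    ← ContinuousLinearMap.adjoint_inner_left, ← inner_RV k, RV_RV_inv]

theorem range_le {T : VV G a →L[ℝ] VV G b} (hT : EquiR T) :
    vd (LinearMap.range (T : VV G a →ₗ[ℝ] VV G b)) ≤
      vd (LinearMap.range (adjoint T : VV G b →ₗ[ℝ] VV G a)) := by
  refine le_of_forall_pos_le_add fun η' hη' => ?_
  obtain ⟨η, hη, hηb⟩ : ∃ η : ℝ, 0 < η ∧ 3 * η * b ≤ η' := by
    refine ⟨η' / (3 * (b + 1)), by positivity, ?_⟩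
    have hb : (0 : ℝ) ≤ b := Nat.cast_nonneg b
    rw [mul_comm 3, mul_assoc, div_mul_eq_mul_div, div_le_iff₀ (by positivity)]
    nlinarith
  let W := LinearMap.range (T : VV G a →ₗ[ℝ] VV G b)
  let W' := LinearMap.range (adjoint T : VV G b →ₗ[ℝ] VV G a)
  let e : ∀ i : Fin b, VV G b := fun i => inj i (dl (1 : G))
  have hz : ∀ i, ∃ z, ‖prj W (e i) - T z‖ < η := by
    intro i
    obtain ⟨_, ⟨z, rfl⟩, h⟩ := Metric.mem_closure_iff.1 (prj_mem W (e i)) η hη
    rw [dist_eq_norm] at h
    exact ⟨z, h⟩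
  choose z hz using hz
  let Z : ℝ := ∑ i, ‖z i‖
  have hZ : 0 ≤ Z := Finset.sum_nonneg fun i _ => norm_nonneg _
  have hzZ : ∀ i, ‖z i‖ ≤ Z := fun i =>
    Finset.single_le_sum (fun i _ => norm_nonneg (z i)) (Finset.mem_univ i)
  let s : ℝ := η / (Z + 1)
  have hs : 0 < s := by positivity
  obtain ⟨A, hA1, hA2, hA3, hA4⟩ := exists_resolvent T (ε := s ^ 2) (by positivity)
  let K : VV G b →L[ℝ] VV G b := T ∘L (A ∘L adjoint T)
  have hKn : ∀ y, ‖K y‖ ≤ ‖y‖ := by
    intro y
    have h1 := hA1 (adjoint T y)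
    have h2 : inner ℝ (adjoint T y) (A (adjoint T y)) = inner ℝ y (K y) := by
      rw [ContinuousLinearMap.adjoint_inner_left]
      rfl
    have h3 : inner ℝ (adjoint T y) (A (adjoint T y)) =
        ‖K y‖ ^ 2 + s ^ 2 * ‖A (adjoint T y)‖ ^ 2 := by
      calc inner ℝ (adjoint T y) (A (adjoint T y)) =
            inner ℝ (adjoint T (T (A (adjoint T y))) + s ^ 2 • A (adjoint T y))
              (A (adjoint T y)) := by rw [h1]
        _ = _ := by
          rw [inner_add_left, ContinuousLinearMap.adjoint_inner_left, real_inner_smul_left,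
            real_inner_self_eq_norm_sq, real_inner_self_eq_norm_sq]
          rfl
    have h4 := real_inner_le_norm y (K y)
    have h5 : ‖K y‖ ^ 2 ≤ ‖y‖ * ‖K y‖ := by
      have : 0 ≤ s ^ 2 * ‖A (adjoint T y)‖ ^ 2 := by positivity
      linarith
    rcases (norm_nonneg (K y)).eq_or_lt with h0 | h0
    · rw [← h0]; exact norm_nonneg y
    · rw [sq] at h5
      exact le_of_mul_le_mul_right h5 h0
  have hKT : ∀ x, ‖K (T x) - T x‖ ≤ s * ‖x‖ := by
    intro x
    let u := A (adjoint T (T x))
    have h1 : adjoint T (T u) + s ^ 2 • u = adjoint T (T x) := hA1 _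
    have h2 : adjoint T (T (x - u)) = s ^ 2 • u := by
      rw [map_sub, map_sub, ← h1, add_sub_cancel_left]
    have h3 : ‖T (x - u)‖ ^ 2 = s ^ 2 * inner ℝ u (x - u) := by
      rw [← real_inner_self_eq_norm_sq, ← ContinuousLinearMap.adjoint_inner_left, h2,
        real_inner_smul_left]
    have h4 : inner ℝ u (x - u) ≤ ‖x‖ ^ 2 := by
      rw [inner_sub_right, real_inner_self_eq_norm_sq]
      have := real_inner_le_norm u x
      nlinarith [sq_nonneg (‖u‖ - ‖x‖), sq_nonneg ‖u‖, sq_nonneg ‖x‖]
    have h5 : ‖T (x - u)‖ ^ 2 ≤ (s * ‖x‖) ^ 2 := by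
      rw [h3, mul_pow]
      exact mul_le_mul_of_nonneg_left h4 (by positivity)
    have h6 : K (T x) - T x = -(T (x - u)) := by
      rw [map_sub, neg_sub]
      rfl
    rw [h6, norm_neg]
    exact le_of_sq_le_sq h5 (by positivity)
  have hdiff : ∀ i, ‖K (e i) - prj W (e i)‖ ≤ 3 * η := by
    intro i
    have h1 : adjoint T (e i - prj W (e i)) = 0 := by
      refine ext_inner_right ℝ fun x => ?_
      rw [ContinuousLinearMap.adjoint_inner_left, inner_zero_left]
      exact prj_orth W _ (subset_closure ⟨x, rfl⟩)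
    have h2 : K (e i) = K (prj W (e i)) := by
      have : K (e i - prj W (e i)) = 0 := by
        change T (A (adjoint T (e i - prj W (e i)))) = 0
        rw [h1, map_zero, map_zero]
      rwa [map_sub, sub_eq_zero] at this
    have h3 : K (e i) - prj W (e i) = K (prj W (e i) - T (z i)) + (K (T (z i)) - T (z i)) +
        (T (z i) - prj W (e i)) := by
      rw [h2, map_sub]
      abel
    rw [h3]
    have h4 := hKn (prj W (e i) - T (z i))
    have h5 := hKT (z i)
    have h6 : s * ‖z i‖ ≤ η := by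
      have : s * ‖z i‖ ≤ s * (Z + 1) :=
        mul_le_mul_of_nonneg_left (by linarith [hzZ i]) hs.le
      have h7 : s * (Z + 1) = η := div_mul_cancel₀ _ (by positivity)
      linarith
    have h7 := hz i
    have h8 : ‖T (z i) - prj W (e i)‖ < η := by rw [norm_sub_rev]; exact h7
    calc _ ≤ ‖K (prj W (e i) - T (z i))‖ + ‖K (T (z i)) - T (z i)‖ + ‖T (z i) - prj W (e i)‖ :=
          norm_add₃_le
      _ ≤ 3 * η := by linarith
  have hA' : EquiR A := by
    intro k x
    have h1 : adjoint T (T (RV k (A x))) + s ^ 2 • RV k (A x) = RV k x := by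
      rw [hT, equiR_adjoint hT, ← map_smul, ← map_add, hA1]
    rw [← h1, hA2]
  have hAT : EquiR (A ∘L adjoint T) := by
    intro k y
    change A (adjoint T (RV k y)) = RV k (A (adjoint T y))
    rw [equiR_adjoint hT, hA']
  have htr : trV K = trV ((A ∘L adjoint T) ∘L T) := trR_comm hT hAT
  have hle : trV ((A ∘L adjoint T) ∘L T) ≤ vd W' := by
    rw [vd_eq]
    refine Finset.sum_le_sum fun j _ => ?_
    let f : VV G a := inj j (dl (1 : G))
    have h0 : ((A ∘L adjoint T) ∘L T) f j 1 = inner ℝ (A (adjoint T (T f))) f :=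
      (inner_e _ j).symm
    have h1 : T (f - prj W' f) = 0 := by
      refine ext_inner_right ℝ fun y => ?_
      rw [inner_zero_left, ← ContinuousLinearMap.adjoint_inner_right]
      exact prj_orth W' _ (subset_closure ⟨y, rfl⟩)
    have h2 : T f = T (prj W' f) := by
      rwa [map_sub, sub_eq_zero] at h1
    have h3 : A (f - prj W' f) = (s ^ 2)⁻¹ • (f - prj W' f) := by
      have := hA2 (f - prj W' f)
      rw [h1, map_zero, zero_add, map_smul] at this
      rw [eq_inv_smul_iff₀ (by positivity), this]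
    have h4 : A (adjoint T (T f)) = prj W' f - s ^ 2 • A (prj W' f) := by
      have := hA2 (prj W' f)
      rw [map_add, map_smul, ← h2] at this
      rw [eq_sub_iff_add_eq, this]
    have h5 : inner ℝ (A (prj W' f)) f = inner ℝ (A (prj W' f)) (prj W' f) := by
      have h6 : inner ℝ (A (prj W' f)) (f - prj W' f) = 0 := by
        rw [hA3, h3, inner_smul_right, real_inner_comm, prj_orth W' f (prj_mem W' f), mul_zero]
      rw [inner_sub_right, sub_eq_zero] at h6
      exact h6
    change ((A ∘L adjoint T) ∘L T) f j 1 ≤ inner ℝ (prj W' f) f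
    rw [h0, h4, inner_sub_left, real_inner_smul_left, h5]
    have := hA4 (prj W' f)
    have : 0 ≤ s ^ 2 * inner ℝ (A (prj W' f)) (prj W' f) := by positivity
    linarith
  have hge : vd W ≤ trV K + 3 * η * b := by
    rw [vd_eq]
    have h1 : ∀ i ∈ (Finset.univ : Finset (Fin b)), inner ℝ (prj W (inj i (dl (1 : G)))) (inj i (dl 1)) ≤
        K (e i) i 1 + 3 * η := by
      intro i _
      have h2 : K (e i) i 1 = inner ℝ (K (e i)) (e i) := (inner_e _ i).symm
      have h3 := abs_real_inner_le_norm (K (e i) - prj W (e i)) (e i)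
      have h4 : ‖e i‖ = 1 := norm_e i
      rw [h4, mul_one, inner_sub_left] at h3
      have h5 := (abs_le.1 (h3.trans (hdiff i))).1
      rw [h2]
      change inner ℝ (prj W (e i)) (e i) ≤ _
      linarith
    refine (Finset.sum_le_sum h1).trans ?_
    rw [Finset.sum_add_distrib, Finset.sum_const, Finset.card_univ, Fintype.card_fin,
      nsmul_eq_mul, mul_comm (b : ℝ)]
    exact le_rfl
  calc vd W ≤ trV K + 3 * η * b := hge
    _ ≤ vd W' + η' := by rw [htr]; linarith

theorem range_eq {T : VV G a →L[ℝ] VV G b} (hT : EquiR T) :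
    vd (LinearMap.range (T : VV G a →ₗ[ℝ] VV G b)) =
      vd (LinearMap.range (adjoint T : VV G b →ₗ[ℝ] VV G a)) := by
  refine le_antisymm (range_le hT) ?_
  have h := range_le (equiR_adjoint hT)
  rwa [ContinuousLinearMap.adjoint_adjoint] at h

theorem trV_add (S T : VV G a →L[ℝ] VV G a) : trV (S + T) = trV S + trV T :=
  Finset.sum_add_distrib

theorem trV_one : trV (ContinuousLinearMap.id ℝ (VV G a)) = a := by
  have : ∀ i : Fin a, ((ContinuousLinearMap.id ℝ (VV G a)) (inj i (dl 1))) i 1 = 1 := by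
    intro i
    change (inj i (dl (1 : G)) : VV G a) i 1 = 1
    rw [inj_apply, if_pos rfl, dl_apply, if_pos rfl]
  rw [trV, Finset.sum_congr rfl fun i _ => this i]
  simp

/-- rank-nullity -/
theorem rank_nullity {T : VV G a →L[ℝ] VV G b} (hT : EquiR T) :
    vd (LinearMap.ker (T : VV G a →ₗ[ℝ] VV G b)) +
      vd (LinearMap.range (T : VV G a →ₗ[ℝ] VV G b)) = a := by
  rw [range_eq hT, vd, vd, ← trV_add, ← trV_one (G := G)]
  congr 1
  ext1 x
  let W' := LinearMap.range (adjoint T : VV G b →ₗ[ℝ] VV G a)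
  have h1 : T (x - prj W' x) = 0 := by
    refine ext_inner_right ℝ fun y => ?_
    rw [inner_zero_left, ← ContinuousLinearMap.adjoint_inner_right]
    exact prj_orth W' _ (subset_closure ⟨y, rfl⟩)
  have h2 : prj (LinearMap.ker (T : VV G a →ₗ[ℝ] VV G b)) x = x - prj W' x := by
    refine prj_eq _ (subset_closure h1) ?_
    rw [sub_sub_cancel]
    refine orth_closure fun w hw => ?_
    have hw' : T w = 0 := hw
    rw [real_inner_comm]
    refine orth_closure (W := (W' : Set (VV G a))) ?_ _ (prj_mem W' x)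
    rintro _ ⟨y, rfl⟩
    change inner ℝ w (adjoint T y) = 0
    rw [ContinuousLinearMap.adjoint_inner_right, hw', inner_zero_left]
  change prj _ x + prj W' x = x
  rw [h2, sub_add_cancel]

/-- the harmonic space -/
def harm (T : VV G a →L[ℝ] VV G b) (U : VV G b →L[ℝ] VV G c) : Submodule ℝ (VV G b) where
  carrier := {x | U x = 0 ∧ ∀ y, inner ℝ (T y) x = 0}
  add_mem' {x x'} hx hx' := ⟨by rw [map_add, hx.1, hx'.1, add_zero], fun y => by
    rw [inner_add_right, hx.2, hx'.2, add_zero]⟩
  zero_mem' := ⟨map_zero _, fun y => inner_zero_right _⟩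
  smul_mem' r x hx := ⟨by rw [map_smul, hx.1, smul_zero], fun y => by
    rw [inner_smul_right, hx.2, mul_zero]⟩

theorem betti_formula {T : VV G a →L[ℝ] VV G b} {U : VV G b →L[ℝ] VV G c}
    (hU : EquiR U) (h : ∀ x, U (T x) = 0) :
    vd (LinearMap.range (T : VV G a →ₗ[ℝ] VV G b)) + vd (harm T U) +
      vd (LinearMap.range (U : VV G b →ₗ[ℝ] VV G c)) = b := by
  rw [← rank_nullity hU]
  congr 1
  rw [vd, vd, vd, ← trV_add]
  congr 1
  ext1 x
  let R := LinearMap.range (T : VV G a →ₗ[ℝ] VV G b)
  let N := LinearMap.ker (U : VV G b →ₗ[ℝ] VV G c)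
  have hNc : closure (N : Set (VV G b)) = N := by
    refine IsClosed.closure_eq ?_
    exact isClosed_eq U.continuous continuous_const
  have hRN : closure (R : Set (VV G b)) ⊆ N := by
    rw [← hNc]
    refine closure_mono ?_
    rintro _ ⟨y, rfl⟩
    exact h y
  have hH : closure (harm T U : Set (VV G b)) ⊆ N := by
    rw [← hNc]
    exact closure_mono fun x hx => hx.1
  have hsplit : ∀ k ∈ N, k - prj R k ∈ harm T U := by
    intro k hk
    refine ⟨?_, fun y => ?_⟩
    · have h1 : U (prj R k) = 0 := hRN (prj_mem R k)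
      have h2 : U k = 0 := hk
      rw [map_sub, h1, h2, sub_zero]
    · rw [real_inner_comm]
      exact prj_orth R k (subset_closure ⟨y, rfl⟩)
  have hRH : ∀ r ∈ closure (R : Set (VV G b)), ∀ x ∈ closure (harm T U : Set (VV G b)),
      inner ℝ r x = 0 := by
    intro r hr x hx
    refine orth_closure (fun x hx => ?_) x hx
    rw [real_inner_comm]
    refine orth_closure (fun w hw => ?_) r hr
    obtain ⟨y, rfl⟩ := hw
    rw [real_inner_comm]
    exact hx.2 y
  change prj R x + prj (harm T U) x = prj N x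
  symm
  refine prj_eq N ?_ ?_
  · rw [hNc]
    exact N.add_mem (hRN (prj_mem R x)) (hH (prj_mem _ x))
  · refine orth_closure fun k hk => ?_
    have h1 := prj_mem R k
    have h2 := hsplit k hk
    have h3 : k = prj R k + (k - prj R k) := by abel
    rw [h3, inner_add_right]
    have e1 : inner ℝ (x - (prj R x + prj (harm T U) x)) (prj R k) = 0 := by
      rw [← sub_sub, inner_sub_left, prj_orth R x h1, zero_sub, neg_eq_zero, real_inner_comm]
      exact hRH _ h1 _ (prj_mem _ x)
    have e2 : inner ℝ (x - (prj R x + prj (harm T U) x)) (k - prj R k) = 0 := by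
      rw [add_comm, ← sub_sub, inner_sub_left, prj_orth _ x (subset_closure h2), zero_sub,
        neg_eq_zero]
      exact hRH _ (prj_mem R x) _ (subset_closure h2)
    rw [e1, e2, add_zero]

end

end Pool.Agent.Q103.SG
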