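import Pool.Agent.Q103.SG.Coc
import Pool.Agent.Q103.BG.Main
import Pool.Agent.Y34.EL.All

/-!
# CAT(0) groups without rank one isometries have no harmonic functions of finite energy
-/

set_option autoImplicit false

universe u

open Set Filter Topology
open Pool.Agent.TH60.FP Pool.Agent.Y34.HB Pool.Agent.Y34.EL

namespace Pool.Agent.Q103.SG

theorem noHarm_of_geo {X : Type u} [MetricSpace X] {G : Type} [Group G] [MulAction G X]
    (hG : Geo X G) (hGC : GC X) (hno : ∀ g : G, ¬ RankOne X g) (o : X) : NoHarm G := by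
  intro S hS hgen f harm hsum g h
  by_contra hne
  obtain ⟨κ, R₀, hκ, hR⟩ := energy_log hG hGC hno o S hS hgen f harm ⟨g, h, hne⟩
  obtain ⟨hf, -, -⟩ := Pool.Agent.Q103.BG.len_facts hG o
  let Φ : G → ℝ := fun g => ∑ s ∈ S, (f (g * s) - f g) ^ 2
  have hΦ : ∀ g, 0 ≤ Φ g := fun g => Finset.sum_nonneg fun s _ => sq_nonneg _
  have hbound : ∀ R : ℝ, R₀ ≤ R → κ * Real.log R ≤ ∑' g, Φ g := by
    intro R h1
    refine (hR R h1).trans ?_
    rw [finsum_mem_eq_finite_toFinset_sum _ (hf R)]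
    exact hsum.sum_le_tsum _ fun g _ => hΦ g
  have h1 : Tendsto (fun R : ℝ => κ * Real.log R) atTop atTop :=
    Real.tendsto_log_atTop.const_mul_atTop hκ
  obtain ⟨R, hR1, hR2⟩ := ((h1.eventually (eventually_gt_atTop (∑' g, Φ g))).and
    (eventually_ge_atTop R₀)).exists
  exact absurd (hbound R hR2) (not_le.2 hR1)

theorem fg_of_geo {X : Type u} [MetricSpace X] {G : Type} [Group G] [MulAction G X]
    (hG : Geo X G) (o : X) : Group.FG G := by
  obtain ⟨S, -, h⟩ := Pool.Agent.Q103.BG.exists_gen hG o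
  exact ⟨S, h⟩

/-- CAT(0) groups without rank one isometries: the reduced first `ℓ²`-cohomology vanishes. -/
theorem approx_of_geo {X : Type u} [MetricSpace X] {G : Type} [Group G] [MulAction G X]
    (hG : Geo X G) (hGC : GC X) (hno : ∀ g : G, ¬ RankOne X g) (o : X)
    (b : G → Pool.Agent.Helper386.PD3.L2 G)
    (hb : ∀ g h, b (g * h) = b g + Pool.Agent.Helper386.PD3.lam2 g (b h)) (T : Finset G) (δ : ℝ)
    (hδ : 0 < δ) : ∃ u : Pool.Agent.Helper386.PD3.L2 G,
      ∀ g ∈ T, ‖b g - (Pool.Agent.Helper386.PD3.lam2 g u - u)‖ < δ :=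
  coc_approx (noHarm_of_geo hG hGC hno o) (fg_of_geo hG o) b hb T δ hδ

end Pool.Agent.Q103.SG
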