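import Pool.Agent.Q103.SG.Coc
import Pool.Agent.Helper386.PD3.Contr

/-!
# The `ℓ²`-cochain complex of a resolution given by matrices
-/

set_option autoImplicit false

open Set Filter Topology
open scoped Matrix
open Pool.Agent.Helper386.PD3

namespace Pool.Agent.Q103.SG

noncomputable section

variable {G : Type} [Group G] {n : ℕ}

/-- the left regular representation -/
def lamHom (G : Type) [Group G] : G →* (L2 G →L[ℝ] L2 G) where
  toFun := lam2
  map_one' := by
    ext x k
    change x (1⁻¹ * k) = x k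
    rw [inv_one, one_mul]
  map_mul' g h := by
    ext x k
    change x ((g * h)⁻¹ * k) = x (h⁻¹ * (g⁻¹ * k))
    rw [mul_inv_rev, mul_assoc]

/-- the action of the group ring on `ℓ²(G)` -/
def la : RR G →+* (L2 G →L[ℝ] L2 G) := liftR (lamHom G)

theorem la_of (g : G) : la (gof g) = lam2 g := liftR_of _ _

theorem la_mul (r s : RR G) (x : L2 G) : la (r * s) x = la r (la s x) := by
  rw [map_mul]
  rfl

theorem la_add (r s : RR G) (x : L2 G) : la (r + s) x = la r x + la s x := by
  rw [map_add]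
  rfl

theorem la_sum {ι : Type*} (s : Finset ι) (f : ι → RR G) (x : L2 G) :
    la (∑ i ∈ s, f i) x = ∑ i ∈ s, la (f i) x := by
  rw [map_sum, sum_apply]

theorem la_int (c : ℤ) (x : L2 G) : la ((c : ℤ) : RR G) x = c • x := by
  rw [map_intCast]
  have : ((c : ℤ) : L2 G →L[ℝ] L2 G) = c • (1 : L2 G →L[ℝ] L2 G) := by
    rw [zsmul_eq_mul, mul_one]
  rw [this]
  rfl

/-- the operator of a matrix over the group ring -/
def LL (M : MR G n) : VV G n →L[ℝ] VV G n := opV (M.map la)

theorem LL_apply (M : MR G n) (x : VV G n) (i : Fin n) : LL M x i = ∑ j, la (M i j) (x j) :=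
  opV_apply _ _ _

theorem LL_mul (M N : MR G n) (x : VV G n) : LL (M * N) x = LL M (LL N x) := by
  have : (M * N).map la = M.map la * N.map (la (G := G)) := Matrix.map_mul
  rw [LL, this, opV_mul]
  rfl

theorem LL_zero (x : VV G n) : LL (0 : MR G n) x = 0 := by
  apply vv_ext
  intro i
  rw [LL_apply]
  simp

/-- the pairing of a row vector over the group ring with a column vector -/
def pr (v : Fin n → RR G) (x : VV G n) : L2 G := ∑ j, la (v j) (x j)

theorem pr_row (M : MR G n) (x : VV G n) (i : Fin n) : pr (M i) x = LL M x i := (LL_apply M x i).symm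

theorem pr_add (v v' : Fin n → RR G) (x : VV G n) : pr (v + v') x = pr v x + pr v' x := by
  rw [pr, pr, pr, ← Finset.sum_add_distrib]
  exact Finset.sum_congr rfl fun j _ => la_add _ _ _

theorem pr_neg (v : Fin n → RR G) (x : VV G n) : pr (-v) x = -pr v x := by
  rw [pr, pr, ← Finset.sum_neg_distrib]
  refine Finset.sum_congr rfl fun j _ => ?_
  change la (-(v j)) (x j) = _
  rw [map_neg]
  rfl

theorem pr_sub (v v' : Fin n → RR G) (x : VV G n) : pr (v - v') x = pr v x - pr v' x := by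
  rw [sub_eq_add_neg, pr_add, pr_neg, sub_eq_add_neg]

theorem pr_zero (x : VV G n) : pr (0 : Fin n → RR G) x = 0 := by
  rw [pr]
  simp

theorem pr_smul (r : RR G) (v : Fin n → RR G) (x : VV G n) : pr (r • v) x = la r (pr v x) := by
  rw [pr, pr, map_sum]
  exact Finset.sum_congr rfl fun j _ => la_mul _ _ _

theorem pr_vecMul (v : Fin n → RR G) (M : MR G n) (x : VV G n) :
    pr (v ᵥ* M) x = pr v (LL M x) := by
  have h1 : v ᵥ* M = ∑ i, v i • M i := Matrix.vecMul_eq_sum _ _
  have h2 : ∀ s : Finset (Fin n), pr (∑ i ∈ s, v i • M i) x = ∑ i ∈ s, la (v i) (LL M x i) := by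
    intro s
    induction s using Finset.induction_on with
    | empty => simp [pr_zero]
    | insert a s ha ih =>
      rw [Finset.sum_insert ha, Finset.sum_insert ha, pr_add, ih, pr_smul, pr_row]
  rw [h1, h2]
  rfl

/-! ### additive maps of the group ring -/

theorem addR_sub {N : Type*} [AddCommGroup N] (f f' : G → N) (r : RR G) :
    addR (fun g => f g - f' g) r = addR f r - addR f' r := by
  induction r using rr_ind with
  | h1 g => rw [addR_of, addR_of, addR_of]
  | h2 x y hx hy => rw [map_add, map_add, map_add, hx, hy]; abel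
  | h3 x hx => rw [map_neg, map_neg, map_neg, hx]; abel

theorem addR_act (u : L2 G) (r : RR G) :
    addR (fun g => lam2 g u - u) r = la r u - eps r • u := by
  induction r using rr_ind with
  | h1 g => rw [addR_of, la_of, eps_of, one_smul]
  | h2 x y hx hy => rw [map_add, hx, hy, la_add, map_add, add_smul]; abel
  | h3 x hx =>
    rw [map_neg, hx, map_neg, map_neg, neg_smul]
    change _ = -(la x u) - _
    abel

theorem addR_bound (r : RR G) : ∃ (T : Finset G) (C : ℝ), 0 ≤ C ∧ ∀ (f : G → L2 G) (δ : ℝ),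
    (∀ g ∈ T, ‖f g‖ ≤ δ) → ‖addR f r‖ ≤ C * δ := by
  classical
  induction r using rr_ind with
  | h1 g =>
    refine ⟨{g}, 1, zero_le_one, fun f δ h => ?_⟩
    rw [addR_of, one_mul]
    exact h g (Finset.mem_singleton_self g)
  | h2 x y hx hy =>
    obtain ⟨T, C, hC, h⟩ := hx
    obtain ⟨T', C', hC', h'⟩ := hy
    refine ⟨T ∪ T', C + C', by positivity, fun f δ hf => ?_⟩
    rw [map_add, add_mul]
    exact (norm_add_le _ _).trans (add_le_add
      (h f δ fun g hg => hf g (Finset.mem_union_left _ hg))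
      (h' f δ fun g hg => hf g (Finset.mem_union_right _ hg)))
  | h3 x hx =>
    obtain ⟨T, C, hC, h⟩ := hx
    refine ⟨T, C, hC, fun f δ hf => ?_⟩
    rw [map_neg, norm_neg]
    exact h f δ hf

/-! ### the low degree part -/

theorem kill_coc {e0 e1 e2 d0 d1 : MR G n} (hL : Low e0 e1 e2 d0 d1) {x : VV G n}
    (hx : LL e1 x = x) (hx0 : LL d1 x = 0) {v : Fin n → RR G} (hv : v ᵥ* d0 = 0) : pr v x = 0 := by
  obtain ⟨u, hu⟩ := hL.ex1 (v ᵥ* e1) (by rw [Matrix.vecMul_vecMul, hL.ee1])
    (by rw [Matrix.vecMul_vecMul, hL.e1d0, hv])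
  rw [← hx, ← pr_vecMul, ← hu, pr_vecMul, hx0]
  rw [pr]
  simp

/-- the vanishing of the reduced first cohomology of `G` with coefficients in `ℓ²(G)` -/
def Approx (G : Type) [Group G] : Prop := ∀ b : G → L2 G, (∀ g h, b (g * h) = b g + lam2 g (b h)) →
  ∀ (T : Finset G) (δ : ℝ), 0 < δ → ∃ u : L2 G, ∀ g ∈ T, ‖b g - (lam2 g u - u)‖ < δ

theorem norm_le_sum (z : VV G n) : ‖z‖ ≤ ∑ i : Fin n, ‖(inj i : L2 G →L[ℝ] VV G n)‖ * ‖z i‖ := by
  conv_lhs => rw [← sum_inj z]
  refine (norm_sum_le _ _).trans (Finset.sum_le_sum fun i _ => ?_)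
  exact (inj i : L2 G →L[ℝ] VV G n).le_opNorm _

/-- **Degree one**, for matrices. -/
theorem deg_one (hA : Approx G) {e0 e1 e2 d0 d1 : MR G n} (hL : Low e0 e1 e2 d0 d1) {x : VV G n}
    (hx : LL e1 x = x) (hx0 : LL d1 x = 0) : x ∈ closure (Set.range (LL d0)) := by
  have kill : ∀ v, v ᵥ* d0 = 0 → pr v x = 0 := fun v hv => kill_coc hL hx hx0 hv
  obtain ⟨ε, hε, ⟨u0, hu0, hεu0⟩, hεd, hεex⟩ := hL.aug
  have hmem : ∀ g : G, ∃ v, v ᵥ* d0 = gof g • u0 - u0 := by
    intro g
    refine hεex _ ?_ ?_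
    · rw [Matrix.sub_vecMul, Matrix.smul_vecMul, hu0]
    · rw [map_sub, hε, sub_self]
  choose vg hvg using hmem
  let b : G → L2 G := fun g => pr (vg g) x
  have hb : ∀ g h, b (g * h) = b g + lam2 g (b h) := by
    intro g h
    have h1 : (vg (g * h) - vg g - gof g • vg h) ᵥ* d0 = 0 := by
      rw [Matrix.sub_vecMul, Matrix.sub_vecMul, Matrix.smul_vecMul, hvg, hvg, hvg, gof_mul,
        mul_smul, smul_sub]
      abel
    have h2 := kill _ h1
    rw [pr_sub, pr_sub, pr_smul, la_of, sub_sub, sub_eq_zero] at h2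
    exact h2
  -- the rows of `e0`
  have hrow : ∀ i, (e0 i) ᵥ* e0 = e0 i := by
    intro i
    funext j
    exact congrFun (congrFun hL.ee0 i) j
  have hw : ∀ j, ∃ w, w ᵥ* d0 = e0 j - ε (e0 j) • u0 := by
    intro j
    refine hεex _ ?_ ?_
    · rw [Matrix.sub_vecMul, hrow]
      have : (ε (e0 j) • u0) ᵥ* e0 = ε (e0 j) • (u0 ᵥ* e0) := Matrix.smul_vecMul _ _ _
      rw [this, hu0]
    · rw [map_sub, map_zsmul, hεu0, smul_eq_mul, mul_one, sub_self]
  choose w hw using hw
  let c : Fin n → ℤ := fun j => ε (e0 j)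
  let r : Fin n → RR G := fun i => ∑ j, d0 i j * ((c j : ℤ) : RR G)
  let a : Fin n → Fin n → RR G := fun i => ∑ j, d0 i j • w j
  have hd0row : ∀ i, d0 i = ∑ j, d0 i j • e0 j := by
    intro i
    have h1 : d0 i ᵥ* e0 = d0 i := by
      funext j
      exact congrFun (congrFun hL.d0e0 i) j
    conv_lhs => rw [← h1]
    exact Matrix.vecMul_eq_sum _ _
  have ha : ∀ i, (a i) ᵥ* d0 = d0 i - r i • u0 := by
    intro i
    have h1 : (a i) ᵥ* d0 = ∑ j, d0 i j • (e0 j - c j • u0) := by
      have : (a i) ᵥ* d0 = ∑ j, (d0 i j • w j) ᵥ* d0 := by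
        have h : ∀ s : Finset (Fin n), (∑ j ∈ s, d0 i j • w j) ᵥ* d0 =
            ∑ j ∈ s, (d0 i j • w j) ᵥ* d0 := by
          intro s
          induction s using Finset.induction_on with
          | empty => simp
          | insert a s ha ih => rw [Finset.sum_insert ha, Finset.sum_insert ha, Matrix.add_vecMul, ih]
        exact h Finset.univ
      rw [this]
      refine Finset.sum_congr rfl fun j _ => ?_
      rw [Matrix.smul_vecMul, hw]
    rw [h1]
    have h2 : ∀ j, d0 i j • (e0 j - c j • u0) = d0 i j • e0 j - (d0 i j * ((c j : ℤ) : RR G)) • u0 := by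
      intro j
      rw [smul_sub, mul_smul, Int.cast_smul_eq_zsmul]
    simp only [h2]
    rw [Finset.sum_sub_distrib, ← hd0row, ← Finset.sum_smul]
  have hεr : ∀ i, eps (r i) = 0 := by
    intro i
    have h1 : ε (d0 i) = 0 := by
      have h2 : (Pi.single i 1 : Fin n → RR G) ᵥ* d0 = d0 i := Matrix.single_one_vecMul _ _
      rw [← h2]
      exact hεd _
    have h2 := hεd (a i)
    rw [ha, map_sub, h1, eps_eq hε, hεu0, mul_one, zero_sub, neg_eq_zero] at h2
    exact h2
  have hV : ∀ r : RR G, (addR vg r) ᵥ* d0 = r • u0 - eps r • u0 := by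
    intro r
    induction r using rr_ind with
    | h1 g => rw [addR_of, hvg, eps_of, one_smul]
    | h2 x y hx hy => rw [map_add, Matrix.add_vecMul, hx, hy, map_add, add_smul, add_smul]; abel
    | h3 x hx =>
      rw [map_neg, Matrix.neg_vecMul, hx, map_neg, neg_smul, neg_smul]
      abel
  have hprV : ∀ r : RR G, pr (addR vg r) x = addR b r := by
    intro r
    induction r using rr_ind with
    | h1 g => rw [addR_of, addR_of]
    | h2 y z hy hz => rw [map_add, pr_add, hy, hz, map_add]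
    | h3 y hy => rw [map_neg, pr_neg, hy, map_neg]
  have hx1 : ∀ i, x i = pr (a i) x + addR b (r i) := by
    intro i
    have h1 : (e1 i - a i - addR vg (r i)) ᵥ* d0 = 0 := by
      have h2 : e1 i ᵥ* d0 = d0 i := by
        funext j
        exact congrFun (congrFun hL.e1d0 i) j
      rw [Matrix.sub_vecMul, Matrix.sub_vecMul, h2, ha, hV, hεr, zero_smul]
      abel
    have h3 := kill _ h1
    rw [pr_sub, pr_sub, pr_row, hx, hprV, sub_sub, sub_eq_zero] at h3
    exact h3
  have hpra : ∀ i, pr (a i) x = ∑ j, la (d0 i j) (pr (w j) x) := by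
    intro i
    have h : ∀ s : Finset (Fin n), pr (∑ j ∈ s, d0 i j • w j) x =
        ∑ j ∈ s, la (d0 i j) (pr (w j) x) := by
      intro s
      induction s using Finset.induction_on with
      | empty => simp [pr_zero]
      | insert a s ha ih => rw [Finset.sum_insert ha, Finset.sum_insert ha, pr_add, ih, pr_smul]
    exact h Finset.univ
  classical
  choose T C hC hT using fun i => addR_bound (r i)
  rw [Metric.mem_closure_iff]
  intro η hη
  let B : ℝ := ∑ i : Fin n, ‖(inj i : L2 G →L[ℝ] VV G n)‖ * C i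
  have hB : 0 ≤ B := Finset.sum_nonneg fun i _ => mul_nonneg (norm_nonneg _) (hC i)
  obtain ⟨u, hu⟩ := hA b hb (Finset.univ.biUnion T) (η / (B + 1)) (by positivity)
  let y : VV G n := WithLp.toLp 2 fun j => pr (w j) x + c j • u
  refine ⟨LL d0 y, ⟨y, rfl⟩, ?_⟩
  have hyi : ∀ i, LL d0 y i = pr (a i) x + la (r i) u := by
    intro i
    have h1 : LL d0 y i = ∑ j, (la (d0 i j) (pr (w j) x) + la (d0 i j * ((c j : ℤ) : RR G)) u) := by
      rw [LL_apply]
      refine Finset.sum_congr rfl fun j _ => ?_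
      change la (d0 i j) (pr (w j) x + c j • u) = _
      rw [map_add, la_mul, la_int]
    rw [h1, Finset.sum_add_distrib, ← hpra, ← la_sum]
  have hdiff : ∀ i, ‖(x - LL d0 y) i‖ ≤ C i * (η / (B + 1)) := by
    intro i
    have h1 : (x - LL d0 y) i = addR (fun g => b g - (lam2 g u - u)) (r i) := by
      rw [addR_sub, addR_act, hεr, zero_smul, sub_zero]
      change x i - LL d0 y i = _
      rw [hyi, hx1]
      abel
    rw [h1]
    exact hT i _ _ fun g hg => (hu g (Finset.mem_biUnion.2 ⟨i, Finset.mem_univ i, hg⟩)).le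
  rw [dist_eq_norm]
  calc ‖x - LL d0 y‖ ≤ ∑ i : Fin n, ‖(inj i : L2 G →L[ℝ] VV G n)‖ * ‖(x - LL d0 y) i‖ :=
        norm_le_sum _
    _ ≤ ∑ i : Fin n, ‖(inj i : L2 G →L[ℝ] VV G n)‖ * (C i * (η / (B + 1))) :=
        Finset.sum_le_sum fun i _ => mul_le_mul_of_nonneg_left (hdiff i) (norm_nonneg _)
    _ = B * (η / (B + 1)) := by
        rw [Finset.sum_mul]
        exact Finset.sum_congr rfl fun i _ => by ring
    _ < η := by
        rw [← mul_div_assoc, div_lt_iff₀ (by positivity)]
        nlinarith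

theorem inv_eq_zero [Infinite G] {ξ : L2 G} (h : ∀ g : G, lam2 g ξ = ξ) : ξ = 0 := by
  have h1 : ∀ k, ξ k = ξ 1 := by
    intro k
    have := congrArg (fun f : L2 G => f k) (h k)
    change ξ (k⁻¹ * k) = ξ k at this
    rw [inv_mul_cancel] at this
    exact this.symm
  have h2 := summable_sq ξ
  simp only [h1] at h2
  rw [summable_const_iff] at h2
  ext k
  rw [h1, pow_eq_zero_iff (two_ne_zero) |>.1 h2]
  rfl

/-- **Degree zero**, for matrices. -/
theorem deg_zero [Infinite G] {e0 e1 e2 d0 d1 : MR G n} (hL : Low e0 e1 e2 d0 d1) {x : VV G n}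
    (hx : LL e0 x = x) (hx0 : LL d0 x = 0) : x = 0 := by
  have kill : ∀ v, pr (v ᵥ* d0) x = 0 := by
    intro v
    rw [pr_vecMul, hx0, pr]
    simp
  obtain ⟨ε, hε, ⟨u0, hu0, hεu0⟩, hεd, hεex⟩ := hL.aug
  have hrow : ∀ i, (e0 i) ᵥ* e0 = e0 i := by
    intro i
    funext j
    exact congrFun (congrFun hL.ee0 i) j
  have h0 : pr u0 x = 0 := by
    refine inv_eq_zero fun g => ?_
    obtain ⟨v, hv⟩ := hεex (gof g • u0 - u0)
      (by rw [Matrix.sub_vecMul, Matrix.smul_vecMul, hu0]) (by rw [map_sub, hε, sub_self])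
    have h1 := kill v
    rw [hv, pr_sub, pr_smul, la_of, sub_eq_zero] at h1
    exact h1
  apply vv_ext
  intro j
  obtain ⟨v, hv⟩ := hεex (e0 j - ε (e0 j) • u0) (by
    rw [Matrix.sub_vecMul, hrow]
    have : (ε (e0 j) • u0) ᵥ* e0 = ε (e0 j) • (u0 ᵥ* e0) := Matrix.smul_vecMul _ _ _
    rw [this, hu0]) (by rw [map_sub, map_zsmul, hεu0, smul_eq_mul, mul_one, sub_self])
  have h1 := kill v
  have h2 : ε (e0 j) • u0 = ((ε (e0 j) : ℤ) : RR G) • u0 := (Int.cast_smul_eq_zsmul _ _ _).symm
  rw [hv, pr_sub, h2, pr_smul, h0, map_zero, sub_zero, pr_row, hx] at h1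
  exact h1

end

end Pool.Agent.Q103.SG
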