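import Pool.Agent.Q103.SG.Coz

/-!
# `ℓ²`-cohomology of manifolds with boundary in the top degrees
-/

set_option autoImplicit false
set_option linter.unusedSectionVars false

namespace Pool.Agent.Q103.SG

open Set Filter Topology
open scoped Matrix Classical
open Pool.Agent.Helper158 Pool.Agent.Helper386.PD3

noncomputable section

variable {G : Type} [Group G] {a b n : ℕ}

theorem pair_zero (hA : Approx G) (hfg : Group.FG G) {B : Type} [MulAction G B]
    (hB : ∀ p : B, Infinite (MulAction.stabilizer G p)) (β : B → B → L2 G)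
    (h1 : ∀ p q r, β p r = β p q + β q r) (h2 : ∀ (g : G) p q, β (g • p) (g • q) = lam2 g (β p q))
    (p q : B) : β p q = 0 := by
  have h0 : ∀ p, β p p = 0 := by
    intro p
    have := h1 p p p
    exact left_eq_add.1 this
  have hc : ∀ (p : B) (g : G), β (g • p) p = 0 := by
    intro p
    refine coc_zero hA hfg (MulAction.stabilizer G p) (hB p) (fun g => β (g • p) p) ?_ ?_
    · intro g h
      change β ((g * h) • p) p = β (g • p) p + lam2 g (β (h • p) p)
      rw [h1 _ (g • p) _, mul_smul, h2, add_comm]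
    · intro s hs
      change β (s • p) p = 0
      rw [MulAction.mem_stabilizer_iff.1 hs, h0]
  have hc' : ∀ (p : B) (g : G), β p (g • p) = 0 := by
    intro p g
    have := h1 p (g • p) p
    rw [h0, hc, add_zero] at this
    exact this.symm
  have := hB q
  have : Infinite G := Infinite.of_injective (Subtype.val : MulAction.stabilizer G q → G)
    Subtype.val_injective
  refine inv_eq_zero fun g => ?_
  rw [← h2, h1 _ p _, hc, zero_add, h1 p q, hc', add_zero]

variable (w : G →* ℤˣ)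

/-- the anti-involution on vectors -/
def dgv (u : Fin a → RR G) : Fin a → RR G := fun j => dg w (u j)

/-- the anti-involution on matrices -/
def dgT (D : Matrix (Fin b) (Fin a) (RR G)) : Matrix (Fin a) (Fin b) (RR G) :=
  Matrix.of fun k j => dg w (D j k)

theorem dgv_mulVec (D : Matrix (Fin b) (Fin a) (RR G)) (u : Fin a → RR G) :
    dgv w (D *ᵥ u) = dgv w u ᵥ* dgT w D := by
  funext j
  change dg w (∑ k, D j k * u k) = ∑ k, dg w (u k) * dg w (D j k)
  rw [dg_sum]
  exact Finset.sum_congr rfl fun k _ => dg_mul w _ _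

theorem dgv_add (u v : Fin a → RR G) : dgv w (u + v) = dgv w u + dgv w v := by
  funext j
  exact dg_add w _ _

theorem dgv_single (k : Fin a) : dgv w (Pi.single k 1) = Pi.single k 1 := by
  funext j
  change dg w ((Pi.single k 1 : Fin a → RR G) j) = (Pi.single k 1 : Fin a → RR G) j
  by_cases h : j = k
  · subst h
    rw [Pi.single_eq_same, dg_one]
  · rw [Pi.single_eq_of_ne h, dg_zero]

theorem adj_cob (D : Matrix (Fin b) (Fin a) (RR G)) (x : VV G a) (y : VV G b) :
    inner ℝ (cob D x) y = inner ℝ x (twV w (cob (dgT w D) (twV w y))) := by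
  rw [PiLp.inner_apply, PiLp.inner_apply]
  have h1 : ∀ i, (cob D x).ofLp i = ∑ j, la (D i j) (x j) := cob_apply D x
  have h2 : ∀ j, (twV w (cob (dgT w D) (twV w y))).ofLp j =
      ∑ i, tw w (la (dg w (D i j)) (tw w (y i))) := by
    intro j
    have h3 : (twV w (cob (dgT w D) (twV w y))).ofLp j =
        tw w (cob (dgT w D) (twV w y) j) := rfl
    rw [h3, cob_apply, pr, map_sum]
    rfl
  simp only [h1, h2]
  have h3 : ∀ i, inner ℝ (∑ j, la (D i j) (x j)) (y i) =
      ∑ j, inner ℝ (x j) (tw w (la (dg w (D i j)) (tw w (y i)))) := by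
    intro i
    rw [sum_inner]
    exact Finset.sum_congr rfl fun j _ => adj_la w _ _ _
  rw [Finset.sum_congr rfl fun i _ => h3 i, Finset.sum_comm]
  refine Finset.sum_congr rfl fun j _ => ?_
  rw [inner_sum]

theorem orth_cob {D : Matrix (Fin b) (Fin a) (RR G)} {x : VV G b}
    (h : ∀ y, inner ℝ (cob D y) x = 0) : cob (dgT w D) (twV w x) = 0 := by
  have h1 : ∀ y, inner ℝ y (twV w (cob (dgT w D) (twV w x))) = 0 := by
    intro y
    rw [← adj_cob]
    exact h y
  have h2 := inner_self_eq_zero.1 (h1 _)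
  rw [← twV_twV w (cob (dgT w D) (twV w x)), h2, twV_zero]

/-- the pairing of column vectors with a vector -/
def PP (x : VV G a) : (Fin a → RR G) →+ L2 G :=
  AddMonoidHom.mk' (fun u => pr (dgv w u) x) fun u v => by rw [dgv_add, pr_add]

theorem PP_apply (x : VV G a) (u : Fin a → RR G) : PP w x u = pr (dgv w u) x := rfl

theorem PP_mulVec (D : Matrix (Fin b) (Fin a) (RR G)) (x : VV G b) (t : Fin a → RR G) :
    PP w x (D *ᵥ t) = PP w (cob (dgT w D) x) t := by
  rw [PP_apply, PP_apply, dgv_mulVec, pr_vecMulR]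

theorem PP_single (x : VV G a) (k : Fin a) : PP w x (Pi.single k 1) = x k := by
  rw [PP_apply, dgv_single, pr_single]

theorem PP_zero (u : Fin a → RR G) : PP w (0 : VV G a) u = 0 := by
  rw [PP_apply, pr]
  simp

theorem w_sq (g : G) : ((w g : ℤˣ) : ℤ) * ((w g : ℤˣ) : ℤ) = 1 := by
  rcases Int.units_eq_one_or (w g) with h | h <;> rw [h] <;> norm_num

theorem PP_right (x : VV G a) (u : Fin a → RR G) (g : G) :
    PP w x (fun j => u j * gof g) = ((w g : ℤˣ) : ℤ) • lam2 g⁻¹ (PP w x u) := by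
  have h1 : dgv w (fun j => u j * gof g) = ((((w g : ℤˣ) : ℤ)) • gof g⁻¹ : RR G) • dgv w u := by
    funext j
    change dg w (u j * gof g) = ((((w g : ℤˣ) : ℤ)) • gof g⁻¹ : RR G) * dg w (u j)
    rw [dg_mul, dg_of]
  rw [PP_apply, h1, pr_smul, map_zsmul, la_of, PP_apply]
  rfl

/-- **The degree `n - 1`.** -/
theorem bdry_one (hA : Approx G) (hfg : Group.FG G) {B : Type} [Nonempty B] [MulAction G B]
    (hB : ∀ p : B, Infinite (MulAction.stabilizer G p))
    {D0 : Matrix (Fin b) (Fin a) (RR G)} {D1 : Matrix (Fin n) (Fin b) (RR G)}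
    (hsurj : ∀ y, ∃ u, D1 *ᵥ u = y) (Z : AddSubgroup (Fin b → RR G))
    (hZ : ∀ u, u ∈ Z ↔ D1 *ᵥ u = 0) (θ : Z →+ (B →₀ ℤ))
    (hker : ∀ u : Z, θ u = 0 → ∃ t, D0 *ᵥ t = u.1)
    (hran : ∀ z : B →₀ ℤ, (∃ u, θ u = z) ↔ z.sum (fun _ k => k) = 0)
    (hequi : ∀ (g : G) (u u' : Z), (∀ j, u'.1 j = u.1 j * gof g) →
      θ u' = ((w g : ℤˣ) : ℤ) • Finsupp.mapDomain (fun p => g⁻¹ • p) (θ u))
    {x : VV G b} (hx1 : cob D1 x = 0) (hx0 : ∀ y, inner ℝ (cob D0 y) x = 0) : x = 0 := by
  let x' := twV w x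
  have hy : cob (dgT w D0) x' = 0 := orth_cob w hx0
  have hsum : ∀ p q : B, (Finsupp.single p (1 : ℤ) - Finsupp.single q 1).sum (fun _ k => k) = 0 := by
    intro p q
    rw [Finsupp.sum_sub_index (fun _ _ _ => rfl), Finsupp.sum_single_index rfl,
      Finsupp.sum_single_index rfl, sub_self]
  choose U hU using fun p q : B => (hran (Finsupp.single p (1 : ℤ) - Finsupp.single q 1)).2 (hsum p q)
  have hP0 : ∀ u : Z, θ u = 0 → PP w x' u.1 = 0 := by
    intro u hu
    obtain ⟨t, ht⟩ := hker u hu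
    rw [← ht, PP_mulVec, hy, PP_zero]
  have hPe : ∀ u u' : Z, θ u = θ u' → PP w x' u.1 = PP w x' u'.1 := by
    intro u u' h
    have h1 := hP0 (u - u') (by rw [map_sub, h, sub_self])
    have h2 : (u - u' : Z).1 = u.1 - u'.1 := rfl
    rw [h2, map_sub, sub_eq_zero] at h1
    exact h1
  have hβ := pair_zero hA hfg hB (fun p q => PP w x' (U p q).1) (by
    intro p q r
    have h1 : θ (U p r) = θ (U p q + U q r) := by
      rw [map_add, hU, hU, hU]
      abel
    change PP w x' (U p r).1 = PP w x' (U p q).1 + PP w x' (U q r).1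
    rw [hPe _ _ h1, ← map_add]
    rfl) (by
    intro g p q
    let v : Fin b → RR G := fun j => (U p q).1 j * gof g⁻¹
    have hv : v ∈ Z := by
      rw [hZ]
      funext i
      change ∑ j, D1 i j * ((U p q).1 j * gof g⁻¹) = 0
      have h1 : ∑ j, D1 i j * (U p q).1 j = 0 := congrFun ((hZ _).1 (U p q).2) i
      have h2 : ∑ j, D1 i j * ((U p q).1 j * gof g⁻¹) = (∑ j, D1 i j * (U p q).1 j) * gof g⁻¹ := by
        rw [Finset.sum_mul]
        exact Finset.sum_congr rfl fun j _ => (mul_assoc _ _ _).symm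
      rw [h2, h1, zero_mul]
    have h1 := hequi g⁻¹ (U p q) ⟨v, hv⟩ (fun j => rfl)
    have h2 : Finsupp.mapDomain (fun p : B => (g⁻¹)⁻¹ • p) (θ (U p q)) = θ (U (g • p) (g • q)) := by
      rw [hU, hU, sub_eq_add_neg, Finsupp.mapDomain_add, ← Finsupp.single_neg,
        Finsupp.mapDomain_single, Finsupp.mapDomain_single, inv_inv, Finsupp.single_neg,
        ← sub_eq_add_neg]
    rw [h2] at h1
    have h3 : θ (U (g • p) (g • q)) = θ (((w g⁻¹ : ℤˣ) : ℤ) • ⟨v, hv⟩) := by
      rw [map_zsmul, h1, smul_smul, w_sq, one_smul]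
    have h4 : PP w x' (((w g⁻¹ : ℤˣ) : ℤ) • (⟨v, hv⟩ : Z)).1 =
        ((w g⁻¹ : ℤˣ) : ℤ) • PP w x' v := by
      rw [← map_zsmul]
      rfl
    change PP w x' (U (g • p) (g • q)).1 = lam2 g (PP w x' (U p q).1)
    rw [hPe _ _ h3, h4]
    change ((w g⁻¹ : ℤˣ) : ℤ) • PP w x' (fun j => (U p q).1 j * gof g⁻¹) = _
    rw [PP_right, smul_smul, w_sq, one_smul, inv_inv])
  have hPZ : ∀ u : Z, PP w x' u.1 = 0 := by
    intro u
    obtain ⟨p0⟩ := ‹Nonempty B›
    let z := θ u
    have hz : z.sum (fun _ k => k) = 0 := (hran z).1 ⟨u, rfl⟩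
    let v : Z := ∑ p ∈ z.support, z p • U p p0
    have h1 : θ v = z := by
      change θ (∑ p ∈ z.support, z p • U p p0) = z
      rw [map_sum]
      have h2 : ∀ p ∈ z.support, θ (z p • U p p0) =
          Finsupp.single p (z p) - z p • Finsupp.single p0 1 := by
        intro p _
        rw [map_zsmul, hU, smul_sub]
        congr 1
        rw [Finsupp.smul_single, smul_eq_mul, mul_one]
      rw [Finset.sum_congr rfl h2, Finset.sum_sub_distrib, ← Finset.sum_smul]
      have h3 : ∑ p ∈ z.support, z p = 0 := hz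
      have h4 : ∑ p ∈ z.support, Finsupp.single p (z p) = z := Finsupp.sum_single z
      rw [h3, h4, zero_smul, sub_zero]
    have h5 : PP w x' v.1 = 0 := by
      have h6 : v.1 = ∑ p ∈ z.support, z p • (U p p0).1 := by
        change Z.subtype (∑ p ∈ z.support, z p • U p p0) = _
        rw [map_sum]
        exact Finset.sum_congr rfl fun p _ => map_zsmul Z.subtype _ _
      rw [h6, map_sum]
      refine Finset.sum_eq_zero fun p _ => ?_
      rw [map_zsmul, hβ p p0, smul_zero]
    rw [hPe u v h1.symm, h5]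
  choose R hR using fun l : Fin n => hsurj (Pi.single l 1)
  let RM : Matrix (Fin b) (Fin n) (RR G) := Matrix.of fun j l => R l j
  have hDR : ∀ v, D1 *ᵥ (RM *ᵥ v) = v := by
    intro v
    have h1 : D1 * RM = 1 := by
      ext1 i l
      have h2 := congrFun (hR l) i
      change ∑ j, D1 i j * R l j = (1 : Matrix (Fin n) (Fin n) (RR G)) i l
      change ∑ j, D1 i j * R l j = (Pi.single l 1 : Fin n → RR G) i at h2
      rw [h2, Matrix.one_apply, Pi.single_apply]
    rw [Matrix.mulVec_mulVec, h1, Matrix.one_mulVec]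
  have hx' : x' = cob (dgT w D1) (cob (dgT w RM) x') := by
    apply vv_ext
    intro k
    have h1 : (Pi.single k 1 - RM *ᵥ (D1 *ᵥ Pi.single k 1) : Fin b → RR G) ∈ Z := by
      rw [hZ, Matrix.mulVec_sub, hDR, sub_self]
    have h2 := hPZ ⟨_, h1⟩
    change PP w x' (Pi.single k 1 - RM *ᵥ (D1 *ᵥ Pi.single k 1)) = 0 at h2
    rw [map_sub, sub_eq_zero, PP_single, PP_mulVec, PP_mulVec, PP_single] at h2
    exact h2
  have h3 : inner ℝ x x = (0 : ℝ) := by
    conv_lhs => rw [← twV_twV w x]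
    change inner ℝ (twV w x') (twV w x') = 0
    conv_lhs => arg 3; rw [hx', ← twV_twV w (cob (dgT w RM) x')]
    have h4 : twV w x' = x := twV_twV w x
    rw [h4, ← adj_cob, hx1, inner_zero_left]
  exact inner_self_eq_zero.1 h3

/-- **The top degree.** -/
theorem bdry_zero {D1 : Matrix (Fin n) (Fin b) (RR G)}
    (hsurj : ∀ y, ∃ u, D1 *ᵥ u = y) {x : VV G n} (hx : ∀ y, inner ℝ (cob D1 y) x = 0) : x = 0 := by
  let w : G →* ℤˣ := 1
  have h1 : cob (dgT w D1) (twV w x) = 0 := orth_cob w hx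
  have h2 : twV w x = 0 := by
    apply vv_ext
    intro k
    obtain ⟨u, hu⟩ := hsurj (Pi.single k 1)
    rw [← PP_single w, ← hu, PP_mulVec, h1, PP_zero]
    rfl
  rw [← twV_twV w x, h2, twV_zero]

end

end Pool.Agent.Q103.SG
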