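import Pool.Agent.Q103.SG.LowDeg

/-!
# Cocycles in `ℓ²(G)` which vanish on an infinite subgroup, and boundary subgroups
-/

set_option autoImplicit false
set_option linter.unusedSectionVars false

namespace Pool.Agent.Q103.SG

open Set Filter Topology
open scoped Matrix Classical
open Pool.Agent.Helper158 Pool.Agent.Helper386.PD3

noncomputable section

variable {G : Type} [Group G] {a b n : ℕ}

/-- the restriction of a function on `G` to the coset `Q x` -/
def resQ (Q : Subgroup G) (x : G) (f : L2 G) : L2 Q :=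
  ⟨fun q => f ((q : G) * x), by
    have h1 := (lp.memℓp f).summable (by norm_num)
    refine memℓp_gen ?_
    exact h1.comp_injective (i := fun q : Q => (q : G) * x)
      fun s t hst => Subtype.ext (mul_right_cancel hst)⟩

theorem resQ_apply (Q : Subgroup G) (x : G) (f : L2 G) (q : Q) : resQ Q x f q = f ((q : G) * x) := rfl

theorem resQ_add (Q : Subgroup G) (x : G) (f f' : L2 G) :
    resQ Q x (f + f') = resQ Q x f + resQ Q x f' := by
  ext q
  rfl

theorem resQ_lam (Q : Subgroup G) (x : G) (f : L2 G) (q : Q) :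
    resQ Q x (lam2 (q : G) f) = lam2 q (resQ Q x f) := by
  ext k
  change f ((q : G)⁻¹ * ((k : G) * x)) = f (((q⁻¹ * k : Q) : G) * x)
  rw [← mul_assoc]
  rfl

theorem resQ_ext (Q : Subgroup G) {f : L2 G} (h : ∀ x, resQ Q x f = 0) : f = 0 := by
  ext k
  have h1 := congrArg (fun f' : L2 Q => f' 1) (h k)
  change f (((1 : Q) : G) * k) = 0 at h1
  rwa [OneMemClass.coe_one, one_mul] at h1

/-- A cocycle `G → ℓ²(G)` which vanishes on a subgroup `S` vanishes on every f.g. subgroup `Q` with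
zero reduced first cohomology and infinite `S ⊓ Q`. -/
theorem coc_zero_sub {Q : Subgroup G} (hA : Approx Q) (hfg : Q.FG) (S : Subgroup G)
    (hS : Infinite (S ⊓ Q : Subgroup G)) (c : G → L2 G)
    (hc : ∀ g h, c (g * h) = c g + lam2 g (c h)) (hcS : ∀ s ∈ S, c s = 0) {g : G} (hg : g ∈ Q) :
    c g = 0 := by
  refine resQ_ext Q fun x => ?_
  have hfg' : Group.FG Q := (Group.fg_iff_subgroup_fg Q).2 hfg
  have hS' : Infinite (S.subgroupOf Q) := by
    refine Infinite.of_injective (fun s : (S ⊓ Q : Subgroup G) =>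
      (⟨⟨s.1, s.2.2⟩, Subgroup.mem_subgroupOf.2 s.2.1⟩ : S.subgroupOf Q)) ?_
    intro s t hst
    have h1 := congrArg (fun z : S.subgroupOf Q => (z.1 : G)) hst
    exact Subtype.ext h1
  exact coc_zero hA hfg' (S.subgroupOf Q) hS' (fun q => resQ Q x (c q)) (by
    intro q r
    change resQ Q x (c ((q : G) * (r : G))) = resQ Q x (c q) + lam2 q (resQ Q x (c r))
    rw [hc, resQ_add, resQ_lam]) (by
    intro s hs
    change resQ Q x (c (s : G)) = 0
    rw [hcS _ (Subgroup.mem_subgroupOf.1 hs)]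
    ext k
    rfl) ⟨g, hg⟩

theorem coc_one {c : G → L2 G} (hc : ∀ g h, c (g * h) = c g + lam2 g (c h)) : c 1 = 0 := by
  have h1 := hc 1 1
  rw [mul_one] at h1
  have h2 : lam2 (1 : G) (c 1) = c 1 := by
    ext k
    change c 1 (1⁻¹ * k) = c 1 k
    rw [inv_one, one_mul]
  rw [h2] at h1
  exact left_eq_add.1 h1

/-- the subgroup of the zeros of a cocycle -/
def vanS (c : G → L2 G) (hc : ∀ g h, c (g * h) = c g + lam2 g (c h)) : Subgroup G where
  carrier := {g | c g = 0}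
  mul_mem' {g h} hg hh := by
    change c (g * h) = 0
    rw [hc, (hg : c g = 0), (hh : c h = 0), map_zero, add_zero]
  one_mem' := coc_one hc
  inv_mem' {g} hg := by
    change c g⁻¹ = 0
    have h1 := hc g⁻¹ g
    rw [inv_mul_cancel, coc_one hc, (hg : c g = 0), map_zero, add_zero] at h1
    exact h1.symm

theorem mem_vanS {c : G → L2 G} {hc : ∀ g h, c (g * h) = c g + lam2 g (c h)} {g : G} :
    g ∈ vanS c hc ↔ c g = 0 := Iff.rfl

theorem van_conj {c : G → L2 G} (hc : ∀ g h, c (g * h) = c g + lam2 g (c h)) (H : Subgroup G)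
    (hH : ∀ h ∈ H, c h = 0) (g : G) (S : Subgroup G) (hS : Infinite S) (hSH : S ≤ H)
    (hSg : ∀ s ∈ S, g⁻¹ * s * g ∈ H) : c g = 0 := by
  refine sub_inv_zero hS fun s hs => ?_
  have h1 := hc s g
  rw [hH s (hSH hs), zero_add] at h1
  have h2 := hc g (g⁻¹ * s * g)
  rw [hH _ (hSg s hs), map_zero, add_zero] at h2
  have h3 : g * (g⁻¹ * s * g) = s * g := by group
  rw [h3] at h2
  rw [← h1, h2]

/-- the cocycle of a boundary component -/
theorem pair_zero_of [Infinite G] {B : Type} [MulAction G B]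
    (hB : ∀ p : B, Infinite (MulAction.stabilizer G p)) (p₀ : B)
    (hp : ∀ c : G → L2 G, (∀ g h, c (g * h) = c g + lam2 g (c h)) →
      (∀ s ∈ MulAction.stabilizer G p₀, c s = 0) → ∀ g, c g = 0) (β : B → B → L2 G)
    (h1 : ∀ p q r, β p r = β p q + β q r) (h2 : ∀ (g : G) p q, β (g • p) (g • q) = lam2 g (β p q))
    (p q : B) : β p q = 0 := by
  have h0 : ∀ p, β p p = 0 := by
    intro p
    have := h1 p p p
    exact left_eq_add.1 this
  have hc : ∀ g : G, β (g • p₀) p₀ = 0 := by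
    refine hp (fun g => β (g • p₀) p₀) ?_ ?_
    · intro g h
      change β ((g * h) • p₀) p₀ = β (g • p₀) p₀ + lam2 g (β (h • p₀) p₀)
      rw [h1 _ (g • p₀) _, mul_smul, h2, add_comm]
    · intro s hs
      change β (s • p₀) p₀ = 0
      rw [MulAction.mem_stabilizer_iff.1 hs, h0]
  have hq : ∀ q, β q p₀ = 0 := by
    intro q
    refine sub_inv_zero (hB q) fun s hs => ?_
    rw [← h2, MulAction.mem_stabilizer_iff.1 hs, h1 q p₀ (s • p₀)]
    have h3 := h1 (s • p₀) p₀ (s • p₀)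
    rw [h0, hc, zero_add] at h3
    rw [← h3, add_zero]
  have h3 := h1 p₀ q p₀
  rw [h0, hq, add_zero] at h3
  rw [h1 p p₀ q, hq, ← h3, add_zero]

variable (w : G →* ℤˣ)

/-- **The degree `n - 1`.** -/
theorem bdry_one_of {B : Type} [Nonempty B] [MulAction G B]
    (hβ : ∀ β : B → B → L2 G, (∀ p q r, β p r = β p q + β q r) →
      (∀ (g : G) p q, β (g • p) (g • q) = lam2 g (β p q)) → ∀ p q, β p q = 0)
    {D0 : Matrix (Fin b) (Fin a) (RR G)} {D1 : Matrix (Fin n) (Fin b) (RR G)}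
    (hsurj : ∀ y, ∃ u, D1 *ᵥ u = y) (Z : AddSubgroup (Fin b → RR G))
    (hZ : ∀ u, u ∈ Z ↔ D1 *ᵥ u = 0) (θ : Z →+ (B →₀ ℤ))
    (hker : ∀ u : Z, θ u = 0 → ∃ t, D0 *ᵥ t = u.1)
    (hran : ∀ z : B →₀ ℤ, (∃ u, θ u = z) ↔ z.sum (fun _ k => k) = 0)
    (hequi : ∀ (g : G) (u u' : Z), (∀ j, u'.1 j = u.1 j * gof g) →
      θ u' = ((w g : ℤˣ) : ℤ) • Finsupp.mapDomain (fun p => g⁻¹ • p) (θ u))
    {x : VV G b} (hx1 : cob D1 x = 0) (hx0 : ∀ y, inner ℝ (cob D0 y) x = 0) : x = 0 := by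
  let x' := twV w x
  have hy : cob (dgT w D0) x' = 0 := orth_cob w hx0
  have hsum : ∀ p q : B, (Finsupp.single p (1 : ℤ) - Finsupp.single q 1).sum (fun _ k => k) = 0 := by
    intro p q
    rw [Finsupp.sum_sub_index (fun _ _ _ => rfl), Finsupp.sum_single_index rfl,
      Finsupp.sum_single_index rfl, sub_self]
  choose U hU using fun p q : B => (hran (Finsupp.single p (1 : ℤ) - Finsupp.single q 1)).2 (hsum p q)
  have hP0 : ∀ u : Z, θ u = 0 → PP w x' u.1 = 0 := by
    intro u hu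
    obtain ⟨t, ht⟩ := hker u hu
    rw [← ht, PP_mulVec, hy, PP_zero]
  have hPe : ∀ u u' : Z, θ u = θ u' → PP w x' u.1 = PP w x' u'.1 := by
    intro u u' h
    have h1 := hP0 (u - u') (by rw [map_sub, h, sub_self])
    have h2 : (u - u' : Z).1 = u.1 - u'.1 := rfl
    rw [h2, map_sub, sub_eq_zero] at h1
    exact h1
  have hβ' := hβ (fun p q => PP w x' (U p q).1) (by
    intro p q r
    have h1 : θ (U p r) = θ (U p q + U q r) := by
      rw [map_add, hU, hU, hU]
      abel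
    change PP w x' (U p r).1 = PP w x' (U p q).1 + PP w x' (U q r).1
    rw [hPe _ _ h1, ← map_add]
    rfl) (by
    intro g p q
    let v : Fin b → RR G := fun j => (U p q).1 j * gof g⁻¹
    have hv : v ∈ Z := by
      rw [hZ]
      funext i
      change ∑ j, D1 i j * ((U p q).1 j * gof g⁻¹) = 0
      have h1 : ∑ j, D1 i j * (U p q).1 j = 0 := congrFun ((hZ _).1 (U p q).2) i
      have h2 : ∑ j, D1 i j * ((U p q).1 j * gof g⁻¹) = (∑ j, D1 i j * (U p q).1 j) * gof g⁻¹ := by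
        rw [Finset.sum_mul]
        exact Finset.sum_congr rfl fun j _ => (mul_assoc _ _ _).symm
      rw [h2, h1, zero_mul]
    have h1 := hequi g⁻¹ (U p q) ⟨v, hv⟩ (fun j => rfl)
    have h2 : Finsupp.mapDomain (fun p : B => (g⁻¹)⁻¹ • p) (θ (U p q)) = θ (U (g • p) (g • q)) := by
      rw [hU, hU, sub_eq_add_neg, Finsupp.mapDomain_add, ← Finsupp.single_neg,
        Finsupp.mapDomain_single, Finsupp.mapDomain_single, inv_inv, Finsupp.single_neg,
        ← sub_eq_add_neg]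
    rw [h2] at h1
    have h3 : θ (U (g • p) (g • q)) = θ (((w g⁻¹ : ℤˣ) : ℤ) • ⟨v, hv⟩) := by
      rw [map_zsmul, h1, smul_smul, w_sq, one_smul]
    have h4 : PP w x' (((w g⁻¹ : ℤˣ) : ℤ) • (⟨v, hv⟩ : Z)).1 =
        ((w g⁻¹ : ℤˣ) : ℤ) • PP w x' v := by
      rw [← map_zsmul]
      rfl
    change PP w x' (U (g • p) (g • q)).1 = lam2 g (PP w x' (U p q).1)
    rw [hPe _ _ h3, h4]
    change ((w g⁻¹ : ℤˣ) : ℤ) • PP w x' (fun j => (U p q).1 j * gof g⁻¹) = _
    rw [PP_right, smul_smul, w_sq, one_smul, inv_inv])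
  have hPZ : ∀ u : Z, PP w x' u.1 = 0 := by
    intro u
    obtain ⟨p0⟩ := ‹Nonempty B›
    let z := θ u
    have hz : z.sum (fun _ k => k) = 0 := (hran z).1 ⟨u, rfl⟩
    let v : Z := ∑ p ∈ z.support, z p • U p p0
    have h1 : θ v = z := by
      change θ (∑ p ∈ z.support, z p • U p p0) = z
      rw [map_sum]
      have h2 : ∀ p ∈ z.support, θ (z p • U p p0) =
          Finsupp.single p (z p) - z p • Finsupp.single p0 1 := by
        intro p _
        rw [map_zsmul, hU, smul_sub]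
        congr 1
        rw [Finsupp.smul_single, smul_eq_mul, mul_one]
      rw [Finset.sum_congr rfl h2, Finset.sum_sub_distrib, ← Finset.sum_smul]
      have h3 : ∑ p ∈ z.support, z p = 0 := hz
      have h4 : ∑ p ∈ z.support, Finsupp.single p (z p) = z := Finsupp.sum_single z
      rw [h3, h4, zero_smul, sub_zero]
    have h5 : PP w x' v.1 = 0 := by
      have h6 : v.1 = ∑ p ∈ z.support, z p • (U p p0).1 := by
        change Z.subtype (∑ p ∈ z.support, z p • U p p0) = _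
        rw [map_sum]
        exact Finset.sum_congr rfl fun p _ => map_zsmul Z.subtype _ _
      rw [h6, map_sum]
      refine Finset.sum_eq_zero fun p _ => ?_
      rw [map_zsmul, hβ' p p0, smul_zero]
    rw [hPe u v h1.symm, h5]
  choose R hR using fun l : Fin n => hsurj (Pi.single l 1)
  let RM : Matrix (Fin b) (Fin n) (RR G) := Matrix.of fun j l => R l j
  have hDR : ∀ v, D1 *ᵥ (RM *ᵥ v) = v := by
    intro v
    have h1 : D1 * RM = 1 := by
      ext1 i l
      have h2 := congrFun (hR l) i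
      change ∑ j, D1 i j * R l j = (1 : Matrix (Fin n) (Fin n) (RR G)) i l
      change ∑ j, D1 i j * R l j = (Pi.single l 1 : Fin n → RR G) i at h2
      rw [h2, Matrix.one_apply, Pi.single_apply]
    rw [Matrix.mulVec_mulVec, h1, Matrix.one_mulVec]
  have hx' : x' = cob (dgT w D1) (cob (dgT w RM) x') := by
    apply vv_ext
    intro k
    have h1 : (Pi.single k 1 - RM *ᵥ (D1 *ᵥ Pi.single k 1) : Fin b → RR G) ∈ Z := by
      rw [hZ, Matrix.mulVec_sub, hDR, sub_self]
    have h2 := hPZ ⟨_, h1⟩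
    change PP w x' (Pi.single k 1 - RM *ᵥ (D1 *ᵥ Pi.single k 1)) = 0 at h2
    rw [map_sub, sub_eq_zero, PP_single, PP_mulVec, PP_mulVec, PP_single] at h2
    exact h2
  have h3 : inner ℝ x x = (0 : ℝ) := by
    conv_lhs => rw [← twV_twV w x]
    change inner ℝ (twV w x') (twV w x') = 0
    conv_lhs => arg 3; rw [hx', ← twV_twV w (cob (dgT w RM) x')]
    have h4 : twV w x' = x := twV_twV w x
    rw [h4, ← adj_cob, hx1, inner_zero_left]
  exact inner_self_eq_zero.1 h3

section free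

variable {P : ℕ → Type} [∀ i, AddCommGroup (P i)]
  [∀ i, Module (MonoidAlgebra ℤ G) (P i)] {d : ∀ i, P (i + 1) →ₗ[MonoidAlgebra ℤ G] P i}
  {ε : P 0 →+ ℤ}

theorem vanish_zero [Infinite G] (hR : Reso P d ε)
    [∀ i, Module.Finite (MonoidAlgebra ℤ G) (P i)]
    [∀ i, Module.Projective (MonoidAlgebra ℤ G) (P i)] :
    ∀ φ : P 0 →+ L2 G, EqV φ → (∀ x, φ (d 0 x) = 0) → φ = 0 := by
  obtain ⟨n0, h0⟩ := exists_retract (G := G) (P 0)
  obtain ⟨n1, h1⟩ := exists_retract (G := G) (P 1)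
  obtain ⟨n2, h2⟩ := exists_retract (G := G) (P 2)
  obtain ⟨n, hn0, hn1, hn2⟩ : ∃ n, n0 ≤ n ∧ n1 ≤ n ∧ n2 ≤ n :=
    ⟨n0 + n1 + n2, by omega, by omega, by omega⟩
  obtain ⟨a0, b0, hab0'⟩ := h0 n hn0
  obtain ⟨a1, b1, hab1'⟩ := h1 n hn1
  obtain ⟨a2, b2, hab2'⟩ := h2 n hn2
  have hab0 : ∀ x, b0 (a0 x) = x := fun x => LinearMap.congr_fun hab0' x
  have hab1 : ∀ x, b1 (a1 x) = x := fun x => LinearMap.congr_fun hab1' x
  have hab2 : ∀ x, b2 (a2 x) = x := fun x => LinearMap.congr_fun hab2' x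
  have hlow := low_of hR hab0 hab1 hab2
  intro φ hφ h0
  have e1 : LL (mat (a0 ∘ₗ b0)) (vecOf b0 φ) = vecOf b0 φ := by
    apply vv_ext
    intro i
    rw [← pr_row, mat_row, ← hφ.pr_vecOf]
    change φ (b0 (a0 (b0 (Pi.single i 1)))) = φ (b0 (Pi.single i 1))
    rw [hab0]
  have e2 : LL (mat (a0 ∘ₗ d 0 ∘ₗ b1)) (vecOf b0 φ) = 0 := by
    apply vv_ext
    intro i
    rw [← pr_row, mat_row, ← hφ.pr_vecOf]
    change φ (b0 (a0 (d 0 (b1 (Pi.single i 1))))) = 0
    rw [hab0, h0]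
  have e3 := deg_zero hlow e1 e2
  ext1 x
  rw [← hab0 x, hφ.pr_vecOf, e3, pr]
  simp

/-- free resolutions: the degree `0` -/
theorem free_zero (c : ℕ → ℕ) (D : ∀ i, Matrix (Fin (c (i + 1))) (Fin (c i)) (RR G)) [Infinite G]
    {ε : (Fin (c 0) → RR G) →+ ℤ}
    (hR : Reso (fun i => Fin (c i) → RR G) (bd c D) ε) : ∀ x ∈ Hm c D 0, x = 0 := by
  intro x hx
  have hx0 : cob (D 0) x = 0 := hx.1
  have h2 := vanish_zero hR (cochOf LinearMap.id x) (cochOf_eqV _ _) (fun v => by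
    change pr (v ᵥ* D 0) x = 0
    rw [pr_vecMulR, hx0, pr]
    simp)
  apply vv_ext
  intro k
  have hval : cochOf (LinearMap.id : (Fin (c 0) → RR G) →ₗ[RR G] _) x (Pi.single k 1) = x k :=
    pr_single k x
  rw [← hval, h2]
  rfl

end free

end

end Pool.Agent.Q103.SG
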