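import Pool.Agent.Q103.SG.Re

/-!
# Duality over the real group ring
-/

set_option autoImplicit false
set_option linter.unusedSectionVars false

namespace Pool.Agent.Q103.SG

open Set Filter Topology
open scoped Matrix Classical
open Pool.Agent.Helper158 Pool.Agent.Helper386.PD3

noncomputable section

variable {G : Type} [Group G] {a b n : ℕ}

/-- the sign as a real number -/
def sg (w : G →* ℤˣ) (g : G) : ℝ := (((w g : ℤˣ) : ℤ) : ℝ)

variable (w : G →* ℤˣ)

theorem sg_mul (g h : G) : sg w (g * h) = sg w g * sg w h := by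
  rw [sg, map_mul, Units.val_mul, Int.cast_mul]
  rfl

theorem sg_sq (g : G) : sg w g * sg w g = 1 := unit_cases _

theorem sg_inv (g : G) : sg w g⁻¹ = sg w g := by
  rw [sg, map_inv, Int.units_inv_eq_self]
  rfl

theorem sg_one : sg w 1 = 1 := by
  rw [sg, map_one]
  norm_num

/-- the twisted anti-involution, as a homomorphism to the opposite algebra -/
def drHom : RG G →ₐ[ℝ] (RG G)ᵐᵒᵖ := MonoidAlgebra.lift ℝ _ G
  { toFun := fun g => MulOpposite.op (sg w g • go g⁻¹)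
    map_one' := by
      rw [sg_one, one_smul, inv_one]
      rfl
    map_mul' := fun g h => by
      rw [← MulOpposite.op_mul, mul_inv_rev, go_mul, sg_mul]
      congr 1
      rw [smul_mul_smul_comm, mul_comm (sg w g)] }

/-- the twisted anti-involution -/
def dr (x : RG G) : RG G := (drHom w x).unop

theorem dr_of (g : G) : dr w (go g) = sg w g • go g⁻¹ := by
  rw [dr, drHom, MonoidAlgebra.lift_of]
  rfl

theorem dr_add (x y : RG G) : dr w (x + y) = dr w x + dr w y := by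
  rw [dr, map_add]
  rfl

theorem dr_smul (c : ℝ) (x : RG G) : dr w (c • x) = c • dr w x := by
  rw [dr, map_smul]
  rfl

theorem dr_zero : dr w (0 : RG G) = 0 := by
  rw [dr, map_zero]
  rfl

theorem dr_one : dr w (1 : RG G) = 1 := by
  rw [dr, map_one]
  rfl

theorem dr_mul (x y : RG G) : dr w (x * y) = dr w y * dr w x := by
  rw [dr, map_mul]
  rfl

/-- as a linear map -/
def drl : RG G →ₗ[ℝ] RG G where
  toFun := dr w
  map_add' := dr_add w
  map_smul' := dr_smul w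

theorem dr_sum {ι : Type*} (s : Finset ι) (f : ι → RG G) :
    dr w (∑ i ∈ s, f i) = ∑ i ∈ s, dr w (f i) := map_sum (drl w) f s

theorem dr_dr (x : RG G) : dr w (dr w x) = x := by
  induction x using rg_ind with
  | h1 g => rw [dr_of, dr_smul, dr_of, inv_inv, smul_smul, sg_inv, sg_sq, one_smul]
  | h2 x y hx hy => rw [dr_add, dr_add, hx, hy]
  | h3 c x hx => rw [dr_smul, dr_smul, hx]

theorem adj_lr (r : RG G) (x y : L2 G) :
    inner ℝ (lr r x) y = inner ℝ x (tw w (lr (dr w r) (tw w y))) := by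
  induction r using rg_ind with
  | h1 g =>
    rw [lr_of, inner_lam, dr_of, lr_smul, lr_of, map_smul, tw_lam, tw_tw, smul_smul]
    have h1 : sg w g * (((w g⁻¹ : ℤˣ) : ℤ) : ℝ) = 1 := by
      change sg w g * sg w g⁻¹ = 1
      rw [sg_inv, sg_sq]
    rw [h1, one_smul]
  | h2 r s hr hs => rw [lr_add, inner_add_left, hr, hs, dr_add, lr_add, map_add, inner_add_right]
  | h3 c r hr =>
    rw [lr_smul, dr_smul, lr_smul, map_smul, real_inner_smul_left, real_inner_smul_right, hr]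

/-- the anti-involution on vectors -/
def drv (u : Fin a → RG G) : Fin a → RG G := fun i => dr w (u i)

/-- the anti-involution on matrices -/
def drT (D : Matrix (Fin b) (Fin a) (RG G)) : Matrix (Fin a) (Fin b) (RG G) :=
  Matrix.of fun k j => dr w (D j k)

theorem drv_drv (u : Fin a → RG G) : drv w (drv w u) = u := funext fun _ => dr_dr w _

theorem drv_mulVec (D : Matrix (Fin b) (Fin a) (RG G)) (u : Fin a → RG G) :
    drv w (D *ᵥ u) = drv w u ᵥ* drT w D := by
  funext j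
  change dr w (∑ k, D j k * u k) = ∑ k, dr w (u k) * dr w (D j k)
  rw [dr_sum]
  exact Finset.sum_congr rfl fun k _ => dr_mul w _ _

theorem drv_add (u v : Fin a → RG G) : drv w (u + v) = drv w u + drv w v := by
  funext j
  exact dr_add w _ _

theorem drv_smul (c : ℝ) (u : Fin a → RG G) : drv w (c • u) = c • drv w u := by
  funext j
  exact dr_smul w _ _

theorem drv_zero : drv w (0 : Fin a → RG G) = 0 := funext fun _ => dr_zero w

theorem drv_single (k : Fin a) : drv w (Pi.single k 1) = Pi.single k 1 := by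
  funext j
  change dr w ((Pi.single k 1 : Fin a → RG G) j) = (Pi.single k 1 : Fin a → RG G) j
  by_cases h : j = k
  · subst h
    rw [Pi.single_eq_same, dr_one]
  · rw [Pi.single_eq_of_ne h, dr_zero]

theorem drT_mul (D : Matrix (Fin b) (Fin a) (RG G)) (C : Matrix (Fin a) (Fin n) (RG G)) :
    drT w (D * C) = drT w C * drT w D := by
  ext1 i j
  change dr w (∑ k, D j k * C k i) = ∑ k, dr w (C k i) * dr w (D j k)
  rw [dr_sum]
  exact Finset.sum_congr rfl fun k _ => dr_mul w _ _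

theorem adj_cb (D : Matrix (Fin b) (Fin a) (RG G)) (x : VV G a) (y : VV G b) :
    inner ℝ (cb D x) y = inner ℝ x (twV w (cb (drT w D) (twV w y))) := by
  rw [PiLp.inner_apply, PiLp.inner_apply]
  have h1 : ∀ i, (cb D x).ofLp i = ∑ j, lr (D i j) (x j) := cb_apply D x
  have h2 : ∀ j, (twV w (cb (drT w D) (twV w y))).ofLp j =
      ∑ i, tw w (lr (dr w (D i j)) (tw w (y i))) := by
    intro j
    have h3 : (twV w (cb (drT w D) (twV w y))).ofLp j =
        tw w (cb (drT w D) (twV w y) j) := rfl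
    rw [h3, cb_apply, qr, map_sum]
    rfl
  simp only [h1, h2]
  have h3 : ∀ i, inner ℝ (∑ j, lr (D i j) (x j)) (y i) =
      ∑ j, inner ℝ (x j) (tw w (lr (dr w (D i j)) (tw w (y i)))) := by
    intro i
    rw [sum_inner]
    exact Finset.sum_congr rfl fun j _ => adj_lr w _ _ _
  rw [Finset.sum_congr rfl fun i _ => h3 i, Finset.sum_comm]
  refine Finset.sum_congr rfl fun j _ => ?_
  rw [inner_sum]

theorem orth_cb {D : Matrix (Fin b) (Fin a) (RG G)} {x : VV G b}
    (h : ∀ y, inner ℝ (cb D y) x = 0) : cb (drT w D) (twV w x) = 0 := by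
  have h1 : ∀ y, inner ℝ y (twV w (cb (drT w D) (twV w x))) = 0 := by
    intro y
    rw [← adj_cb]
    exact h y
  have h2 := inner_self_eq_zero.1 (h1 _)
  rw [← twV_twV w (cb (drT w D) (twV w x)), h2, twV_zero]

/-- `x = 0` if the dual vector is orthogonal to the dual idempotent applied to it -/
theorem zero_of_dual {E : Matrix (Fin a) (Fin a) (RG G)} {x : VV G a} (hx : cb E x = x)
    (h : inner ℝ (cb (drT w E) (twV w x)) (twV w x) = 0) : x = 0 := by
  rw [← twV_twV w (cb (drT w E) (twV w x)), inner_twV, real_inner_comm, ← adj_cb, hx] at h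
  exact inner_self_eq_zero.1 h

/-- orthogonality to the range of the dual operator -/
theorem orth_dual {D : Matrix (Fin b) (Fin a) (RG G)} {x : VV G a} (hx : cb D x = 0) (y : VV G b) :
    inner ℝ (cb (drT w D) y) (twV w x) = 0 := by
  have h1 : cb (drT w D) y = twV w (twV w (cb (drT w D) (twV w (twV w y)))) := by
    rw [twV_twV, twV_twV]
  rw [h1, inner_twV, real_inner_comm, ← adj_cb, hx, inner_zero_left]

theorem vecMul_drT (D : Matrix (Fin b) (Fin a) (RG G)) (v : Fin a → RG G) :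
    v ᵥ* drT w D = drv w (D *ᵥ drv w v) := by
  rw [drv_mulVec, drv_drv]

/-- right multiplication by a group element -/
def rm (u : Fin a → RG G) (g : G) : Fin a → RG G := fun j => u j * go g

theorem mulVec_rm (D : Matrix (Fin b) (Fin a) (RG G)) (u : Fin a → RG G) (g : G) :
    D *ᵥ rm u g = rm (D *ᵥ u) g := by
  funext i
  change ∑ j, D i j * (u j * go g) = (∑ j, D i j * u j) * go g
  rw [Finset.sum_mul]
  exact Finset.sum_congr rfl fun j _ => (mul_assoc _ _ _).symm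

theorem drv_go_smul (g : G) (v : Fin a → RG G) : drv w (go g • v) = sg w g • rm (drv w v) g⁻¹ := by
  funext j
  change dr w (go g * v j) = sg w g • (dr w (v j) * go g⁻¹)
  rw [dr_mul, dr_of, mul_smul_comm]

theorem drv_rm (u : Fin a → RG G) (g : G) : drv w (rm u g) = sg w g • (go g⁻¹ • drv w u) := by
  funext j
  change dr w (u j * go g) = sg w g • (go g⁻¹ * dr w (u j))
  rw [dr_mul, dr_of, smul_mul_assoc]

theorem mulVec_smulR (D : Matrix (Fin b) (Fin a) (RG G)) (c : ℝ) (u : Fin a → RG G) :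
    D *ᵥ (c • u) = c • (D *ᵥ u) := Matrix.mulVec_smul _ _ _

/-! ### closed manifolds -/

section closed

variable {E1 : Matrix (Fin b) (Fin b) (RG G)}
    {D0 : Matrix (Fin b) (Fin a) (RG G)} {D1 : Matrix (Fin n) (Fin b) (RG G)}
    {E2 : Matrix (Fin n) (Fin n) (RG G)}

/-- the augmentation of the dual complex -/
def epD (E2 : Matrix (Fin n) (Fin n) (RG G)) (θ : (Fin n → RG G) →ₗ[ℝ] ℝ) :
    (Fin n → RG G) →ₗ[ℝ] ℝ where
  toFun v := θ (E2 *ᵥ drv w v)
  map_add' u v := by rw [drv_add, Matrix.mulVec_add, map_add]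
  map_smul' c v := by
    rw [drv_smul, mulVec_smulR, map_smul]
    rfl

theorem epD_apply (θ : (Fin n → RG G) →ₗ[ℝ] ℝ) (v : Fin n → RG G) :
    epD w E2 θ v = θ (E2 *ᵥ drv w v) := rfl

theorem low_dual (hE2 : E2 * E2 = E2) (hE1 : E1 * E1 = E1)
    (h21 : E2 * D1 = D1) (h11 : D1 * E1 = D1) {θ : (Fin n → RG G) →ₗ[ℝ] ℝ}
    (t1 : ∀ g u, E2 *ᵥ u = u → θ (rm u g) = sg w g * θ u)
    (t2 : ∃ u, E2 *ᵥ u = u ∧ θ u = 1)
    (t3 : ∀ u, E2 *ᵥ u = u → (θ u = 0 ↔ ∃ t, D1 *ᵥ t = u))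
    (t4 : ∀ u, E1 *ᵥ u = u → D1 *ᵥ u = 0 → ∃ t, D0 *ᵥ t = u) :
    LowR (drT w E2) (drT w E1) (drT w D1) (drT w D0) (epD w E2 θ) where
  ee0 := by rw [← drT_mul, hE2]
  ee1 := by rw [← drT_mul, hE1]
  d0e0 := by rw [← drT_mul, h21]
  e1d0 := by rw [← drT_mul, h11]
  equi g v := by
    rw [epD_apply, epD_apply, drv_go_smul, mulVec_smulR, mulVec_rm, map_smul, t1, sg_inv,
      smul_eq_mul, ← mul_assoc, sg_sq, one_mul]
    rw [Matrix.mulVec_mulVec, hE2]
  surj := by
    obtain ⟨u, hu, h1⟩ := t2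
    refine ⟨drv w u, ?_, ?_⟩
    · rw [vecMul_drT, drv_drv, hu]
    · rw [epD_apply, drv_drv, hu, h1]
  epsd v := by
    rw [epD_apply, vecMul_drT, drv_drv, Matrix.mulVec_mulVec, h21]
    refine (t3 _ ?_).2 ⟨_, rfl⟩
    rw [Matrix.mulVec_mulVec, h21]
  ex0 v hv h0 := by
    rw [vecMul_drT] at hv
    have hu : E2 *ᵥ drv w v = drv w v := by
      have := congrArg (drv w) hv
      rwa [drv_drv] at this
    rw [epD_apply, hu] at h0
    obtain ⟨t, ht⟩ := (t3 _ hu).1 h0
    refine ⟨drv w t, ?_⟩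
    rw [vecMul_drT, drv_drv, ht, drv_drv]
  ex1 v hv h0 := by
    rw [vecMul_drT] at hv h0
    have hu : E1 *ᵥ drv w v = drv w v := by
      have := congrArg (drv w) hv
      rwa [drv_drv] at this
    have h0' : D1 *ᵥ drv w v = 0 := by
      have := congrArg (drv w) h0
      rwa [drv_drv, drv_zero] at this
    obtain ⟨t, ht⟩ := t4 _ hu h0'
    refine ⟨drv w t, ?_⟩
    rw [vecMul_drT, drv_drv, ht, drv_drv]

/-- degree `n - 1` -/
theorem closed_one (hA : Approx G) {ε : (Fin n → RG G) →ₗ[ℝ] ℝ} (h10 : E1 * D0 = D0)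
    (hL : LowR (drT w E2) (drT w E1) (drT w D1) (drT w D0) ε) {x : VV G b}
    (hx : cb E1 x = x) (hx1 : cb D1 x = 0) (hx0 : ∀ y, inner ℝ (cb D0 y) x = 0) : x = 0 := by
  have h0 := orth_cb w hx0
  have h1 : cb (drT w E1) (cb (drT w E1) (twV w x)) = cb (drT w E1) (twV w x) := by
    rw [← cb_mul, hL.ee1]
  have h2 : cb (drT w D0) (cb (drT w E1) (twV w x)) = 0 := by
    rw [← cb_mul, ← drT_mul, h10, h0]
  have h3 := lowR_one hA hL h1 h2
  refine zero_of_dual w hx ?_
  rw [real_inner_comm]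
  refine orth_closure ?_ _ h3
  rintro _ ⟨y, rfl⟩
  rw [real_inner_comm]
  exact orth_dual w hx1 y

/-- degree `n` -/
theorem closed_zero [Infinite G] {ε : (Fin n → RG G) →ₗ[ℝ] ℝ}
    (hL : LowR (drT w E2) (drT w E1) (drT w D1) (drT w D0) ε) {x : VV G n}
    (hx : cb E2 x = x) (hx0 : ∀ y, inner ℝ (cb D1 y) x = 0) : x = 0 := by
  have h0 := orth_cb w hx0
  have h1 : cb (drT w E2) (cb (drT w E2) (twV w x)) = cb (drT w E2) (twV w x) := by
    rw [← cb_mul, hL.ee0]
  have h2 : cb (drT w D1) (cb (drT w E2) (twV w x)) = 0 := by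
    rw [← cb_mul, hL.d0e0, h0]
  have h3 := lowR_zero hL h1 h2
  refine zero_of_dual w hx ?_
  rw [h3, inner_zero_left]

end closed

/-! ### manifolds with boundary -/

section bdry

/-- the pairing of column vectors with a vector -/
def QQ (x : VV G a) : (Fin a → RG G) →ₗ[ℝ] L2 G where
  toFun u := qr (drv w u) x
  map_add' u v := by rw [drv_add, qr_add]
  map_smul' c v := by rw [drv_smul, qr_rsmul]; rfl

theorem QQ_apply (x : VV G a) (u : Fin a → RG G) : QQ w x u = qr (drv w u) x := rfl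

theorem QQ_mulVec (D : Matrix (Fin b) (Fin a) (RG G)) (x : VV G b) (t : Fin a → RG G) :
    QQ w x (D *ᵥ t) = QQ w (cb (drT w D) x) t := by
  rw [QQ_apply, QQ_apply, drv_mulVec, qr_vecMul]

theorem QQ_single (x : VV G a) (k : Fin a) : QQ w x (Pi.single k 1) = x k := by
  rw [QQ_apply, drv_single, qr_single]

theorem QQ_zero (u : Fin a → RG G) : QQ w (0 : VV G a) u = 0 := by
  rw [QQ_apply, qr_zero_right]

theorem QQ_right (x : VV G a) (u : Fin a → RG G) (g : G) :
    QQ w x (rm u g) = sg w g • lam2 g⁻¹ (QQ w x u) := by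
  rw [QQ_apply, drv_rm, qr_rsmul, qr_smul, lr_of]
  rfl

variable {E1 : Matrix (Fin b) (Fin b) (RG G)}
    {D0 : Matrix (Fin b) (Fin a) (RG G)} {D1 : Matrix (Fin n) (Fin b) (RG G)}
    {E2 : Matrix (Fin n) (Fin n) (RG G)}

theorem bdryR_one (hA : Approx G) (hfg : Group.FG G) {B : Type} [Nonempty B] [MulAction G B]
    (hB : ∀ p : B, Infinite (MulAction.stabilizer G p)) (hE2 : E2 * E2 = E2) (hE1 : E1 * E1 = E1)
    (h21 : E2 * D1 = D1) (h11 : D1 * E1 = D1)
    (hsurj : ∀ u, E2 *ᵥ u = u → ∃ t, D1 *ᵥ t = u)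
    (θ : (Fin b → RG G) →ₗ[ℝ] (B →₀ ℝ))
    (t1 : ∀ u, E1 *ᵥ u = u → D1 *ᵥ u = 0 → θ u = 0 → ∃ t, D0 *ᵥ t = u)
    (t2 : ∀ z : B →₀ ℝ, (∃ u, E1 *ᵥ u = u ∧ D1 *ᵥ u = 0 ∧ θ u = z) ↔ z.sum (fun _ k => k) = 0)
    (t3 : ∀ g u, E1 *ᵥ u = u → D1 *ᵥ u = 0 →
      θ (rm u g) = sg w g • Finsupp.mapDomain (fun p => g⁻¹ • p) (θ u))
    {x : VV G b} (hx : cb E1 x = x) (hx1 : cb D1 x = 0) (hx0 : ∀ y, inner ℝ (cb D0 y) x = 0) :
    x = 0 := by
  let x' := twV w x
  have hy : cb (drT w D0) x' = 0 := orth_cb w hx0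
  have hsum : ∀ p q : B, (Finsupp.single p (1 : ℝ) - Finsupp.single q 1).sum (fun _ k => k) = 0 := by
    intro p q
    rw [Finsupp.sum_sub_index (fun _ _ _ => rfl), Finsupp.sum_single_index rfl,
      Finsupp.sum_single_index rfl, sub_self]
  choose U hU1 hU2 hU using fun p q : B =>
    (t2 (Finsupp.single p (1 : ℝ) - Finsupp.single q 1)).2 (hsum p q)
  let Z : Submodule ℝ (Fin b → RG G) :=
    { carrier := {u | E1 *ᵥ u = u ∧ D1 *ᵥ u = 0}
      add_mem' := fun {u v} hu hv => ⟨by rw [Matrix.mulVec_add, hu.1, hv.1],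
        by rw [Matrix.mulVec_add, hu.2, hv.2, add_zero]⟩
      zero_mem' := ⟨Matrix.mulVec_zero _, Matrix.mulVec_zero _⟩
      smul_mem' := fun c u hu => ⟨by rw [mulVec_smulR, hu.1],
        by rw [mulVec_smulR, hu.2, smul_zero]⟩ }
  have hZ : ∀ u, u ∈ Z ↔ E1 *ᵥ u = u ∧ D1 *ᵥ u = 0 := fun u => Iff.rfl
  have hP0 : ∀ u ∈ Z, θ u = 0 → QQ w x' u = 0 := by
    intro u hu h0
    obtain ⟨t, ht⟩ := t1 u hu.1 hu.2 h0
    rw [← ht, QQ_mulVec, hy, QQ_zero]
  have hPe : ∀ u ∈ Z, ∀ u' ∈ Z, θ u = θ u' → QQ w x' u = QQ w x' u' := by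
    intro u hu u' hu' h
    have h1 := hP0 (u - u') (Z.sub_mem hu hu') (by rw [map_sub, h, sub_self])
    rw [map_sub, sub_eq_zero] at h1
    exact h1
  have hUZ : ∀ p q, U p q ∈ Z := fun p q => ⟨hU1 p q, hU2 p q⟩
  have hrm : ∀ u ∈ Z, ∀ g, rm u g ∈ Z := by
    intro u hu g
    rw [hZ, mulVec_rm, mulVec_rm, hu.1, hu.2]
    refine ⟨rfl, ?_⟩
    funext j
    exact zero_mul _
  have hβ := pair_zero hA hfg hB (fun p q => QQ w x' (U p q)) (by
    intro p q r
    have h1 : θ (U p r) = θ (U p q + U q r) := by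
      rw [map_add, hU, hU, hU]
      abel
    change QQ w x' (U p r) = QQ w x' (U p q) + QQ w x' (U q r)
    rw [hPe _ (hUZ _ _) _ (Z.add_mem (hUZ _ _) (hUZ _ _)) h1, ← map_add]) (by
    intro g p q
    have h1 := t3 g⁻¹ (U p q) (hU1 p q) (hU2 p q)
    have h2 : Finsupp.mapDomain (fun p : B => (g⁻¹)⁻¹ • p) (θ (U p q)) = θ (U (g • p) (g • q)) := by
      rw [hU, hU, sub_eq_add_neg, Finsupp.mapDomain_add, ← Finsupp.single_neg,
        Finsupp.mapDomain_single, Finsupp.mapDomain_single, inv_inv, Finsupp.single_neg,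
        ← sub_eq_add_neg]
    rw [h2] at h1
    have h3 : θ (U (g • p) (g • q)) = θ (sg w g⁻¹ • rm (U p q) g⁻¹) := by
      rw [map_smul, h1, smul_smul, sg_sq, one_smul]
    change QQ w x' (U (g • p) (g • q)) = lam2 g (QQ w x' (U p q))
    rw [hPe _ (hUZ _ _) _ (Z.smul_mem _ (hrm _ (hUZ _ _) _)) h3, map_smul, QQ_right, smul_smul,
      sg_sq, one_smul, inv_inv])
  have hPZ : ∀ u ∈ Z, QQ w x' u = 0 := by
    intro u hu
    obtain ⟨p0⟩ := ‹Nonempty B›
    let z := θ u
    have hz : z.sum (fun _ k => k) = 0 := (t2 z).1 ⟨u, hu.1, hu.2, rfl⟩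
    let v : Fin b → RG G := ∑ p ∈ z.support, z p • U p p0
    have hvZ : v ∈ Z := Z.sum_mem fun p _ => Z.smul_mem _ (hUZ p p0)
    have h1 : θ v = z := by
      change θ (∑ p ∈ z.support, z p • U p p0) = z
      rw [map_sum]
      have h2 : ∀ p ∈ z.support, θ (z p • U p p0) =
          Finsupp.single p (z p) - z p • Finsupp.single p0 1 := by
        intro p _
        rw [map_smul, hU, smul_sub]
        congr 1
        rw [Finsupp.smul_single, smul_eq_mul, mul_one]
      rw [Finset.sum_congr rfl h2, Finset.sum_sub_distrib, ← Finset.sum_smul]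
      have h3 : ∑ p ∈ z.support, z p = 0 := hz
      have h4 : ∑ p ∈ z.support, Finsupp.single p (z p) = z := Finsupp.sum_single z
      rw [h3, h4, zero_smul, sub_zero]
    have h5 : QQ w x' v = 0 := by
      change QQ w x' (∑ p ∈ z.support, z p • U p p0) = 0
      rw [map_sum]
      refine Finset.sum_eq_zero fun p _ => ?_
      have h6 : QQ w x' (U p p0) = 0 := hβ p p0
      rw [map_smul, h6, smul_zero]
    rw [hPe u hu v hvZ h1.symm, h5]
  choose R0 hR0 using fun l : Fin n => hsurj (E2 *ᵥ Pi.single l 1)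
    (by rw [Matrix.mulVec_mulVec, hE2])
  let RM : Matrix (Fin b) (Fin n) (RG G) := Matrix.of fun j l => R0 l j
  have hDR : D1 * RM = E2 := by
    ext1 i l
    have h2 := congrFun (hR0 l) i
    rw [Matrix.mulVec_single_one] at h2
    exact h2
  have hx' : cb (drT w E1) x' = cb (drT w D1) (cb (drT w RM) (cb (drT w E1) x')) := by
    apply vv_ext
    intro k
    have h1 : E1 *ᵥ Pi.single k 1 - E1 *ᵥ (RM *ᵥ (D1 *ᵥ Pi.single k 1)) ∈ Z := by
      rw [hZ]
      constructor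
      · rw [Matrix.mulVec_sub, Matrix.mulVec_mulVec, hE1, Matrix.mulVec_mulVec _ E1 E1, hE1]
      · rw [Matrix.mulVec_sub, Matrix.mulVec_mulVec, h11, Matrix.mulVec_mulVec _ D1 E1, h11,
          Matrix.mulVec_mulVec _ D1 RM, hDR, Matrix.mulVec_mulVec _ E2 D1, h21, sub_self]
    have h2 := hPZ _ h1
    rw [map_sub, sub_eq_zero, QQ_mulVec, QQ_mulVec, QQ_mulVec, QQ_mulVec, QQ_single,
      QQ_single] at h2
    exact h2
  refine zero_of_dual w hx ?_
  change inner ℝ (cb (drT w E1) x') x' = 0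
  rw [hx']
  exact orth_dual w hx1 _

theorem bdryR_zero (hE2 : E2 * E2 = E2) (hsurj : ∀ u, E2 *ᵥ u = u → ∃ t, D1 *ᵥ t = u)
    {x : VV G n} (hx : cb E2 x = x) (hx0 : ∀ y, inner ℝ (cb D1 y) x = 0) : x = 0 := by
  let w : G →* ℤˣ := 1
  have h0 := orth_cb w hx0
  have h1 : cb (drT w E2) (twV w x) = 0 := by
    apply vv_ext
    intro k
    obtain ⟨t, ht⟩ := hsurj (E2 *ᵥ Pi.single k 1) (by rw [Matrix.mulVec_mulVec, hE2])
    rw [← QQ_single w, ← QQ_mulVec, ← ht, QQ_mulVec, h0, QQ_zero]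
    rfl
  refine zero_of_dual w hx ?_
  rw [h1, inner_zero_left]

end bdry

end

end Pool.Agent.Q103.SG
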