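import Pool.Agent.Q103.SG.Chain
import Pool.Agent.Q103.SG.ReD

/-!
# The degree `n - 1` for contractible manifolds with boundary (real group ring)
-/

set_option autoImplicit false
set_option linter.unusedSectionVars false

namespace Pool.Agent.Q103.SG

open Set Filter Topology
open scoped Matrix Classical
open Pool.Agent.Helper158 Pool.Agent.Helper386.PD3

noncomputable section

variable {G : Type} [Group G] {a b n : ℕ} (w : G →* ℤˣ)

variable {E1 : Matrix (Fin b) (Fin b) (RG G)}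
    {D0 : Matrix (Fin b) (Fin a) (RG G)} {D1 : Matrix (Fin n) (Fin b) (RG G)}
    {E2 : Matrix (Fin n) (Fin n) (RG G)}

theorem bdryR_one_of {B : Type} [Nonempty B] [MulAction G B]
    (hpair : ∀ β : B → B → L2 G, (∀ p q r, β p r = β p q + β q r) →
      (∀ (g : G) p q, β (g • p) (g • q) = lam2 g (β p q)) → ∀ p q, β p q = 0) (hE2 : E2 * E2 = E2) (hE1 : E1 * E1 = E1)
    (h21 : E2 * D1 = D1) (h11 : D1 * E1 = D1)
    (hsurj : ∀ u, E2 *ᵥ u = u → ∃ t, D1 *ᵥ t = u)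
    (θ : (Fin b → RG G) →ₗ[ℝ] (B →₀ ℝ))
    (t1 : ∀ u, E1 *ᵥ u = u → D1 *ᵥ u = 0 → θ u = 0 → ∃ t, D0 *ᵥ t = u)
    (t2 : ∀ z : B →₀ ℝ, (∃ u, E1 *ᵥ u = u ∧ D1 *ᵥ u = 0 ∧ θ u = z) ↔ z.sum (fun _ k => k) = 0)
    (t3 : ∀ g u, E1 *ᵥ u = u → D1 *ᵥ u = 0 →
      θ (rm u g) = sg w g • Finsupp.mapDomain (fun p => g⁻¹ • p) (θ u))
    {x : VV G b} (hx : cb E1 x = x) (hx1 : cb D1 x = 0) (hx0 : ∀ y, inner ℝ (cb D0 y) x = 0) :
    x = 0 := by
  let x' := twV w x
  have hy : cb (drT w D0) x' = 0 := orth_cb w hx0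
  have hsum : ∀ p q : B, (Finsupp.single p (1 : ℝ) - Finsupp.single q 1).sum (fun _ k => k) = 0 := by
    intro p q
    rw [Finsupp.sum_sub_index (fun _ _ _ => rfl), Finsupp.sum_single_index rfl,
      Finsupp.sum_single_index rfl, sub_self]
  choose U hU1 hU2 hU using fun p q : B =>
    (t2 (Finsupp.single p (1 : ℝ) - Finsupp.single q 1)).2 (hsum p q)
  let Z : Submodule ℝ (Fin b → RG G) :=
    { carrier := {u | E1 *ᵥ u = u ∧ D1 *ᵥ u = 0}
      add_mem' := fun {u v} hu hv => ⟨by rw [Matrix.mulVec_add, hu.1, hv.1],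
        by rw [Matrix.mulVec_add, hu.2, hv.2, add_zero]⟩
      zero_mem' := ⟨Matrix.mulVec_zero _, Matrix.mulVec_zero _⟩
      smul_mem' := fun c u hu => ⟨by rw [mulVec_smulR, hu.1],
        by rw [mulVec_smulR, hu.2, smul_zero]⟩ }
  have hZ : ∀ u, u ∈ Z ↔ E1 *ᵥ u = u ∧ D1 *ᵥ u = 0 := fun u => Iff.rfl
  have hP0 : ∀ u ∈ Z, θ u = 0 → QQ w x' u = 0 := by
    intro u hu h0
    obtain ⟨t, ht⟩ := t1 u hu.1 hu.2 h0
    rw [← ht, QQ_mulVec, hy, QQ_zero]
  have hPe : ∀ u ∈ Z, ∀ u' ∈ Z, θ u = θ u' → QQ w x' u = QQ w x' u' := by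
    intro u hu u' hu' h
    have h1 := hP0 (u - u') (Z.sub_mem hu hu') (by rw [map_sub, h, sub_self])
    rw [map_sub, sub_eq_zero] at h1
    exact h1
  have hUZ : ∀ p q, U p q ∈ Z := fun p q => ⟨hU1 p q, hU2 p q⟩
  have hrm : ∀ u ∈ Z, ∀ g, rm u g ∈ Z := by
    intro u hu g
    rw [hZ, mulVec_rm, mulVec_rm, hu.1, hu.2]
    refine ⟨rfl, ?_⟩
    funext j
    exact zero_mul _
  have hβ := hpair (fun p q => QQ w x' (U p q)) (by
    intro p q r
    have h1 : θ (U p r) = θ (U p q + U q r) := by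
      rw [map_add, hU, hU, hU]
      abel
    change QQ w x' (U p r) = QQ w x' (U p q) + QQ w x' (U q r)
    rw [hPe _ (hUZ _ _) _ (Z.add_mem (hUZ _ _) (hUZ _ _)) h1, ← map_add]) (by
    intro g p q
    have h1 := t3 g⁻¹ (U p q) (hU1 p q) (hU2 p q)
    have h2 : Finsupp.mapDomain (fun p : B => (g⁻¹)⁻¹ • p) (θ (U p q)) = θ (U (g • p) (g • q)) := by
      rw [hU, hU, sub_eq_add_neg, Finsupp.mapDomain_add, ← Finsupp.single_neg,
        Finsupp.mapDomain_single, Finsupp.mapDomain_single, inv_inv, Finsupp.single_neg,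
        ← sub_eq_add_neg]
    rw [h2] at h1
    have h3 : θ (U (g • p) (g • q)) = θ (sg w g⁻¹ • rm (U p q) g⁻¹) := by
      rw [map_smul, h1, smul_smul, sg_sq, one_smul]
    change QQ w x' (U (g • p) (g • q)) = lam2 g (QQ w x' (U p q))
    rw [hPe _ (hUZ _ _) _ (Z.smul_mem _ (hrm _ (hUZ _ _) _)) h3, map_smul, QQ_right, smul_smul,
      sg_sq, one_smul, inv_inv])
  have hPZ : ∀ u ∈ Z, QQ w x' u = 0 := by
    intro u hu
    obtain ⟨p0⟩ := ‹Nonempty B›
    let z := θ u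
    have hz : z.sum (fun _ k => k) = 0 := (t2 z).1 ⟨u, hu.1, hu.2, rfl⟩
    let v : Fin b → RG G := ∑ p ∈ z.support, z p • U p p0
    have hvZ : v ∈ Z := Z.sum_mem fun p _ => Z.smul_mem _ (hUZ p p0)
    have h1 : θ v = z := by
      change θ (∑ p ∈ z.support, z p • U p p0) = z
      rw [map_sum]
      have h2 : ∀ p ∈ z.support, θ (z p • U p p0) =
          Finsupp.single p (z p) - z p • Finsupp.single p0 1 := by
        intro p _
        rw [map_smul, hU, smul_sub]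
        congr 1
        rw [Finsupp.smul_single, smul_eq_mul, mul_one]
      rw [Finset.sum_congr rfl h2, Finset.sum_sub_distrib, ← Finset.sum_smul]
      have h3 : ∑ p ∈ z.support, z p = 0 := hz
      have h4 : ∑ p ∈ z.support, Finsupp.single p (z p) = z := Finsupp.sum_single z
      rw [h3, h4, zero_smul, sub_zero]
    have h5 : QQ w x' v = 0 := by
      change QQ w x' (∑ p ∈ z.support, z p • U p p0) = 0
      rw [map_sum]
      refine Finset.sum_eq_zero fun p _ => ?_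
      have h6 : QQ w x' (U p p0) = 0 := hβ p p0
      rw [map_smul, h6, smul_zero]
    rw [hPe u hu v hvZ h1.symm, h5]
  choose R0 hR0 using fun l : Fin n => hsurj (E2 *ᵥ Pi.single l 1)
    (by rw [Matrix.mulVec_mulVec, hE2])
  let RM : Matrix (Fin b) (Fin n) (RG G) := Matrix.of fun j l => R0 l j
  have hDR : D1 * RM = E2 := by
    ext1 i l
    have h2 := congrFun (hR0 l) i
    rw [Matrix.mulVec_single_one] at h2
    exact h2
  have hx' : cb (drT w E1) x' = cb (drT w D1) (cb (drT w RM) (cb (drT w E1) x')) := by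
    apply vv_ext
    intro k
    have h1 : E1 *ᵥ Pi.single k 1 - E1 *ᵥ (RM *ᵥ (D1 *ᵥ Pi.single k 1)) ∈ Z := by
      rw [hZ]
      constructor
      · rw [Matrix.mulVec_sub, Matrix.mulVec_mulVec, hE1, Matrix.mulVec_mulVec _ E1 E1, hE1]
      · rw [Matrix.mulVec_sub, Matrix.mulVec_mulVec, h11, Matrix.mulVec_mulVec _ D1 E1, h11,
          Matrix.mulVec_mulVec _ D1 RM, hDR, Matrix.mulVec_mulVec _ E2 D1, h21, sub_self]
    have h2 := hPZ _ h1
    rw [map_sub, sub_eq_zero, QQ_mulVec, QQ_mulVec, QQ_mulVec, QQ_mulVec, QQ_single,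
      QQ_single] at h2
    exact h2
  refine zero_of_dual w hx ?_
  change inner ℝ (cb (drT w E1) x') x' = 0
  rw [hx']
  exact orth_dual w hx1 _

end

end Pool.Agent.Q103.SG
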