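import Pool.Agent.Helper386.PD3.Ana2

/-!
# One-cocycles with values in `ℓ²(G)` and harmonic functions of finite energy
-/

set_option autoImplicit false

open Set Filter Topology
open Pool.Agent.Helper386.PD3

namespace Pool.Agent.Q103.SG

noncomputable section

/-- every harmonic function of finite energy on a Cayley graph of `G` is constant -/
def NoHarm (G : Type) [Group G] : Prop :=
  ∀ S : Finset G, (∀ s ∈ S, s⁻¹ ∈ S) → Subgroup.closure (S : Set G) = ⊤ →
    ∀ f : G → ℝ, (∀ g, ∑ s ∈ S, (f (g * s) - f g) = 0) →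
      Summable (fun g => ∑ s ∈ S, (f (g * s) - f g) ^ 2) → ∀ g h, f g = f h

theorem decomp {E : Type*} [NormedAddCommGroup E] [InnerProductSpace ℝ E] [CompleteSpace E]
    (K : Submodule ℝ E) (x : E) :
    ∃ m z, m ∈ closure (K : Set E) ∧ (∀ k ∈ K, inner ℝ k z = 0) ∧ x = m + z := by
  have : CompleteSpace K.topologicalClosure := K.isClosed_topologicalClosure.completeSpace_coe
  obtain ⟨m, hm, z, hz, h⟩ := K.topologicalClosure.exists_add_mem_mem_orthogonal x
  refine ⟨m, z, ?_, fun k hk => ?_, h⟩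
  · rw [← Submodule.topologicalClosure_coe]
    exact hm
  · exact (Submodule.mem_orthogonal _ _).1 hz k (K.le_topologicalClosure hk)

variable {G : Type} [Group G] {n : ℕ}

/-- the coboundary of a vector in `ℓ²(G)`, on the elements `h i` -/
def gr (h : Fin n → G) : L2 G →L[ℝ] VV G n :=
  ∑ i, (inj i) ∘L (lam2 (h i) - ContinuousLinearMap.id ℝ _)

theorem gr_apply (h : Fin n → G) (u : L2 G) (i : Fin n) : gr h u i = lam2 (h i) u - u := by
  have h1 : gr h u = ∑ j, inj j ((WithLp.toLp 2 (fun j => lam2 (h j) u - u) : VV G n) j) := by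
    rw [gr, sum_apply]
    rfl
  rw [h1, sum_inj]

omit [Group G] in
theorem summable_sq (x : L2 G) : Summable fun k => x k ^ 2 := by
  have h := lp.summable_inner (𝕜 := ℝ) x x
  refine h.congr fun k => ?_
  rw [real_inner_self_eq_norm_sq, Real.norm_eq_abs, sq_abs]

theorem lam2_dl (g k : G) : lam2 g (dl k) = dl (g * k) := by
  ext x
  rw [lam2_apply, dl_apply, dl_apply]
  by_cases h : x = g * k
  · simp [h]
  · have : ¬ (g⁻¹ * x = k) := by
      intro h'
      exact h (inv_mul_eq_iff_eq_mul.1 h')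
    simp [h, this]

theorem fun_of_closure (h : Fin n → G) (hgen : Subgroup.closure (Set.range h) = ⊤)
    {z : VV G n} (hz : z ∈ closure (Set.range (gr h))) :
    ∃ H : G → ℝ, ∀ i k, z i k = H (k⁻¹ * h i) - H k⁻¹ := by
  obtain ⟨x, hx, hlim⟩ := mem_closure_iff_seq_limit.1 hz
  choose u hu using hx
  have hev : ∀ i k, Tendsto (fun j => (gr h (u j)) i k) atTop (𝓝 (z i k)) := by
    intro i k
    have h1 := ((evV i k).continuous.tendsto z).comp hlim
    refine h1.congr fun j => ?_
    rw [Function.comp_apply, ← hu j]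
    rfl
  let W : ℕ → G → ℝ := fun j g => u j g⁻¹ - u j 1
  have hW : ∀ j g i, W j (g * h i) = (gr h (u j)) i g⁻¹ + W j g := by
    intro j g i
    have h1 : (gr h (u j)) i g⁻¹ = u j ((h i)⁻¹ * g⁻¹) - u j g⁻¹ := by
      rw [gr_apply]
      rfl
    rw [h1]
    change u j (g * h i)⁻¹ - u j 1 = _ + (u j g⁻¹ - u j 1)
    rw [mul_inv_rev]
    ring
  have hlimW : ∀ g : G, ∃ l, Tendsto (fun j => W j g) atTop (𝓝 l) := by
    intro g
    have hg : g ∈ Subgroup.closure (Set.range h) := by rw [hgen]; trivial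
    induction hg using Subgroup.closure_induction_right with
    | one =>
      refine ⟨0, ?_⟩
      refine tendsto_const_nhds.congr fun j => ?_
      change 0 = u j 1⁻¹ - u j 1
      rw [inv_one, sub_self]
    | mul_right x hx y hy ih =>
      obtain ⟨i, rfl⟩ := hy
      obtain ⟨l, hl⟩ := ih
      refine ⟨z i x⁻¹ + l, ?_⟩
      exact ((hev i x⁻¹).add hl).congr fun j => (hW j x i).symm
    | mul_inv_cancel x hx y hy ih =>
      obtain ⟨i, rfl⟩ := hy
      obtain ⟨l, hl⟩ := ih
      refine ⟨l - z i (x * (h i)⁻¹)⁻¹, ?_⟩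
      refine (hl.sub (hev i (x * (h i)⁻¹)⁻¹)).congr fun j => ?_
      have h1 := hW j (x * (h i)⁻¹) i
      rw [inv_mul_cancel_right] at h1
      rw [h1, add_sub_cancel_left]
  choose H hH using hlimW
  refine ⟨H, fun i k => ?_⟩
  refine tendsto_nhds_unique (hev i k) (((hH (k⁻¹ * h i)).sub (hH k⁻¹)).congr fun j => ?_)
  rw [hW, inv_inv, add_sub_cancel_right]

/-- `ℓ²`-cocycles are limits of coboundaries, for a fixed generating set. -/
theorem coc_mem (hN : NoHarm G) (S : Finset G) (hS : ∀ s ∈ S, s⁻¹ ∈ S)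
    (hgen : Subgroup.closure (S : Set G) = ⊤) (e : Fin n ≃ S) (b : G → L2 G)
    (hb : ∀ g h, b (g * h) = b g + lam2 g (b h)) :
    (WithLp.toLp 2 (fun i => b (e i)) : VV G n) ∈ closure (Set.range (gr fun i => (e i : G))) := by
  let h : Fin n → G := fun i => e i
  have hr : Set.range h = S := by
    ext g
    constructor
    · rintro ⟨i, rfl⟩
      exact (e i).2
    · intro hg
      exact ⟨e.symm ⟨g, hg⟩, by simp [h]⟩
  have hsum : ∀ F : G → ℝ, ∑ i, F (h i) = ∑ s ∈ S, F s := by
    intro F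
    rw [← Finset.sum_coe_sort S, ← e.sum_comp]
  let K : Submodule ℝ (VV G n) := LinearMap.range (gr h : L2 G →ₗ[ℝ] VV G n)
  have hKr : (K : Set (VV G n)) = Set.range (gr h) := LinearMap.coe_range _
  obtain ⟨m, z, hm, hz, hx⟩ := decomp K (WithLp.toLp 2 (fun i => b (e i)) : VV G n)
  rw [hKr] at hm
  obtain ⟨H, hH⟩ := fun_of_closure h (by rw [hr, hgen]) hm
  let F : G → ℝ := fun g => b g 1 - H g
  have hF : ∀ i k, z i k = F (k⁻¹ * h i) - F k⁻¹ := by
    intro i k
    have h1 : b (h i) k = m i k + z i k := by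
      have := congrArg (fun v : VV G n => v i k) hx
      exact this
    have h2 : b (k⁻¹ * h i) 1 = b k⁻¹ 1 + b (h i) k := by
      rw [hb]
      change b k⁻¹ 1 + (lam2 k⁻¹ (b (h i))) 1 = _
      rw [lam2_apply, inv_inv, mul_one]
    have h3 := hH i k
    change z i k = (b (k⁻¹ * h i) 1 - H (k⁻¹ * h i)) - (b k⁻¹ 1 - H k⁻¹)
    rw [h2]
    linarith
  have horth : ∀ y : G, ∑ i, (z i (h i * y) - z i y) = 0 := by
    intro y
    have h1 := hz (gr h (dl y)) ⟨dl y, rfl⟩
    rw [PiLp.inner_apply] at h1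
    rw [← h1]
    refine Finset.sum_congr rfl fun i _ => ?_
    have h2 : (gr h (dl y)).ofLp i = dl (h i * y) - dl y := by
      have := gr_apply h (dl y) i
      rw [lam2_dl] at this
      exact this
    rw [h2, inner_sub_left, real_inner_comm, inner_dl, real_inner_comm, inner_dl]
  have hinv : ∀ Φ : G → ℝ, ∑ s ∈ S, Φ s⁻¹ = ∑ s ∈ S, Φ s := by
    intro Φ
    refine Finset.sum_nbij' (fun s => s⁻¹) (fun s => s⁻¹) hS hS (fun s _ => inv_inv s)
      (fun s _ => inv_inv s) (fun s _ => rfl)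
  have harm : ∀ g, ∑ s ∈ S, (F (g * s) - F g) = 0 := by
    intro g
    have h1 := horth g⁻¹
    have h2 : ∀ i, z i (h i * g⁻¹) - z i g⁻¹ = -(F (g * (h i)⁻¹) - F g) - (F (g * h i) - F g) := by
      intro i
      rw [hF, hF, mul_inv_rev, inv_inv, inv_mul_cancel_right]
      ring
    simp only [h2] at h1
    rw [Finset.sum_sub_distrib, Finset.sum_neg_distrib, hsum (fun s => F (g * s⁻¹) - F g),
      hsum (fun s => F (g * s) - F g), hinv (fun s => F (g * s) - F g)] at h1
    linarith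
  have hsummable : Summable fun g => ∑ s ∈ S, (F (g * s) - F g) ^ 2 := by
    have h1 : ∀ i, Summable fun g : G => (z i g⁻¹) ^ 2 := fun i =>
      (Equiv.inv G).summable_iff.2 (summable_sq (z i))
    have h2 := summable_sum (fun i (_ : i ∈ (Finset.univ : Finset (Fin n))) => h1 i)
    refine h2.congr fun g => ?_
    rw [← hsum (fun s => (F (g * s) - F g) ^ 2)]
    refine Finset.sum_congr rfl fun i _ => ?_
    rw [hF, inv_inv]
  have hconst := hN S hS hgen F harm hsummable
  have hz0 : z = 0 := by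
    apply vv_ext
    intro i
    ext k
    rw [hF, hconst (k⁻¹ * h i) k⁻¹, sub_self]
    rfl
  rw [hx, hz0, add_zero]
  exact hm

/-- **Vanishing of the reduced first cohomology**: every `ℓ²`-cocycle is a pointwise limit of
coboundaries. -/
theorem coc_approx (hN : NoHarm G) (hfg : Group.FG G) (b : G → L2 G)
    (hb : ∀ g h, b (g * h) = b g + lam2 g (b h)) (T : Finset G) (δ : ℝ) (hδ : 0 < δ) :
    ∃ u : L2 G, ∀ g ∈ T, ‖b g - (lam2 g u - u)‖ < δ := by
  classical
  obtain ⟨S₀, hS₀⟩ := hfg.out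
  let S : Finset G := (S₀ ∪ T) ∪ (S₀ ∪ T).image (fun s => s⁻¹)
  have hmem : ∀ g ∈ S₀ ∪ T, g ∈ S := fun g hg => Finset.mem_union_left _ hg
  have hS : ∀ s ∈ S, s⁻¹ ∈ S := by
    intro s hs
    rcases Finset.mem_union.1 hs with h | h
    · exact Finset.mem_union_right _ (Finset.mem_image_of_mem _ h)
    · obtain ⟨t, ht, rfl⟩ := Finset.mem_image.1 h
      rw [inv_inv]
      exact hmem t ht
  have hgen : Subgroup.closure (S : Set G) = ⊤ := by
    rw [eq_top_iff, ← hS₀]
    exact Subgroup.closure_mono fun g hg => hmem g (Finset.mem_union_left _ hg)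
  have h1 := coc_mem hN S hS hgen S.equivFin.symm b hb
  obtain ⟨_, ⟨u, rfl⟩, hu⟩ := Metric.mem_closure_iff.1 h1 δ hδ
  refine ⟨u, fun g hg => ?_⟩
  have hgS : g ∈ S := hmem g (Finset.mem_union_right _ hg)
  have h2 := PiLp.norm_apply_le ((WithLp.toLp 2 (fun i => b (S.equivFin.symm i)) : VV G S.card) -
    gr (fun i => (S.equivFin.symm i : G)) u) (S.equivFin ⟨g, hgS⟩)
  have h3 : ((WithLp.toLp 2 (fun i => b (S.equivFin.symm i)) : VV G S.card) -
    gr (fun i => (S.equivFin.symm i : G)) u).ofLp (S.equivFin ⟨g, hgS⟩) =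
      b g - (lam2 g u - u) := by
    have h4 := gr_apply (fun i => (S.equivFin.symm i : G)) u (S.equivFin ⟨g, hgS⟩)
    rw [Equiv.symm_apply_apply] at h4
    change b (S.equivFin.symm (S.equivFin ⟨g, hgS⟩)) - (gr _ u).ofLp _ = _
    rw [Equiv.symm_apply_apply]
    rw [← h4]
  rw [h3] at h2
  rw [dist_eq_norm] at hu
  exact h2.trans_lt hu

end

end Pool.Agent.Q103.SG
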