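import Pool.Agent.Q103.SG.Free

/-!
# A cocycle in `ℓ²(G)` which vanishes on an infinite subgroup is zero
if the reduced first cohomology of `G` vanishes.
-/

set_option autoImplicit false
set_option linter.unusedSectionVars false

namespace Pool.Agent.Q103.SG

open Set Filter Topology
open scoped Matrix Classical
open Pool.Agent.Helper158 Pool.Agent.Helper386.PD3

noncomputable section

variable {G : Type} [Group G] {a b n : ℕ}

theorem pr_single (i : Fin n) (x : VV G n) : pr (Pi.single i 1) x = x i := by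
  rw [pr, Finset.sum_eq_single i]
  · rw [Pi.single_eq_same, map_one]
    rfl
  · intro j _ hj
    rw [Pi.single_eq_of_ne hj, map_zero]
    rfl
  · intro h
    exact absurd (Finset.mem_univ i) h

/-- Fox derivatives -/
theorem fox (h : Fin n → G) (hgen : Subgroup.closure (Set.range h) = ⊤) (g : G) :
    ∃ v : Fin n → RR G, ∀ c : G → L2 G, (∀ g h, c (g * h) = c g + lam2 g (c h)) →
      pr v (WithLp.toLp 2 (fun i => c (h i)) : VV G n) = c g := by
  have hone : ∀ c : G → L2 G, (∀ g h, c (g * h) = c g + lam2 g (c h)) → c 1 = 0 := by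
    intro c hc
    have h1 := hc 1 1
    rw [mul_one] at h1
    have h2 : lam2 (1 : G) (c 1) = c 1 := by
      ext k
      change c 1 (1⁻¹ * k) = c 1 k
      rw [inv_one, one_mul]
    rw [h2] at h1
    exact left_eq_add.1 h1
  have hg : g ∈ Subgroup.closure (Set.range h) := by rw [hgen]; trivial
  induction hg using Subgroup.closure_induction with
  | mem x hx =>
    obtain ⟨i, rfl⟩ := hx
    exact ⟨Pi.single i 1, fun c _ => pr_single i _⟩
  | one => exact ⟨0, fun c hc => by rw [pr_zero, hone c hc]⟩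
  | mul x y _ _ hx hy =>
    obtain ⟨v, hv⟩ := hx
    obtain ⟨w, hw⟩ := hy
    refine ⟨v + gof x • w, fun c hc => ?_⟩
    rw [pr_add, pr_smul, hv c hc, hw c hc, la_of, hc]
  | inv x _ hx =>
    obtain ⟨v, hv⟩ := hx
    refine ⟨-(gof x⁻¹ • v), fun c hc => ?_⟩
    rw [pr_neg, pr_smul, hv c hc, la_of]
    have h1 := hc x⁻¹ x
    rw [inv_mul_cancel, hone c hc] at h1
    exact neg_eq_of_add_eq_zero_left h1.symm

theorem sub_inv_zero {S : Subgroup G} (hS : Infinite S) {ξ : L2 G}
    (h : ∀ g ∈ S, lam2 g ξ = ξ) : ξ = 0 := by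
  ext k
  have h1 : ∀ s : S, ξ ((s : G)⁻¹ * k) ^ 2 = ξ k ^ 2 := by
    intro s
    have := congrArg (fun f : L2 G => f k) (h s s.2)
    change ξ ((s : G)⁻¹ * k) = ξ k at this
    rw [this]
  have h2 : Summable fun s : S => ξ ((s : G)⁻¹ * k) ^ 2 := by
    refine (summable_sq ξ).comp_injective (i := fun s : S => (s : G)⁻¹ * k) ?_
    intro s t hst
    exact Subtype.ext (inv_injective (mul_right_cancel hst))
  simp only [h1] at h2
  rw [summable_const_iff] at h2
  exact pow_eq_zero_iff (two_ne_zero) |>.1 h2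

/-- closed invariant subspaces: the projection is equivariant -/
theorem equiR_prj {W : Submodule ℝ (VV G a)} (hW : ∀ k, ∀ x ∈ W, RV k x ∈ W) :
    EquiR (prj W) := by
  have hcl : ∀ k, ∀ x ∈ closure (W : Set (VV G a)), RV k x ∈ closure (W : Set (VV G a)) := by
    intro k x hx
    exact map_mem_closure (RV k).continuous hx (hW k)
  intro k x
  refine prj_eq W (hcl k _ (prj_mem W x)) fun w hw => ?_
  rw [← RV_RV_inv k w, ← map_sub, inner_RV]
  exact prj_orth W x (hcl k⁻¹ w hw)

theorem equiR_comp {S : VV G b →L[ℝ] VV G n} {T : VV G a →L[ℝ] VV G b} (hS : EquiR S)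
    (hT : EquiR T) : EquiR (S ∘L T) := fun k x => by
  change S (T (RV k x)) = RV k (S (T x))
  rw [hT, hS]

theorem equiR_sub {S T : VV G a →L[ℝ] VV G b} (hS : EquiR S) (hT : EquiR T) : EquiR (S - T) :=
  fun k x => by
    change S (RV k x) - T (RV k x) = RV k (S x - T x)
    rw [hS, hT, map_sub]

/-- **Closed invariant subspaces of the closure of the range meet the range.**  If `T` is an
equivariant operator, and `W` a closed invariant subspace of the closure of the range of `T` such
that `T x ∈ W` only for `x = 0`, then `W = 0`. -/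
theorem no_gap {T : VV G a →L[ℝ] VV G b} (hT : EquiR T) {W : Submodule ℝ (VV G b)}
    (hWc : IsClosed (W : Set (VV G b))) (hW : ∀ k, ∀ x ∈ W, RV k x ∈ W)
    (hWT : (W : Set (VV G b)) ⊆ closure (Set.range T)) (h0 : ∀ x, T x ∈ W → x = 0) :
    ∀ y ∈ W, y = 0 := by
  apply vd_faithful hW
  let R : Submodule ℝ (VV G b) := LinearMap.range (T : VV G a →ₗ[ℝ] VV G b)
  have hRr : (R : Set (VV G b)) = Set.range T := LinearMap.coe_range _
  let T' : VV G a →L[ℝ] VV G b := T - prj W ∘L T
  have hT'a : ∀ x, T' x = T x - prj W (T x) := fun x => rfl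
  have hT' : EquiR T' := equiR_sub hT (equiR_comp (equiR_prj hW) hT)
  let R' : Submodule ℝ (VV G b) := LinearMap.range (T' : VV G a →ₗ[ℝ] VV G b)
  have hWcl : closure (W : Set (VV G b)) = W := hWc.closure_eq
  have hpm : ∀ x, prj W x ∈ W := by
    intro x
    have := prj_mem W x
    rwa [hWcl] at this
  have k1 : vd (LinearMap.ker (T : VV G a →ₗ[ℝ] VV G b)) = 0 := by
    refine vd_bot fun x hx => h0 x ?_
    have : T x = 0 := hx
    rw [this]
    exact W.zero_mem
  have k2 : vd (LinearMap.ker (T' : VV G a →ₗ[ℝ] VV G b)) = 0 := by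
    refine vd_bot fun x hx => h0 x ?_
    have h1 : T' x = 0 := hx
    rw [hT'a, sub_eq_zero] at h1
    rw [h1]
    exact hpm _
  have r1 := rank_nullity hT
  have r2 := rank_nullity hT'
  rw [k1, zero_add] at r1
  rw [k2, zero_add] at r2
  -- the projections
  have hR'W : ∀ x ∈ closure (R' : Set (VV G b)), ∀ w ∈ W, inner ℝ w x = 0 := by
    intro x hx w hw
    refine orth_closure (W := (R' : Set (VV G b))) ?_ x hx
    rintro _ ⟨y, rfl⟩
    change inner ℝ w (T y - prj W (T y)) = 0
    rw [real_inner_comm]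
    exact prj_orth W _ (subset_closure hw)
  have hR'R : closure (R' : Set (VV G b)) ⊆ closure (R : Set (VV G b)) := by
    refine closure_minimal ?_ isClosed_closure
    rintro _ ⟨y, rfl⟩
    rw [← Submodule.topologicalClosure_coe]
    refine Submodule.sub_mem _ ?_ ?_
    · rw [← SetLike.mem_coe, Submodule.topologicalClosure_coe]
      exact subset_closure ⟨y, rfl⟩
    · rw [← SetLike.mem_coe, Submodule.topologicalClosure_coe, hRr]
      exact hWT (hpm _)
  have hprj : prj R = prj W + prj R' := by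
    ext1 x
    change prj R x = prj W x + prj R' x
    refine prj_eq R ?_ ?_
    · rw [← Submodule.topologicalClosure_coe]
      refine Submodule.add_mem _ ?_ ?_
      · rw [← SetLike.mem_coe, Submodule.topologicalClosure_coe, hRr]
        exact hWT (hpm _)
      · rw [← SetLike.mem_coe, Submodule.topologicalClosure_coe]
        exact hR'R (prj_mem R' x)
    · refine orth_closure fun w hw => ?_
      obtain ⟨u, rfl⟩ := hw
      have e : T u = prj W (T u) + T' u := by
        rw [hT'a]
        abel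
      change inner ℝ (x - (prj W x + prj R' x)) (T u) = 0
      rw [e, inner_add_right]
      have e1 : inner ℝ (x - (prj W x + prj R' x)) (prj W (T u)) = 0 := by
        rw [← sub_sub, inner_sub_left, prj_orth W x (prj_mem W _), zero_sub, neg_eq_zero,
          real_inner_comm]
        exact hR'W _ (prj_mem R' x) _ (hpm _)
      have e2 : inner ℝ (x - (prj W x + prj R' x)) (T' u) = 0 := by
        have e3 : inner ℝ (x - prj R' x) (T' u) = 0 :=
          prj_orth R' x (subset_closure ⟨u, rfl⟩)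
        rw [add_comm, ← sub_sub, inner_sub_left, e3, zero_sub, neg_eq_zero]
        exact hR'W _ (subset_closure ⟨u, rfl⟩) _ (hpm _)
      rw [e1, e2, add_zero]
  have e1 : vd R = vd W + vd R' := by
    rw [vd, hprj, trV_add]
    rfl
  have e2 : vd R = a := r1
  have e3 : vd R' = a := r2
  rw [e2, e3] at e1
  linarith

/-- a row as a matrix -/
def row1 (v : Fin n → RR G) : Matrix (Fin 1) (Fin n) (RR G) := Matrix.of fun _ => v

theorem cob_row1 (v : Fin n → RR G) (x : VV G n) (i : Fin 1) : cob (row1 v) x i = pr v x :=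
  cob_apply _ _ _

/-- the matrix with the rows `h i - 1` -/
def gen (h : Fin n → G) : Matrix (Fin n) (Fin 1) (RR G) := Matrix.of fun i _ => gof (h i) - 1

theorem cob_gen (h : Fin n → G) (x : VV G 1) (i : Fin n) :
    cob (gen h) x i = lam2 (h i) (x 0) - x 0 := by
  rw [cob_apply, pr, Fin.sum_univ_one]
  have h1 : gen h i 0 = gof (h i) - 1 := rfl
  have h2 : la (gof (h i) - 1 : RR G) = lam2 (h i) - 1 := by
    rw [map_sub, la_of, map_one]
  rw [h1, h2]
  exact sub_apply _ _ _

theorem cocy_cob (u : L2 G) (g k : G) :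
    lam2 (g * k) u - u = lam2 g u - u + lam2 g (lam2 k u - u) := by
  have h1 : lam2 (g * k) u = lam2 g (lam2 k u) := by
    ext x
    change u ((g * k)⁻¹ * x) = u (k⁻¹ * (g⁻¹ * x))
    rw [mul_inv_rev, mul_assoc]
  rw [h1, map_sub]
  abel

theorem cob_gen_eq (h : Fin n → G) (x : VV G 1) : cob (gen h) x =
    WithLp.toLp 2 (fun i => lam2 (h i) (x 0) - x 0) := by
  apply vv_ext
  intro i
  exact cob_gen h x i

theorem pr_cob_gen (h : Fin n → G) {v : Fin n → RR G} {g : G}
    (hv : ∀ c : G → L2 G, (∀ g h, c (g * h) = c g + lam2 g (c h)) →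
      pr v (WithLp.toLp 2 (fun i => c (h i)) : VV G n) = c g) (x : VV G 1) :
    pr v (cob (gen h) x) = lam2 g (x 0) - x 0 := by
  rw [cob_gen_eq]
  exact hv (fun k => lam2 k (x 0) - x 0) (cocy_cob (x 0))

theorem closure_range (T : VV G a →L[ℝ] VV G b) : closure (Set.range T) =
    ((LinearMap.range (T : VV G a →ₗ[ℝ] VV G b)).topologicalClosure : Set (VV G b)) := by
  rw [Submodule.topologicalClosure_coe]
  congr 1

/-- the elements of the closure of the coboundaries on which the rows `v s` vanish -/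
def Wv (h : Fin n → G) (v : G → Fin n → RR G) (S : Subgroup G) : Submodule ℝ (VV G n) where
  carrier := {y | y ∈ closure (Set.range (cob (gen h))) ∧ ∀ s ∈ S, cob (row1 (v s)) y = 0}
  add_mem' {x y} hx hy := by
    refine ⟨?_, fun s hs => by rw [map_add, hx.2 s hs, hy.2 s hs, add_zero]⟩
    have h1 := hx.1
    have h2 := hy.1
    rw [closure_range] at h1 h2 ⊢
    exact Submodule.add_mem _ h1 h2
  zero_mem' := ⟨subset_closure ⟨0, map_zero _⟩, fun s _ => map_zero _⟩
  smul_mem' r x hx := by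
    refine ⟨?_, fun s hs => by rw [map_smul, hx.2 s hs, smul_zero]⟩
    have h1 := hx.1
    rw [closure_range] at h1 ⊢
    exact Submodule.smul_mem _ _ h1

theorem mem_Wv {h : Fin n → G} {v : G → Fin n → RR G} {S : Subgroup G} {y : VV G n} :
    y ∈ Wv h v S ↔ y ∈ closure (Set.range (cob (gen h))) ∧ ∀ s ∈ S, cob (row1 (v s)) y = 0 :=
  Iff.rfl

theorem Wv_closed (h : Fin n → G) (v : G → Fin n → RR G) (S : Subgroup G) :
    IsClosed (Wv h v S : Set (VV G n)) := by
  have : (Wv h v S : Set (VV G n)) = closure (Set.range (cob (gen h))) ∩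
      ⋂ s ∈ S, {y | cob (row1 (v s)) y = 0} := by
    ext y
    rw [SetLike.mem_coe, mem_Wv, Set.mem_inter_iff, Set.mem_iInter₂]
    rfl
  rw [this]
  refine isClosed_closure.inter ?_
  refine isClosed_biInter fun s _ => ?_
  exact isClosed_eq (cob (row1 (v s))).continuous continuous_const

theorem Wv_inv (h : Fin n → G) (v : G → Fin n → RR G) (S : Subgroup G) :
    ∀ k, ∀ x ∈ Wv h v S, RV k x ∈ Wv h v S := by
  intro k x hx
  rw [mem_Wv] at hx ⊢
  refine ⟨?_, fun s hs => ?_⟩
  · refine map_mem_closure (RV k).continuous hx.1 ?_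
    rintro _ ⟨y, rfl⟩
    exact ⟨RV k y, equiR_cob (gen h) k y⟩
  · rw [equiR_cob, hx.2 s hs, map_zero]

theorem Wv_zero (h : Fin n → G) {v : G → Fin n → RR G}
    (hv : ∀ g, ∀ c : G → L2 G, (∀ g h, c (g * h) = c g + lam2 g (c h)) →
      pr (v g) (WithLp.toLp 2 (fun i => c (h i)) : VV G n) = c g) {S : Subgroup G}
    (hS : Infinite S) : ∀ y ∈ Wv h v S, y = 0 := by
  refine no_gap (equiR_cob (gen h)) (Wv_closed h v S) (Wv_inv h v S)
    (fun y hy => (mem_Wv.1 hy).1) fun x hx => ?_
  apply vv_ext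
  intro i
  rw [Subsingleton.elim i 0]
  refine sub_inv_zero hS fun s hs => ?_
  have h1 := (mem_Wv.1 hx).2 s hs
  have h2 := pr_cob_gen h (hv s) x
  rw [← cob_row1 _ _ 0, h1] at h2
  exact (sub_eq_zero.1 h2.symm)

/-- approximation in `ℓ²(G)^n` from the coordinates -/
theorem mem_closure_of {Z : Set (VV G n)} {y : VV G n}
    (h : ∀ δ : ℝ, 0 < δ → ∃ z ∈ Z, ∀ k, ‖y k - z k‖ ≤ δ) : y ∈ closure Z := by
  rw [Metric.mem_closure_iff]
  intro η hη
  let B : ℝ := ∑ k : Fin n, ‖(inj k : L2 G →L[ℝ] VV G n)‖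
  have hB : 0 ≤ B := Finset.sum_nonneg fun k _ => norm_nonneg _
  obtain ⟨z, hz, h4⟩ := h (η / (B + 1)) (by positivity)
  refine ⟨z, hz, ?_⟩
  rw [dist_eq_norm]
  calc ‖y - z‖ ≤ ∑ k : Fin n, ‖(inj k : L2 G →L[ℝ] VV G n)‖ * ‖(y - z) k‖ := norm_le_sum _
    _ ≤ ∑ k : Fin n, ‖(inj k : L2 G →L[ℝ] VV G n)‖ * (η / (B + 1)) :=
        Finset.sum_le_sum fun k _ => mul_le_mul_of_nonneg_left (h4 k) (norm_nonneg _)
    _ = B * (η / (B + 1)) := by rw [Finset.sum_mul]
    _ < η := by
        rw [← mul_div_assoc, div_lt_iff₀ (by positivity)]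
        nlinarith

/-- A cocycle which vanishes on an infinite subgroup is zero. -/
theorem coc_zero (hA : Approx G) (hfg : Group.FG G) (S : Subgroup G) (hS : Infinite S)
    (c : G → L2 G) (hc : ∀ g h, c (g * h) = c g + lam2 g (c h)) (hcS : ∀ s ∈ S, c s = 0) (g : G) :
    c g = 0 := by
  obtain ⟨F, hF⟩ := hfg.out
  let h : Fin F.card → G := fun i => F.equivFin.symm i
  have hgen : Subgroup.closure (Set.range h) = ⊤ := by
    rw [← hF]
    congr 1
    ext x
    constructor
    · rintro ⟨i, rfl⟩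
      exact (F.equivFin.symm i).2
    · intro hx
      exact ⟨F.equivFin ⟨x, hx⟩, by simp [h]⟩
  choose v hv using fox h hgen
  have hyW : (WithLp.toLp 2 (fun i => c (h i)) : VV G F.card) ∈ Wv h v S := by
    rw [mem_Wv]
    refine ⟨?_, fun s hs => ?_⟩
    · refine mem_closure_of fun δ hδ => ?_
      obtain ⟨u, hu⟩ := hA c hc F δ hδ
      refine ⟨cob (gen h) (WithLp.toLp 2 fun _ => u), ⟨_, rfl⟩, fun k => ?_⟩
      rw [cob_gen]
      exact (hu (h k) (F.equivFin.symm k).2).le
    · apply vv_ext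
      intro i
      rw [cob_row1]
      exact (hv s c hc).trans (hcS s hs)
  have hy0 := Wv_zero h hv hS _ hyW
  rw [← hv g c hc, hy0, pr]
  simp

end

end Pool.Agent.Q103.SG
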