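import Pool.Agent.Q103.SG.Dual
import Pool.Agent.Helper386.PD3.Data

/-!
# From resolutions of `PD_n`-groups to matrices

(The proofs follow `Helper386/PD3/Data.lean`, where `n = 3`.)
-/

namespace Pool.Agent.Q103.SG

set_option linter.unusedSectionVars false

open scoped Classical Matrix
open Pool.Agent.Helper158 Pool.Agent.Helper386.PD3

noncomputable section

variable {G : Type} [Group G] {n : ℕ}

variable {P : ℕ → Type} [∀ i, AddCommGroup (P i)]
  [∀ i, Module (MonoidAlgebra ℤ G) (P i)] {d : ∀ i, P (i + 1) →ₗ[MonoidAlgebra ℤ G] P i}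
  {ε : P 0 →+ ℤ}

/-- vanishing cohomology with coefficients in the group ring -/
theorem cob_of (hR : Reso P d ε) [∀ i, Module.Projective (MonoidAlgebra ℤ G) (P i)] {N : ℕ}
    (hcoh : ∀ i, i ≠ N → Subsingleton (groupCohomology (Rep.leftRegular ℤ G) i)) :
    ∀ j, j + 1 ≠ N → ∀ f : P (j + 1) →ₗ[RR G] RR G, f ∘ₗ d (j + 1) = 0 →
      ∃ g : P j →ₗ[RR G] RR G, g ∘ₗ d j = f := by
  intro j hj f hf
  obtain ⟨π, h1, h2⟩ := hR.coh (j + 1)
  have := hcoh (j + 1) hj
  exact (h2 ⟨f, hf⟩).1 (Subsingleton.elim _ _)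

theorem exists_r' (hR : Reso P d ε) (m : ℕ) (hm : ∀ i, m < i → Subsingleton (P i))
    [∀ i, Module.Finite (MonoidAlgebra ℤ G) (P i)]
    [∀ i, Module.Projective (MonoidAlgebra ℤ G) (P i)] (s : ℕ)
    (hcob : ∀ j, s ≤ j → ∀ f : P (j + 1) →ₗ[RR G] RR G, f ∘ₗ d (j + 1) = 0 →
      ∃ g : P j →ₗ[RR G] RR G, g ∘ₗ d j = f) (k : ℕ) :
    ∀ i, s ≤ i → m ≤ i + k → ∃ r : P i →ₗ[RR G] P (i + 1), ∀ x, d i (r (d i x)) = d i x := by
  induction k with
  | zero =>
    intro i _ hi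
    have := hm (i + 1) (by omega)
    exact ⟨0, fun x => by rw [Subsingleton.elim x 0]; simp⟩
  | succ k ih =>
    intro i hi hik
    obtain ⟨r, hr⟩ := ih (i + 1) (by omega) (by omega)
    obtain ⟨g, hg⟩ := cob_general (d := d) (hcob i hi) (P (i + 1))
      (LinearMap.id - d (i + 1) ∘ₗ r) (by
        refine LinearMap.ext fun x => ?_
        change d (i + 1) x - d (i + 1) (r (d (i + 1) x)) = 0
        rw [hr, sub_self])
    refine ⟨g, fun x => ?_⟩
    have h1 : g (d i x) = x - d (i + 1) (r x) := LinearMap.congr_fun hg x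
    rw [h1, map_sub, hR.dd, sub_zero]

/-- the low degree part -/
theorem low_of (hR : Reso P d ε) {a0 : P 0 →ₗ[RR G] FR G n} {b0 : FR G n →ₗ[RR G] P 0}
    {a1 : P 1 →ₗ[RR G] FR G n} {b1 : FR G n →ₗ[RR G] P 1}
    {a2 : P 2 →ₗ[RR G] FR G n} {b2 : FR G n →ₗ[RR G] P 2} (hab0 : ∀ x, b0 (a0 x) = x)
    (hab1 : ∀ x, b1 (a1 x) = x) (hab2 : ∀ x, b2 (a2 x) = x) :
    Low (mat (a0 ∘ₗ b0)) (mat (a1 ∘ₗ b1)) (mat (a2 ∘ₗ b2)) (mat (a0 ∘ₗ d 0 ∘ₗ b1))
      (mat (a1 ∘ₗ d 1 ∘ₗ b2)) := by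
  let E0 := mat (a0 ∘ₗ b0)
  let E1 := mat (a1 ∘ₗ b1)
  let E2 := mat (a2 ∘ₗ b2)
  let D0 := mat (a0 ∘ₗ d 0 ∘ₗ b1)
  let D1 := mat (a1 ∘ₗ d 1 ∘ₗ b2)
  have ee0 : E0 * E0 = E0 := by
    change mat _ * mat _ = mat _
    rw [mat_mul]
    congr 1
    refine LinearMap.ext fun x => ?_
    change a0 (b0 (a0 (b0 x))) = a0 (b0 x)
    rw [hab0]
  have ee1 : E1 * E1 = E1 := by
    change mat _ * mat _ = mat _
    rw [mat_mul]
    congr 1
    refine LinearMap.ext fun x => ?_
    change a1 (b1 (a1 (b1 x))) = a1 (b1 x)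
    rw [hab1]
  have ee2 : E2 * E2 = E2 := by
    change mat _ * mat _ = mat _
    rw [mat_mul]
    congr 1
    refine LinearMap.ext fun x => ?_
    change a2 (b2 (a2 (b2 x))) = a2 (b2 x)
    rw [hab2]
  have e1d0 : E1 * D0 = D0 := by
    change mat _ * mat _ = mat _
    rw [mat_mul]
    congr 1
    refine LinearMap.ext fun x => ?_
    change a0 (d 0 (b1 (a1 (b1 x)))) = a0 (d 0 (b1 x))
    rw [hab1]
  have d0e0 : D0 * E0 = D0 := by
    change mat _ * mat _ = mat _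
    rw [mat_mul]
    congr 1
    refine LinearMap.ext fun x => ?_
    change a0 (b0 (a0 (d 0 (b1 x)))) = a0 (d 0 (b1 x))
    rw [hab0]
  have e2d1 : E2 * D1 = D1 := by
    change mat _ * mat _ = mat _
    rw [mat_mul]
    congr 1
    refine LinearMap.ext fun x => ?_
    change a1 (d 1 (b2 (a2 (b2 x)))) = a1 (d 1 (b2 x))
    rw [hab2]
  have d1e1 : D1 * E1 = D1 := by
    change mat _ * mat _ = mat _
    rw [mat_mul]
    congr 1
    refine LinearMap.ext fun x => ?_
    change a1 (b1 (a1 (d 1 (b2 x)))) = a1 (d 1 (b2 x))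
    rw [hab1]
  have mat0 : mat (0 : FR G n →ₗ[RR G] FR G n) = 0 := rfl
  have dd : D1 * D0 = 0 := by
    change mat _ * mat _ = 0
    rw [mat_mul, ← mat0]
    congr 1
    refine LinearMap.ext fun x => ?_
    change a0 (d 0 (b1 (a1 (d 1 (b2 x))))) = 0
    rw [hab1, hR.dd, map_zero]
  have hE0 : ∀ v, v ᵥ* E0 = a0 (b0 v) := fun v => vecMul_mat _ _
  have hE1 : ∀ v, v ᵥ* E1 = a1 (b1 v) := fun v => vecMul_mat _ _
  have hD0 : ∀ v, v ᵥ* D0 = a0 (d 0 (b1 v)) := fun v => vecMul_mat _ _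
  have hD1 : ∀ v, v ᵥ* D1 = a1 (d 1 (b2 v)) := fun v => vecMul_mat _ _
  exact
    { ee0 := ee0
      ee1 := ee1
      ee2 := ee2
      e1d0 := e1d0
      d0e0 := d0e0
      e2d1 := e2d1
      d1e1 := d1e1
      dd := dd
      aug := by
        refine ⟨ε.comp b0.toAddMonoidHom, fun g v => ?_, ?_, fun v => ?_, fun u hu hε => ?_⟩
        · change ε (b0 (gof g • v)) = ε (b0 v)
          rw [map_smul]
          exact hR.equi g _
        · obtain ⟨x, hx⟩ := hR.surj 1
          refine ⟨a0 x, ?_, ?_⟩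
          · rw [hE0, hab0]
          · change ε (b0 (a0 x)) = 1
            rw [hab0, hx]
        · change ε (b0 (v ᵥ* D0)) = 0
          rw [hD0, hab0]
          exact (hR.ex0 _).2 ⟨_, rfl⟩
        · obtain ⟨y, hy⟩ := (hR.ex0 (b0 u)).1 hε
          refine ⟨a1 y, ?_⟩
          rw [hD0, hab1, hy, ← hE0, hu]
      ex1 := by
        intro v hv hv0
        rw [hD0] at hv0
        have h1 : d 0 (b1 v) = 0 := by
          have := congrArg b0 hv0
          rwa [hab0, map_zero] at this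
        obtain ⟨y, hy⟩ := (hR.ex 0 _).1 h1
        refine ⟨a2 y, ?_⟩
        rw [hD1, hab2, hy, ← hE1, hv] }

/-- the top degree part -/
theorem top_of (hR : Reso P d ε) (m : ℕ) (hm : ∀ i, m < i → Subsingleton (P i))
    [∀ i, Module.Finite (MonoidAlgebra ℤ G) (P i)]
    [∀ i, Module.Projective (MonoidAlgebra ℤ G) (P i)] (q : ℕ)
    (hcoh : ∀ i, i ≠ q + 2 → Subsingleton (groupCohomology (Rep.leftRegular ℤ G) i))
    (htop : Nonempty (groupCohomology (Rep.leftRegular ℤ G) (q + 2) ≃+ ℤ)) :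
    ∃ (w : G →* ℤˣ) (r : P (q + 2) →ₗ[RR G] P (q + 3)),
      (∀ x, d (q + 2) (r (d (q + 2) x)) = d (q + 2) x) ∧
      ∀ (n : ℕ) (a3 : P (q + 2) →ₗ[RR G] FR G n) (b3 : FR G n →ₗ[RR G] P (q + 2))
        (a2 : P (q + 1) →ₗ[RR G] FR G n) (b2 : FR G n →ₗ[RR G] P (q + 1))
        (a1 : P q →ₗ[RR G] FR G n) (b1 : FR G n →ₗ[RR G] P q),
        (∀ x, b3 (a3 x) = x) → (∀ x, b2 (a2 x) = x) → (∀ x, b1 (a1 x) = x) →
        Low (dgM w (mat (a3 ∘ₗ (LinearMap.id - d (q + 2) ∘ₗ r) ∘ₗ b3))) (dgM w (mat (a2 ∘ₗ b2)))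
          (dgM w (mat (a1 ∘ₗ b1))) (dgM w (mat (a2 ∘ₗ d (q + 1) ∘ₗ b3)))
          (dgM w (mat (a1 ∘ₗ d q ∘ₗ b2))) := by
  have hcob := cob_of hR hcoh
  obtain ⟨r, hr⟩ := exists_r' hR m hm (q + 2) (fun j hj => hcob j (by omega)) m (q + 2) le_rfl
    (by omega)
  -- the top class
  obtain ⟨π0, hπ1, hπ2⟩ := hR.coh (q + 2)
  obtain ⟨iso⟩ := htop
  let π : cocyc d (q + 2) →+ ℤ := iso.toAddMonoidHom.comp π0
  have hπs : Function.Surjective π := iso.surjective.comp hπ1
  have hπk : ∀ x : cocyc d (q + 2), π x = 0 ↔ ∃ g : P (q + 1) →ₗ[RR G] RR G, g ∘ₗ d (q + 1) = x.1 := by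
    intro x
    have h1 : π x = 0 ↔ π0 x = 0 := AddEquiv.map_eq_zero_iff iso (x := π0 x)
    rw [h1]
    exact hπ2 x
  have hcocr : ∀ (φ : cocyc d (q + 2)) (s : RR G), rmul φ.1 s ∈ cocyc d (q + 2) := by
    intro φ s
    rw [mem_cocyc]
    refine LinearMap.ext fun x => ?_
    have h1 : φ.1 (d (q + 2) x) = 0 := LinearMap.congr_fun (mem_cocyc.1 φ.2) x
    change φ.1 (d (q + 2) x) * s = 0
    rw [h1, zero_mul]
  let rc : cocyc d (q + 2) → RR G → cocyc d (q + 2) := fun φ s => ⟨rmul φ.1 s, hcocr φ s⟩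
  have hrc_add : ∀ φ ψ s, rc (φ + ψ) s = rc φ s + rc ψ s := by
    intro φ ψ s
    apply Subtype.ext
    refine LinearMap.ext fun x => ?_
    exact add_mul _ _ _
  have hrc_mul : ∀ φ s s', rc (rc φ s) s' = rc φ (s * s') := by
    intro φ s s'
    apply Subtype.ext
    refine LinearMap.ext fun x => ?_
    exact mul_assoc _ _ _
  have hrc_one : ∀ φ, rc φ 1 = φ := by
    intro φ
    apply Subtype.ext
    refine LinearMap.ext fun x => ?_
    exact mul_one _
  have hrc_zsmul : ∀ φ (k : ℤ) s, rc φ (k • s) = k • rc φ s := by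
    intro φ k s
    apply Subtype.ext
    refine LinearMap.ext fun x => ?_
    change φ.1 x * (k • s) = k • (φ.1 x * s)
    rw [mul_smul_comm]
  have hrc_zsmul' : ∀ φ (k : ℤ) s, rc (k • φ) s = k • rc φ s := by
    intro φ k s
    apply Subtype.ext
    refine LinearMap.ext fun x => ?_
    change (k • φ.1 x) * s = k • (φ.1 x * s)
    rw [smul_mul_assoc]
  have hrc_ker : ∀ φ s, π φ = 0 → π (rc φ s) = 0 := by
    intro φ s h
    obtain ⟨g, hg⟩ := (hπk φ).1 h
    refine (hπk _).2 ⟨rmul g s, ?_⟩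
    refine LinearMap.ext fun x => ?_
    have h1 : g (d (q + 1) x) = φ.1 x := LinearMap.congr_fun hg x
    change g (d (q + 1) x) * s = φ.1 x * s
    rw [h1]
  obtain ⟨φ1, hφ1⟩ := hπs 1
  have hw : ∀ φ s, π (rc φ s) = π φ * π (rc φ1 s) := by
    intro φ s
    have h1 : π (φ - π φ • φ1) = 0 := by
      rw [map_sub, map_zsmul, hφ1, smul_eq_mul, mul_one, sub_self]
    have h2 := hrc_ker _ s h1
    have h3 : rc φ s = rc (φ - π φ • φ1) s + π φ • rc φ1 s := by
      rw [← hrc_zsmul', ← hrc_add, sub_add_cancel]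
    rw [h3, map_add, h2, zero_add, map_zsmul, smul_eq_mul]
  let w0 : G →* ℤ :=
    { toFun := fun g => π (rc φ1 (gof g))
      map_one' := by rw [gof_one, hrc_one, hφ1]
      map_mul' := fun g h => by rw [gof_mul, ← hrc_mul, hw] }
  let w : G →* ℤˣ := w0.toHomUnits
  have hww : ∀ g, ((w g : ℤˣ) : ℤ) = π (rc φ1 (gof g)) := fun g => rfl
  refine ⟨w, r, hr, ?_⟩
  intro n a3 b3 a2 b2 a1 b1 hab3 hab2 hab1
  let p : P (q + 2) →ₗ[RR G] P (q + 2) := LinearMap.id - d (q + 2) ∘ₗ r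
  have hp : ∀ x, p x = x - d (q + 2) (r x) := fun x => rfl
  have hpd : ∀ x, p (d (q + 2) x) = 0 := fun x => by rw [hp, hr, sub_self]
  have hpp : ∀ x, p (p x) = p x := fun x => by
    conv_lhs => rw [hp x, map_sub, hpd, sub_zero]
  have hdp : ∀ x, d (q + 1) (p x) = d (q + 1) x := fun x => by rw [hp, map_sub, hR.dd, sub_zero]
  let E1 := mat (a1 ∘ₗ b1)
  let E2 := mat (a2 ∘ₗ b2)
  let E3 := mat (a3 ∘ₗ p ∘ₗ b3)
  let D1 := mat (a1 ∘ₗ d q ∘ₗ b2)
  let D2 := mat (a2 ∘ₗ d (q + 1) ∘ₗ b3)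
  have ee1 : E1 * E1 = E1 := by
    change mat _ * mat _ = mat _
    rw [mat_mul]
    congr 1
    refine LinearMap.ext fun x => ?_
    change a1 (b1 (a1 (b1 x))) = a1 (b1 x)
    rw [hab1]
  have ee2 : E2 * E2 = E2 := by
    change mat _ * mat _ = mat _
    rw [mat_mul]
    congr 1
    refine LinearMap.ext fun x => ?_
    change a2 (b2 (a2 (b2 x))) = a2 (b2 x)
    rw [hab2]
  have ee3 : E3 * E3 = E3 := by
    change mat _ * mat _ = mat _
    rw [mat_mul]
    congr 1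
    refine LinearMap.ext fun x => ?_
    change a3 (p (b3 (a3 (p (b3 x))))) = a3 (p (b3 x))
    rw [hab3, hpp]
  have e2d1 : E2 * D1 = D1 := by
    change mat _ * mat _ = mat _
    rw [mat_mul]
    congr 1
    refine LinearMap.ext fun x => ?_
    change a1 (d q (b2 (a2 (b2 x)))) = a1 (d q (b2 x))
    rw [hab2]
  have d1e1 : D1 * E1 = D1 := by
    change mat _ * mat _ = mat _
    rw [mat_mul]
    congr 1
    refine LinearMap.ext fun x => ?_
    change a1 (b1 (a1 (d q (b2 x)))) = a1 (d q (b2 x))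
    rw [hab1]
  have e3d2 : E3 * D2 = D2 := by
    change mat _ * mat _ = mat _
    rw [mat_mul]
    congr 1
    refine LinearMap.ext fun x => ?_
    change a2 (d (q + 1) (b3 (a3 (p (b3 x))))) = a2 (d (q + 1) (b3 x))
    rw [hab3, hdp]
  have d2e2 : D2 * E2 = D2 := by
    change mat _ * mat _ = mat _
    rw [mat_mul]
    congr 1
    refine LinearMap.ext fun x => ?_
    change a2 (b2 (a2 (d (q + 1) (b3 x)))) = a2 (d (q + 1) (b3 x))
    rw [hab2]
  have mat0 : mat (0 : FR G n →ₗ[RR G] FR G n) = 0 := rfl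
  have dd' : D2 * D1 = 0 := by
    change mat _ * mat _ = 0
    rw [mat_mul, ← mat0]
    congr 1
    refine LinearMap.ext fun x => ?_
    change a1 (d q (b2 (a2 (d (q + 1) (b3 x))))) = 0
    rw [hab2, hR.dd, map_zero]
  have hcoc : ∀ u : FR G n, fn w u ∘ₗ a3 ∘ₗ p ∈ cocyc d (q + 2) := by
    intro u
    rw [mem_cocyc]
    refine LinearMap.ext fun x => ?_
    change fn w u (a3 (p (d (q + 2) x))) = 0
    rw [hpd, map_zero, map_zero]
  let cc : FR G n → cocyc d (q + 2) := fun u => ⟨fn w u ∘ₗ a3 ∘ₗ p, hcoc u⟩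
  exact
    (show Low (dgM w E3) (dgM w E2) (dgM w E1) (dgM w D2) (dgM w D1) from
    { ee0 := by rw [← dgM_mul, ee3]
      ee1 := by rw [← dgM_mul, ee2]
      ee2 := by rw [← dgM_mul, ee1]
      e1d0 := by rw [← dgM_mul, d2e2]
      d0e0 := by rw [← dgM_mul, e3d2]
      e2d1 := by rw [← dgM_mul, d1e1]
      d1e1 := by rw [← dgM_mul, e2d1]
      dd := by rw [← dgM_mul, dd', dgM_zero]
      aug := by
        refine ⟨AddMonoidHom.mk' (fun u => π (cc u)) (fun u v => ?_), fun g v => ?_, ?_,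
          fun v => ?_, fun u hu hε => ?_⟩
        · rw [← map_add]
          congr 1
          apply Subtype.ext
          change fn w (u + v) ∘ₗ a3 ∘ₗ p = fn w u ∘ₗ a3 ∘ₗ p + fn w v ∘ₗ a3 ∘ₗ p
          rw [fn_add]
          rfl
        · change π (cc (gof g • v)) = π (cc v)
          have h1 : cc (gof g • v) = ((w g : ℤˣ) : ℤ) • rc (cc v) (gof g⁻¹) := by
            rw [← hrc_zsmul, ← dg_of]
            apply Subtype.ext
            change fn w (gof g • v) ∘ₗ a3 ∘ₗ p = rmul (fn w v ∘ₗ a3 ∘ₗ p) _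
            rw [fn_smul]
            rfl
          rw [h1, map_zsmul, hw, ← hww, smul_eq_mul, mul_comm (π _), ← mul_assoc,
            ← Units.val_mul, ← map_mul, mul_inv_cancel, map_one, Units.val_one, one_mul]
        · refine ⟨vec w (φ1.1 ∘ₗ b3), ?_, ?_⟩
          · apply fn_inj w
            change fn w (_ ᵥ* dgM w (mat _)) = _
            rw [fn_vecMul, fn_vec]
            refine LinearMap.ext fun x => ?_
            change φ1.1 (b3 (a3 (p (b3 x)))) = φ1.1 (b3 x)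
            have h1 : φ1.1 (d (q + 2) (r (b3 x))) = 0 := LinearMap.congr_fun (mem_cocyc.1 φ1.2) _
            rw [hab3, hp, map_sub, h1, sub_zero]
          · change π (cc (vec w (φ1.1 ∘ₗ b3))) = 1
            rw [← hφ1]
            congr 1
            apply Subtype.ext
            change fn w (vec w (φ1.1 ∘ₗ b3)) ∘ₗ a3 ∘ₗ p = φ1.1
            rw [fn_vec]
            refine LinearMap.ext fun x => ?_
            change φ1.1 (b3 (a3 (p x))) = φ1.1 x
            have h1 : φ1.1 (d (q + 2) (r x)) = 0 := LinearMap.congr_fun (mem_cocyc.1 φ1.2) _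
            rw [hab3, hp, map_sub, h1, sub_zero]
        · change π (cc (v ᵥ* dgM w D2)) = 0
          refine (hπk _).2 ⟨fn w v ∘ₗ a2, ?_⟩
          change _ = fn w (v ᵥ* dgM w (mat _)) ∘ₗ a3 ∘ₗ p
          rw [fn_vecMul]
          refine LinearMap.ext fun x => ?_
          change fn w v (a2 (d (q + 1) x)) = fn w v (a2 (d (q + 1) (b3 (a3 (p x)))))
          rw [hab3, hdp]
        · change π (cc u) = 0 at hε
          obtain ⟨g, hg⟩ := (hπk _).1 hε
          refine ⟨vec w (g ∘ₗ b2), ?_⟩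
          apply fn_inj w
          have h1 : fn w u ∘ₗ (a3 ∘ₗ p ∘ₗ b3) = fn w u := by
            rw [← fn_vecMul]
            exact congrArg (fn w) hu
          rw [← h1]
          change fn w (_ ᵥ* dgM w (mat _)) = _
          rw [fn_vecMul, fn_vec]
          refine LinearMap.ext fun x => ?_
          change g (b2 (a2 (d (q + 1) (b3 x)))) = fn w u (a3 (p (b3 x)))
          rw [hab2]
          exact LinearMap.congr_fun hg (b3 x)
      ex1 := by
        intro v hv hv0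
        have h1 : fn w v ∘ₗ (a2 ∘ₗ b2) = fn w v := by
          rw [← fn_vecMul]
          exact congrArg (fn w) hv
        have h2 : fn w v ∘ₗ (a2 ∘ₗ d (q + 1) ∘ₗ b3) = 0 := by
          rw [← fn_vecMul]
          change fn w (v ᵥ* dgM w D2) = 0
          rw [hv0]
          refine LinearMap.ext fun x => ?_
          change ∑ k, x k * dg w 0 = 0
          simp [dg_zero]
        obtain ⟨g, hg⟩ := hcob q (by omega) (fn w v ∘ₗ a2) (by
          refine LinearMap.ext fun x => ?_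
          have h3 := LinearMap.congr_fun h2 (a3 x)
          change fn w v (a2 (d (q + 1) (b3 (a3 x)))) = 0 at h3
          rw [hab3] at h3
          exact h3)
        refine ⟨vec w (g ∘ₗ b1), ?_⟩
        apply fn_inj w
        rw [← h1]
        change fn w (_ ᵥ* dgM w (mat _)) = _
        rw [fn_vecMul, fn_vec]
        refine LinearMap.ext fun x => ?_
        change g (b1 (a1 (d q (b2 x)))) = fn w v (a2 (b2 x))
        rw [hab1]
        exact LinearMap.congr_fun hg (b2 x) })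

end

end Pool.Agent.Q103.SG
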