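import Pool.Agent.Q103.SG.Act

/-!
# Duality: the top degrees of the `ℓ²`-cochain complex
-/

set_option autoImplicit false

open Set Filter Topology
open scoped Matrix
open Pool.Agent.Helper386.PD3

namespace Pool.Agent.Q103.SG

noncomputable section

variable {G : Type} [Group G] {n : ℕ}

theorem unit_cases (a : ℤˣ) : (((a : ℤˣ) : ℤ) : ℝ) * (((a : ℤˣ) : ℤ) : ℝ) = 1 := by
  rcases Int.units_eq_one_or a with h | h <;> rw [h] <;> norm_num

theorem unit_abs (a : ℤˣ) : |(((a : ℤˣ) : ℤ) : ℝ)| = 1 := by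
  rcases Int.units_eq_one_or a with h | h <;> rw [h] <;> norm_num

/-- multiplication by a character with values `±1` -/
def tw (w : G →* ℤˣ) : L2 G →ₗ[ℝ] L2 G where
  toFun x := ⟨fun k => (((w k : ℤˣ) : ℤ) : ℝ) * x k, by
    have h := (memℓp_gen_iff two_pos').1 x.2
    refine (memℓp_gen_iff two_pos').2 (h.congr fun k => ?_)
    rw [norm_mul, Real.norm_eq_abs (((w k : ℤˣ) : ℤ) : ℝ), unit_abs, one_mul]⟩
  map_add' x y := by
    ext k
    exact mul_add _ _ _
  map_smul' c x := by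
    ext k
    change _ * (c * x k) = c * (_ * x k)
    ring

theorem tw_apply (w : G →* ℤˣ) (x : L2 G) (k : G) :
    tw w x k = (((w k : ℤˣ) : ℤ) : ℝ) * x k := rfl

theorem tw_tw (w : G →* ℤˣ) (x : L2 G) : tw w (tw w x) = x := by
  ext k
  rw [tw_apply, tw_apply, ← mul_assoc, unit_cases, one_mul]

theorem inner_tw (w : G →* ℤˣ) (x y : L2 G) : inner ℝ (tw w x) (tw w y) = inner ℝ x y := by
  rw [lp.inner_eq_tsum, lp.inner_eq_tsum]
  refine tsum_congr fun k => ?_
  rw [tw_apply, tw_apply]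
  simp only [RCLike.inner_apply, conj_trivial]
  calc (((w k : ℤˣ) : ℤ) : ℝ) * y k * ((((w k : ℤˣ) : ℤ) : ℝ) * x k)
      = ((((w k : ℤˣ) : ℤ) : ℝ) * (((w k : ℤˣ) : ℤ) : ℝ)) * (y k * x k) := by ring
    _ = y k * x k := by rw [unit_cases, one_mul]

theorem tw_lam (w : G →* ℤˣ) (g : G) (x : L2 G) :
    tw w (lam2 g x) = (((w g : ℤˣ) : ℤ) : ℝ) • lam2 g (tw w x) := by
  ext k
  change (((w k : ℤˣ) : ℤ) : ℝ) * x (g⁻¹ * k) =
    (((w g : ℤˣ) : ℤ) : ℝ) * ((((w (g⁻¹ * k) : ℤˣ) : ℤ) : ℝ) * x (g⁻¹ * k))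
  rw [map_mul, map_inv, Units.val_mul, Int.cast_mul, Int.units_inv_eq_self]
  calc (((w k : ℤˣ) : ℤ) : ℝ) * x (g⁻¹ * k)
      = ((((w g : ℤˣ) : ℤ) : ℝ) * (((w g : ℤˣ) : ℤ) : ℝ)) * ((((w k : ℤˣ) : ℤ) : ℝ) * x (g⁻¹ * k)) := by
        rw [unit_cases, one_mul]
    _ = _ := by ring

theorem inner_lam (g : G) (x y : L2 G) : inner ℝ (lam2 g x) y = inner ℝ x (lam2 g⁻¹ y) := by
  have h1 : lam2 g (lam2 g⁻¹ y) = y := by
    ext k
    rw [lam2_apply, lam2_apply, inv_inv, mul_inv_cancel_left]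
  conv_lhs => rw [← h1]
  exact (reidx 2 two_pos' (Equiv.mulLeft g⁻¹)).inner_map_map x (lam2 g⁻¹ y)

theorem adj_la (w : G →* ℤˣ) (r : RR G) (x y : L2 G) :
    inner ℝ (la r x) y = inner ℝ x (tw w (la (dg w r) (tw w y))) := by
  induction r using rr_ind with
  | h1 g =>
    rw [la_of, inner_lam, dg_of]
    have h1 : la ((((w g : ℤˣ) : ℤ)) • gof g⁻¹) (tw w y) =
        (((w g : ℤˣ) : ℤ) : ℝ) • lam2 g⁻¹ (tw w y) := by
      rw [map_zsmul, la_of, ← Int.cast_smul_eq_zsmul ℝ]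
      rfl
    rw [h1, map_smul, tw_lam, tw_tw, smul_smul, map_inv, Int.units_inv_eq_self, unit_cases,
      one_smul]
  | h2 r s hr hs => rw [la_add, inner_add_left, hr, hs, dg_add, la_add, map_add, inner_add_right]
  | h3 r hr =>
    rw [dg_neg, map_neg, map_neg]
    change inner ℝ (-(la r x)) y = inner ℝ x (tw w (-(la (dg w r) (tw w y))))
    rw [map_neg, inner_neg_left, inner_neg_right, hr]

/-- multiplication by a character on `ℓ²(G)^n` -/
def twV (w : G →* ℤˣ) (x : VV G n) : VV G n := WithLp.toLp 2 fun i => tw w (x i)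

theorem twV_apply (w : G →* ℤˣ) (x : VV G n) (i : Fin n) : twV w x i = tw w (x i) := rfl

theorem twV_twV (w : G →* ℤˣ) (x : VV G n) : twV w (twV w x) = x := by
  apply vv_ext
  intro i
  exact tw_tw w _

theorem twV_zero (w : G →* ℤˣ) : twV w (0 : VV G n) = 0 := by
  apply vv_ext
  intro i
  exact map_zero (tw w)

theorem inner_twV (w : G →* ℤˣ) (x y : VV G n) :
    inner ℝ (twV w x) (twV w y) = inner ℝ x y := by
  rw [PiLp.inner_apply, PiLp.inner_apply]
  exact Finset.sum_congr rfl fun i _ => inner_tw w _ _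

theorem adj_LL (w : G →* ℤˣ) (M : MR G n) (x y : VV G n) :
    inner ℝ (LL M x) y = inner ℝ x (twV w (LL (dgM w M) (twV w y))) := by
  rw [PiLp.inner_apply, PiLp.inner_apply]
  have h1 : ∀ i, (LL M x).ofLp i = ∑ j, la (M i j) (x j) := LL_apply M x
  have h2 : ∀ j, (twV w (LL (dgM w M) (twV w y))).ofLp j =
      ∑ i, tw w (la (dg w (M i j)) (tw w (y i))) := by
    intro j
    have h3 : (twV w (LL (dgM w M) (twV w y))).ofLp j = tw w (LL (dgM w M) (twV w y) j) := rfl
    rw [h3, LL_apply, map_sum]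
    rfl
  simp only [h1, h2]
  have h3 : ∀ i, inner ℝ (∑ j, la (M i j) (x j)) (y i) =
      ∑ j, inner ℝ (x j) (tw w (la (dg w (M i j)) (tw w (y i)))) := by
    intro i
    rw [sum_inner]
    exact Finset.sum_congr rfl fun j _ => adj_la w _ _ _
  rw [Finset.sum_congr rfl fun i _ => h3 i, Finset.sum_comm]
  refine Finset.sum_congr rfl fun j _ => ?_
  rw [inner_sum]

theorem orth_range {w : G →* ℤˣ} {M : MR G n} {z : VV G n}
    (h : ∀ k ∈ LinearMap.range (LL M : VV G n →ₗ[ℝ] VV G n), inner ℝ k z = 0) :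
    LL (dgM w M) (twV w z) = 0 := by
  have h1 : ∀ y, inner ℝ y (twV w (LL (dgM w M) (twV w z))) = 0 := by
    intro y
    rw [← adj_LL]
    exact h _ ⟨y, rfl⟩
  have h2 := inner_self_eq_zero.1 (h1 _)
  rw [← twV_twV w (LL (dgM w M) (twV w z)), h2, twV_zero]

theorem fix_closure {M N : MR G n} (h : M * N = N) {m : VV G n}
    (hm : m ∈ closure (Set.range (LL N))) : LL M m = m := by
  have h1 : closure (Set.range (LL N)) ⊆ {v | LL M v = v} := by
    refine closure_minimal ?_ (isClosed_eq (LL M).continuous continuous_id)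
    rintro _ ⟨y, rfl⟩
    rw [Set.mem_ofPred_eq, ← LL_mul, h]
  exact h1 hm

theorem zero_closure {M N : MR G n} (h : M * N = 0) {m : VV G n}
    (hm : m ∈ closure (Set.range (LL N))) : LL M m = 0 := by
  have h1 : closure (Set.range (LL N)) ⊆ {v | LL M v = 0} := by
    refine closure_minimal ?_ (isClosed_eq (LL M).continuous continuous_const)
    rintro _ ⟨y, rfl⟩
    rw [Set.mem_ofPred_eq, ← LL_mul, h, LL_zero]
  exact h1 hm

theorem eq_zero_of_dual {w : G →* ℤˣ} {e : MR G n} {z : VV G n} (hz : LL e z = z)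
    (h : inner ℝ (LL (dgM w e) (twV w z)) (twV w z) = 0) : z = 0 := by
  rw [adj_LL w, dgM_dgM, twV_twV, hz, inner_twV] at h
  exact inner_self_eq_zero.1 h

/-- **Degree one from the top.** -/
theorem top_one (hA : Approx G) {w : G →* ℤˣ} {e0 e1 e2 d0 d1 : MR G n}
    (hT : Low (dgM w e0) (dgM w e1) (dgM w e2) (dgM w d0) (dgM w d1)) {x : VV G n}
    (hx : LL e1 x = x) (hx0 : LL d0 x = 0) : x ∈ closure (Set.range (LL d1)) := by
  have he1d1 : e1 * d1 = d1 := dgM_inj w (by rw [dgM_mul, hT.d1e1])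
  have hd0d1 : d0 * d1 = 0 := dgM_inj w (by rw [dgM_mul, hT.dd, dgM_zero])
  obtain ⟨m, z, hm, hz, hxz⟩ := decomp (LinearMap.range (LL d1 : VV G n →ₗ[ℝ] VV G n)) x
  have hm' : m ∈ closure (Set.range (LL d1)) := by
    rw [LinearMap.coe_range] at hm
    exact hm
  have hz1 : LL e1 z = z := by
    have h1 := fix_closure he1d1 hm'
    have h2 : z = x - m := by rw [hxz, add_sub_cancel_left]
    rw [h2, map_sub, hx, h1]
  have hz2 : LL d0 z = 0 := by
    have h1 := zero_closure hd0d1 hm'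
    have h2 : z = x - m := by rw [hxz, add_sub_cancel_left]
    rw [h2, map_sub, hx0, h1, sub_zero]
  have hz3 := orth_range (w := w) hz
  have hy1 : LL (dgM w e1) (LL (dgM w e1) (twV w z)) = LL (dgM w e1) (twV w z) := by
    rw [← LL_mul, hT.ee1]
  have hy2 : LL (dgM w d1) (LL (dgM w e1) (twV w z)) = 0 := by
    rw [← LL_mul, hT.d1e1, hz3]
  have hy3 := deg_one hA hT hy1 hy2
  have h0 : z = 0 := by
    refine eq_zero_of_dual (w := w) hz1 ?_
    have h1 : closure (Set.range (LL (dgM w d0))) ⊆ {v | inner ℝ v (twV w z) = 0} := by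
      refine closure_minimal ?_ (isClosed_eq (continuous_id.inner continuous_const)
        continuous_const)
      rintro _ ⟨y, rfl⟩
      rw [Set.mem_ofPred_eq, adj_LL w, dgM_dgM, twV_twV, hz2, twV_zero, inner_zero_right]
    exact h1 hy3
  rw [hxz, h0, add_zero]
  exact hm'

/-- **The top degree.** -/
theorem top_zero [Infinite G] {w : G →* ℤˣ} {e0 e1 e2 d0 d1 : MR G n}
    (hT : Low (dgM w e0) (dgM w e1) (dgM w e2) (dgM w d0) (dgM w d1)) {x : VV G n}
    (hx : LL e0 x = x) : x ∈ closure (Set.range (LL d0)) := by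
  have he0d0 : e0 * d0 = d0 := dgM_inj w (by rw [dgM_mul, hT.d0e0])
  obtain ⟨m, z, hm, hz, hxz⟩ := decomp (LinearMap.range (LL d0 : VV G n →ₗ[ℝ] VV G n)) x
  have hm' : m ∈ closure (Set.range (LL d0)) := by
    rw [LinearMap.coe_range] at hm
    exact hm
  have hz1 : LL e0 z = z := by
    have h1 := fix_closure he0d0 hm'
    have h2 : z = x - m := by rw [hxz, add_sub_cancel_left]
    rw [h2, map_sub, hx, h1]
  have hz3 := orth_range (w := w) hz
  have hy1 : LL (dgM w e0) (LL (dgM w e0) (twV w z)) = LL (dgM w e0) (twV w z) := by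
    rw [← LL_mul, hT.ee0]
  have hy2 : LL (dgM w d0) (LL (dgM w e0) (twV w z)) = 0 := by
    rw [← LL_mul, hT.d0e0, hz3]
  have hy3 := deg_zero hT hy1 hy2
  have h0 : z = 0 := by
    refine eq_zero_of_dual (w := w) hz1 ?_
    rw [hy3, inner_zero_left]
  rw [hxz, h0, add_zero]
  exact hm'

end

end Pool.Agent.Q103.SG
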