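import Pool.Agent.Q103.SG.Main
import Pool.Agent.Q103.SG.Dim

/-!
# `ℓ²`-Betti numbers of finite free resolutions
-/

set_option autoImplicit false
set_option linter.unusedSectionVars false

namespace Pool.Agent.Q103.SG

open Set Filter Topology
open scoped Matrix Classical
open Pool.Agent.Helper158 Pool.Agent.Helper386.PD3

noncomputable section

variable {G : Type} [Group G] {a b : ℕ}

/-- coordinates -/
def cmp (k : Fin a) : VV G a →L[ℝ] L2 G := (ContinuousLinearMap.proj k) ∘L
  ((PiLp.continuousLinearEquiv 2 ℝ (fun _ : Fin a => L2 G)) : VV G a →L[ℝ] (Fin a → L2 G))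

/-- the coboundary operator of a boundary matrix -/
def cob (D : Matrix (Fin b) (Fin a) (RR G)) : VV G a →L[ℝ] VV G b :=
  ∑ j, inj j ∘L (∑ k, la (D j k) ∘L cmp k)

theorem cob_apply (D : Matrix (Fin b) (Fin a) (RR G)) (x : VV G a) (j : Fin b) :
    cob D x j = pr (D j) x := by
  have h1 : cob D x = ∑ j, inj j ((WithLp.toLp 2 (fun j => pr (D j) x) : VV G b) j) := by
    rw [cob, sum_apply]
    refine Finset.sum_congr rfl fun j _ => ?_
    change inj j ((∑ k, la (D j k) ∘L cmp k : VV G a →L[ℝ] L2 G) x) = _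
    rw [sum_apply]
    rfl
  rw [h1, sum_inj]

theorem pr_vecMulR (v : Fin b → RR G) (D : Matrix (Fin b) (Fin a) (RR G)) (x : VV G a) :
    pr (v ᵥ* D) x = pr v (cob D x) := by
  have h1 : v ᵥ* D = ∑ i, v i • D i := Matrix.vecMul_eq_sum _ _
  have h2 : ∀ s : Finset (Fin b), pr (∑ i ∈ s, v i • D i) x = ∑ i ∈ s, la (v i) (cob D x i) := by
    intro s
    induction s using Finset.induction_on with
    | empty => simp [pr_zero]
    | insert a s ha ih =>
      rw [Finset.sum_insert ha, Finset.sum_insert ha, pr_add, ih, pr_smul, cob_apply]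
  rw [h1, h2]
  rfl

theorem la_rho (r : RR G) (k : G) (x : L2 G) : la r (rho k x) = rho k (la r x) := by
  induction r using rr_ind with
  | h1 g =>
    rw [la_of]
    ext y
    change x (g⁻¹ * y * k) = x (g⁻¹ * (y * k))
    rw [mul_assoc]
  | h2 r s hr hs => rw [la_add, la_add, hr, hs, map_add]
  | h3 r hr =>
    rw [map_neg]
    change -(la r (rho k x)) = rho k (-(la r x))
    rw [hr, map_neg]

theorem equiR_cob (D : Matrix (Fin b) (Fin a) (RR G)) : EquiR (cob D) := by
  intro k x
  apply vv_ext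
  intro j
  rw [cob_apply, RV_apply, cob_apply, pr, pr, map_sum]
  refine Finset.sum_congr rfl fun i _ => ?_
  rw [RV_apply, la_rho]

theorem vd_nonneg (W : Submodule ℝ (VV G a)) : 0 ≤ vd W := by
  rw [vd_eq]
  refine Finset.sum_nonneg fun i _ => ?_
  have h := prj_orth W (inj i (dl (1 : G))) (prj_mem W (inj i (dl (1 : G))))
  rw [inner_sub_left, sub_eq_zero] at h
  rw [real_inner_comm, h]
  exact real_inner_self_nonneg

theorem vd_bot {W : Submodule ℝ (VV G a)} (h : ∀ x ∈ W, x = 0) : vd W = 0 := by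
  rw [vd_eq]
  refine Finset.sum_eq_zero fun i _ => ?_
  have h1 : closure (W : Set (VV G a)) ⊆ {0} :=
    closure_minimal (fun x hx => h x hx) isClosed_singleton
  rw [h1 (prj_mem W _), inner_zero_left]

/-- `vd W = 0` only for the zero space, if `W` is invariant -/
theorem vd_faithful {W : Submodule ℝ (VV G a)} (hW : ∀ k, ∀ x ∈ W, RV k x ∈ W)
    (h : vd W = 0) : ∀ x ∈ W, x = 0 := by
  have hcl : ∀ k, ∀ x ∈ closure (W : Set (VV G a)), RV k x ∈ closure (W : Set (VV G a)) := by
    intro k x hx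
    exact map_mem_closure (RV k).continuous hx (hW k)
  have hP : Equi (prj W) := by
    intro k x
    refine prj_eq W (hcl k _ (prj_mem W x)) fun w hw => ?_
    rw [← RV_RV_inv k w, ← map_sub, inner_RV]
    exact prj_orth W x (hcl k⁻¹ w hw)
  have hPP : prj W ∘L prj W = prj W := by
    ext1 x
    refine prj_eq W (prj_mem W x) fun w _ => ?_
    change inner ℝ (prj W x - prj W x) w = 0
    rw [sub_self, inner_zero_left]
  have h0 := (kaplansky hP hPP).2 h
  intro x hx
  have h1 : prj W x = x :=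
    prj_eq W (subset_closure hx) fun w _ => by rw [sub_self, inner_zero_left]
  rw [← h1, h0]
  rfl

/-! ### free resolutions -/

variable (c : ℕ → ℕ) (D : ∀ i, Matrix (Fin (c (i + 1))) (Fin (c i)) (RR G))

/-- the harmonic `ℓ²`-cochains -/
def Hm : ∀ i, Submodule ℝ (VV G (c i))
  | 0 => harm (0 : VV G 0 →L[ℝ] VV G (c 0)) (cob (D 0))
  | (i + 1) => harm (cob (D i)) (cob (D (i + 1)))

/-- the dimensions of the closures of the coboundaries -/
def rk : ℕ → ℝ
  | 0 => 0
  | (i + 1) => vd (LinearMap.range (cob (D i) : VV G (c i) →ₗ[ℝ] VV G (c (i + 1))))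

theorem split_dim (h : ∀ i x, cob (D (i + 1)) (cob (D i) x) = 0) (i : ℕ) :
    rk c D i + vd (Hm c D i) + rk c D (i + 1) = c i := by
  cases i with
  | zero =>
    have h1 := betti_formula (T := (0 : VV G 0 →L[ℝ] VV G (c 0))) (equiR_cob (D 0))
      (fun x => map_zero _)
    have h2 : vd (LinearMap.range ((0 : VV G 0 →L[ℝ] VV G (c 0)) : VV G 0 →ₗ[ℝ] VV G (c 0))) =
        0 := by
      refine vd_bot ?_
      rintro _ ⟨y, rfl⟩
      rfl
    rw [h2] at h1
    exact h1
  | succ i => exact betti_formula (equiR_cob (D (i + 1))) (h i)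

theorem euler (h : ∀ i x, cob (D (i + 1)) (cob (D i) x) = 0) (N : ℕ) :
    ∑ i ∈ Finset.range N, (-1 : ℝ) ^ i * c i =
      ∑ i ∈ Finset.range N, (-1 : ℝ) ^ i * vd (Hm c D i) - (-1 : ℝ) ^ N * rk c D N := by
  induction N with
  | zero => simp [rk]
  | succ N ih =>
    rw [Finset.sum_range_succ, Finset.sum_range_succ, ih, ← split_dim c D h N]
    ring

/-- the boundary operator -/
def bd (i : ℕ) : (Fin (c (i + 1)) → RR G) →ₗ[RR G] (Fin (c i) → RR G) where
  toFun v := v ᵥ* D i
  map_add' _ _ := Matrix.add_vecMul _ _ _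
  map_smul' _ _ := Matrix.smul_vecMul _ _ _

theorem bd_single (i : ℕ) (k : Fin (c (i + 1))) : bd c D i (Pi.single k 1) = D i k := by
  change (Pi.single k 1 : Fin (c (i + 1)) → RR G) ᵥ* D i = D i k
  exact Matrix.single_one_vecMul _ _

theorem free_vanish (hA : Approx G) {ε : (Fin (c 0) → RR G) →+ ℤ}
    (hR : Reso (fun i => Fin (c i) → RR G) (bd c D) ε) (m : ℕ) (hm : ∀ i, m < i → c i = 0) (q : ℕ)
    (hcoh : ∀ i, i ≠ q + 2 → Subsingleton (groupCohomology (Rep.leftRegular ℤ G) i))
    (htop : Nonempty (groupCohomology (Rep.leftRegular ℤ G) (q + 2) ≃+ ℤ)) (i : ℕ)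
    (hi : i ≤ 1 ∨ q + 2 ≤ i + 1) : ∀ x ∈ Hm c D i, x = 0 := by
  have hm' : ∀ i, m < i → Subsingleton (Fin (c i) → RR G) := by
    intro i hi
    have : IsEmpty (Fin (c i)) := by
      rw [hm i hi]
      infer_instance
    infer_instance
  obtain ⟨h0, h1⟩ := vanish hA hR m hm' q hcoh htop
  have hφ : ∀ {n : ℕ} (x : VV G n), EqV (cochOf (LinearMap.id : (Fin n → RR G) →ₗ[RR G] _) x) :=
    fun x => cochOf_eqV _ _
  have hval : ∀ {n : ℕ} (x : VV G n) (k : Fin n),
      cochOf (LinearMap.id : (Fin n → RR G) →ₗ[RR G] _) x (Pi.single k 1) = x k := by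
    intro n x k
    change pr (Pi.single k 1) x = x k
    rw [pr, Finset.sum_eq_single k]
    · rw [Pi.single_eq_same, map_one]
      rfl
    · intro j _ hj
      rw [Pi.single_eq_of_ne hj, map_zero]
      rfl
    · intro h
      exact absurd (Finset.mem_univ k) h
  cases i with
  | zero =>
    intro x hx
    have hx0 : cob (D 0) x = 0 := hx.1
    have h2 := h0 (cochOf LinearMap.id x) (hφ x) (fun v => by
      change pr (v ᵥ* D 0) x = 0
      rw [pr_vecMulR, hx0, pr]
      simp)
    apply vv_ext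
    intro k
    rw [← hval x k, h2]
    rfl
  | succ i =>
    intro x hx
    have hx0 : cob (D (i + 1)) x = 0 := hx.1
    have h2 := h1 i (by omega) (cochOf LinearMap.id x) (hφ x) (fun v => by
      change pr (v ᵥ* D (i + 1)) x = 0
      rw [pr_vecMulR, hx0, pr]
      simp) (Finset.univ.image fun k => Pi.single k 1)
    have hcl : x ∈ closure (Set.range (cob (D i))) := by
      rw [Metric.mem_closure_iff]
      intro η hη
      let B : ℝ := ∑ k : Fin (c (i + 1)), ‖(inj k : L2 G →L[ℝ] VV G (c (i + 1)))‖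
      have hB : 0 ≤ B := Finset.sum_nonneg fun k _ => norm_nonneg _
      obtain ⟨ψ, hψ, h3⟩ := h2 (η / (B + 1)) (by positivity)
      let y : VV G (c i) := vecOf (LinearMap.id : (Fin (c i) → RR G) →ₗ[RR G] _) ψ
      refine ⟨cob (D i) y, ⟨y, rfl⟩, ?_⟩
      have h4 : ∀ k, ‖(x - cob (D i) y) k‖ ≤ η / (B + 1) := by
        intro k
        have h5 := h3 (Pi.single k 1) (Finset.mem_image_of_mem _ (Finset.mem_univ k))
        have h6 : ψ (bd c D i (Pi.single k 1)) = cob (D i) y k := by
          rw [cob_apply]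
          rw [bd_single]
          exact hψ.pr_vecOf (LinearMap.id : (Fin (c i) → RR G) →ₗ[RR G] _) (D i k)
        rw [hval, h6] at h5
        exact h5.le
      rw [dist_eq_norm]
      calc ‖x - cob (D i) y‖ ≤ ∑ k : Fin (c (i + 1)),
            ‖(inj k : L2 G →L[ℝ] VV G (c (i + 1)))‖ * ‖(x - cob (D i) y) k‖ := norm_le_sum _
        _ ≤ ∑ k : Fin (c (i + 1)),
            ‖(inj k : L2 G →L[ℝ] VV G (c (i + 1)))‖ * (η / (B + 1)) :=
            Finset.sum_le_sum fun k _ => mul_le_mul_of_nonneg_left (h4 k) (norm_nonneg _)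
        _ = B * (η / (B + 1)) := by rw [Finset.sum_mul]
        _ < η := by
            rw [← mul_div_assoc, div_lt_iff₀ (by positivity)]
            nlinarith
    have h5 := orth_closure (W := Set.range (cob (D i))) (x := x) (by
      rintro _ ⟨y, rfl⟩
      rw [real_inner_comm]
      exact hx.2 y) x hcl
    exact inner_self_eq_zero.1 h5

/-- **Euler characteristic and `ℓ²`-Betti numbers.** -/
theorem free_euler {ε : (Fin (c 0) → RR G) →+ ℤ}
    (hR : Reso (fun i => Fin (c i) → RR G) (bd c D) ε) (m : ℕ) (hm : ∀ i, m < i → c i = 0) :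
    ∑ i ∈ Finset.range (m + 1), (-1 : ℝ) ^ i * c i =
      ∑ i ∈ Finset.range (m + 1), (-1 : ℝ) ^ i * vd (Hm c D i) := by
  have h : ∀ i x, cob (D (i + 1)) (cob (D i) x) = 0 := by
    intro i x
    apply vv_ext
    intro k
    rw [cob_apply, ← pr_vecMulR]
    have h1 : D (i + 1) k ᵥ* D i = 0 := by
      have h2 : bd c D i (bd c D (i + 1) (Pi.single k 1)) = 0 := (hR.ex i _).2 ⟨_, rfl⟩
      rw [bd_single] at h2
      exact h2
    rw [h1, pr_zero]
    rfl
  rw [euler c D h (m + 1)]
  have h1 : rk c D (m + 1) = 0 := by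
    change vd _ = 0
    refine vd_bot fun x _ => ?_
    apply vv_ext
    intro k
    have h8 := k.isLt
    have h9 := hm (m + 1) (by omega)
    omega
  rw [h1, mul_zero, sub_zero]

end

end Pool.Agent.Q103.SG
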