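import Pool.Agent.Q103.SG.Bdry

/-!
# The degrees `0` and `1` for free resolutions
-/

set_option autoImplicit false
set_option linter.unusedSectionVars false

namespace Pool.Agent.Q103.SG

open Set Filter Topology
open scoped Matrix Classical
open Pool.Agent.Helper158 Pool.Agent.Helper386.PD3

noncomputable section

variable {G : Type} [Group G]

variable {P : ℕ → Type} [∀ i, AddCommGroup (P i)]
  [∀ i, Module (MonoidAlgebra ℤ G) (P i)] {d : ∀ i, P (i + 1) →ₗ[MonoidAlgebra ℤ G] P i}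
  {ε : P 0 →+ ℤ}

theorem vanish_low [Infinite G] (hA : Approx G) (hR : Reso P d ε)
    [∀ i, Module.Finite (MonoidAlgebra ℤ G) (P i)]
    [∀ i, Module.Projective (MonoidAlgebra ℤ G) (P i)] :
    (∀ φ : P 0 →+ L2 G, EqV φ → (∀ x, φ (d 0 x) = 0) → φ = 0) ∧
    ∀ φ : P 1 →+ L2 G, EqV φ → (∀ x, φ (d 1 x) = 0) →
      ∀ (F : Finset (P 1)) (δ : ℝ), 0 < δ →
        ∃ ψ : P 0 →+ L2 G, EqV ψ ∧ ∀ p ∈ F, ‖φ p - ψ (d 0 p)‖ < δ := by
  obtain ⟨n0, h0⟩ := exists_retract (G := G) (P 0)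
  obtain ⟨n1, h1⟩ := exists_retract (G := G) (P 1)
  obtain ⟨n2, h2⟩ := exists_retract (G := G) (P 2)
  obtain ⟨n, hn0, hn1, hn2⟩ : ∃ n, n0 ≤ n ∧ n1 ≤ n ∧ n2 ≤ n :=
    ⟨n0 + n1 + n2, by omega, by omega, by omega⟩
  obtain ⟨a0, b0, hab0'⟩ := h0 n hn0
  obtain ⟨a1, b1, hab1'⟩ := h1 n hn1
  obtain ⟨a2, b2, hab2'⟩ := h2 n hn2
  have hab0 : ∀ x, b0 (a0 x) = x := fun x => LinearMap.congr_fun hab0' x
  have hab1 : ∀ x, b1 (a1 x) = x := fun x => LinearMap.congr_fun hab1' x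
  have hab2 : ∀ x, b2 (a2 x) = x := fun x => LinearMap.congr_fun hab2' x
  have hlow := low_of hR hab0 hab1 hab2
  have hfix : ∀ {M : Type} [AddCommGroup M] [Module (RR G) M] (a : M →ₗ[RR G] FR G n)
      (b : FR G n →ₗ[RR G] M) (_ : ∀ x, b (a x) = x) (φ : M →+ L2 G), EqV φ →
      LL (mat (a ∘ₗ b)) (vecOf b φ) = vecOf b φ := by
    intro M _ _ a b hab φ hφ
    apply vv_ext
    intro i
    rw [← pr_row, mat_row, ← hφ.pr_vecOf]
    change φ (b (a (b (Pi.single i 1)))) = φ (b (Pi.single i 1))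
    rw [hab]
  have hker : ∀ {M N : Type} [AddCommGroup M] [Module (RR G) M] [AddCommGroup N]
      [Module (RR G) N] (f : N →ₗ[RR G] M) (a : M →ₗ[RR G] FR G n)
      (b : FR G n →ₗ[RR G] M) (_ : ∀ x, b (a x) = x) (b' : FR G n →ₗ[RR G] N) (φ : M →+ L2 G),
      EqV φ → (∀ x, φ (f x) = 0) → LL (mat (a ∘ₗ f ∘ₗ b')) (vecOf b φ) = 0 := by
    intro M N _ _ _ _ f a b hab b' φ hφ h0
    apply vv_ext
    intro i
    rw [← pr_row, mat_row, ← hφ.pr_vecOf]
    change φ (b (a (f (b' (Pi.single i 1))))) = 0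
    rw [hab, h0]
  refine ⟨fun φ hφ h0 => ?_, fun φ hφ h0 F δ hδ => ?_⟩
  · have e1 := hfix a0 b0 hab0 φ hφ
    have e2 := hker (d 0) a0 b0 hab0 b1 φ hφ h0
    have e3 := deg_zero hlow e1 e2
    ext1 x
    rw [← hab0 x, hφ.pr_vecOf, e3, pr]
    simp
  · have e1 := hfix a1 b1 hab1 φ hφ
    have e2 := hker (d 1) a1 b1 hab1 b2 φ hφ h0
    exact lim_of_closure (d 0) hab1 hφ (deg_one hA hlow e1 e2) F δ hδ

variable (c : ℕ → ℕ) (D : ∀ i, Matrix (Fin (c (i + 1))) (Fin (c i)) (RR G))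

/-- free resolutions: the degrees `0` and `1` -/
theorem free_low [Infinite G] (hA : Approx G) {ε : (Fin (c 0) → RR G) →+ ℤ}
    (hR : Reso (fun i => Fin (c i) → RR G) (bd c D) ε) (i : ℕ) (hi : i ≤ 1) :
    ∀ x ∈ Hm c D i, x = 0 := by
  obtain ⟨h0, h1⟩ := vanish_low hA hR
  have hφ : ∀ {n : ℕ} (x : VV G n), EqV (cochOf (LinearMap.id : (Fin n → RR G) →ₗ[RR G] _) x) :=
    fun x => cochOf_eqV _ _
  have hval : ∀ {n : ℕ} (x : VV G n) (k : Fin n),
      cochOf (LinearMap.id : (Fin n → RR G) →ₗ[RR G] _) x (Pi.single k 1) = x k := by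
    intro n x k
    change pr (Pi.single k 1) x = x k
    exact pr_single k x
  interval_cases i
  · intro x hx
    have hx0 : cob (D 0) x = 0 := hx.1
    have h2 := h0 (cochOf LinearMap.id x) (hφ x) (fun v => by
      change pr (v ᵥ* D 0) x = 0
      rw [pr_vecMulR, hx0, pr]
      simp)
    apply vv_ext
    intro k
    rw [← hval x k, h2]
    rfl
  · intro x hx
    have hx0 : cob (D 1) x = 0 := hx.1
    have h2 := h1 (cochOf LinearMap.id x) (hφ x) (fun v => by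
      change pr (v ᵥ* D 1) x = 0
      rw [pr_vecMulR, hx0, pr]
      simp) (Finset.univ.image fun k => Pi.single k 1)
    have hcl : x ∈ closure (Set.range (cob (D 0))) := by
      refine mem_closure_of fun δ hδ => ?_
      obtain ⟨ψ, hψ, h3⟩ := h2 δ hδ
      let y : VV G (c 0) := vecOf (LinearMap.id : (Fin (c 0) → RR G) →ₗ[RR G] _) ψ
      refine ⟨cob (D 0) y, ⟨y, rfl⟩, fun k => ?_⟩
      have h5 := h3 (Pi.single k 1) (Finset.mem_image_of_mem _ (Finset.mem_univ k))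
      have h6 : ψ (bd c D 0 (Pi.single k 1)) = cob (D 0) y k := by
        rw [cob_apply]
        rw [bd_single]
        exact hψ.pr_vecOf (LinearMap.id : (Fin (c 0) → RR G) →ₗ[RR G] _) (D 0 k)
      rw [hval, h6] at h5
      exact h5.le
    have h5 := orth_closure (W := Set.range (cob (D 0))) (x := x) (by
      rintro _ ⟨y, rfl⟩
      rw [real_inner_comm]
      exact hx.2 y) x hcl
    exact inner_self_eq_zero.1 h5

end

end Pool.Agent.Q103.SG
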