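import Pool.Agent.Q103.SG.Data

/-!
# Reduced `ℓ²`-cohomology of `PD_n`-groups in the degrees `0`, `1`, `n - 1`, `≥ n`
-/

namespace Pool.Agent.Q103.SG

set_option autoImplicit false
set_option linter.unusedSectionVars false

open scoped Classical Matrix
open Pool.Agent.Helper158 Pool.Agent.Helper386.PD3

noncomputable section

variable {G : Type} [Group G] {n : ℕ}

/-- equivariant additive maps to `ℓ²(G)` -/
def EqV {M : Type} [AddCommGroup M] [Module (RR G) M] (φ : M →+ L2 G) : Prop :=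
  ∀ (g : G) (x : M), φ (gof g • x) = lam2 g (φ x)

theorem EqV.smul {M : Type} [AddCommGroup M] [Module (RR G) M] {φ : M →+ L2 G} (h : EqV φ)
    (r : RR G) (x : M) : φ (r • x) = la r (φ x) := by
  induction r using rr_ind with
  | h1 g => rw [la_of]; exact h g x
  | h2 r s hr hs => rw [add_smul, map_add, hr, hs, la_add]
  | h3 r hr =>
    rw [neg_smul, map_neg, hr, map_neg]
    rfl

/-- the vector of a cochain -/
def vecOf {M : Type} [AddCommGroup M] [Module (RR G) M] (b : FR G n →ₗ[RR G] M) (φ : M →+ L2 G) :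
    VV G n := WithLp.toLp 2 fun j => φ (b (Pi.single j 1))

theorem EqV.pr_vecOf {M : Type} [AddCommGroup M] [Module (RR G) M] {φ : M →+ L2 G} (h : EqV φ)
    (b : FR G n →ₗ[RR G] M) (v : FR G n) : φ (b v) = pr v (vecOf b φ) := by
  have h1 : ∀ s : Finset (Fin n), φ (b (∑ i ∈ s, v i • (Pi.single i 1 : FR G n))) =
      ∑ i ∈ s, la (v i) (vecOf b φ i) := by
    intro s
    induction s using Finset.induction_on with
    | empty => simp
    | insert a s ha ih =>
      rw [Finset.sum_insert ha, Finset.sum_insert ha, map_add, map_add, ih, map_smul, h.smul]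
      rfl
  have h2 : v = ∑ i, v i • (Pi.single i 1 : FR G n) := by
    conv_lhs => rw [pi_eq_sum_univ' v]
  conv_lhs => rw [h2, h1]
  rfl

/-- the cochain of a vector -/
def cochOf {M : Type} [AddCommGroup M] [Module (RR G) M] (a : M →ₗ[RR G] FR G n) (y : VV G n) :
    M →+ L2 G where
  toFun p := pr (a p) y
  map_zero' := by rw [map_zero, pr_zero]
  map_add' p p' := by rw [map_add, pr_add]

theorem cochOf_eqV {M : Type} [AddCommGroup M] [Module (RR G) M] (a : M →ₗ[RR G] FR G n)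
    (y : VV G n) : EqV (cochOf a y) := by
  intro g x
  change pr (a (gof g • x)) y = lam2 g (pr (a x) y)
  rw [map_smul, pr_smul, la_of]

theorem mat_row (f : FR G n →ₗ[RR G] FR G n) (i : Fin n) : mat f i = f (Pi.single i 1) := rfl

theorem pr_bound (v : FR G n) : ∃ C : ℝ, 0 ≤ C ∧ ∀ z : VV G n, ‖pr v z‖ ≤ C * ‖z‖ := by
  refine ⟨∑ j, ‖la (v j)‖, Finset.sum_nonneg fun j _ => norm_nonneg _, fun z => ?_⟩
  rw [Finset.sum_mul]
  refine (norm_sum_le _ _).trans (Finset.sum_le_sum fun j _ => ?_)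
  exact ((la (v j)).le_opNorm _).trans
    (mul_le_mul_of_nonneg_left (PiLp.norm_apply_le z j) (norm_nonneg _))

/-- From vectors to cochains. -/
theorem lim_of_closure {M N : Type} [AddCommGroup M] [Module (RR G) M] [AddCommGroup N]
    [Module (RR G) N] (f : M →ₗ[RR G] N) {a : M →ₗ[RR G] FR G n} {b : FR G n →ₗ[RR G] M}
    {a' : N →ₗ[RR G] FR G n}
    (hab : ∀ x, b (a x) = x) {φ : M →+ L2 G} (hφ : EqV φ)
    (h : vecOf b φ ∈ closure (Set.range (LL (mat (a' ∘ₗ f ∘ₗ b))))) (F : Finset M) (δ : ℝ)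
    (hδ : 0 < δ) : ∃ ψ : N →+ L2 G, EqV ψ ∧ ∀ p ∈ F, ‖φ p - ψ (f p)‖ < δ := by
  choose C hC0 hC using fun p : M => pr_bound (a p)
  let B : ℝ := ∑ p ∈ F, C p
  have hB : 0 ≤ B := Finset.sum_nonneg fun p _ => hC0 p
  obtain ⟨_, ⟨y, rfl⟩, hy⟩ := Metric.mem_closure_iff.1 h (δ / (B + 1)) (by positivity)
  refine ⟨cochOf a' y, cochOf_eqV _ _, fun p hp => ?_⟩
  have h1 : φ p = pr (a p) (vecOf b φ) := by
    rw [← hφ.pr_vecOf, hab]
  have h2 : cochOf a' y (f p) = pr (a p) (LL (mat (a' ∘ₗ f ∘ₗ b)) y) := by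
    rw [← pr_vecMul, vecMul_mat]
    change pr (a' (f p)) y = pr (a' (f (b (a p)))) y
    rw [hab]
  have h3 : φ p - cochOf a' y (f p) =
      pr (a p) (vecOf b φ - LL (mat (a' ∘ₗ f ∘ₗ b)) y) := by
    rw [h1, h2, pr, pr, pr, ← Finset.sum_sub_distrib]
    refine Finset.sum_congr rfl fun j _ => ?_
    rw [← map_sub]
    rfl
  rw [h3]
  refine (hC p _).trans_lt ?_
  rw [dist_eq_norm] at hy
  have h4 : C p ≤ B := Finset.single_le_sum (fun p _ => hC0 p) hp
  calc C p * ‖vecOf b φ - LL (mat (a' ∘ₗ f ∘ₗ b)) y‖ ≤ B * (δ / (B + 1)) :=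
        mul_le_mul h4 hy.le (norm_nonneg _) hB
    _ < δ := by
        rw [← mul_div_assoc, div_lt_iff₀ (by positivity)]
        nlinarith

variable {P : ℕ → Type} [∀ i, AddCommGroup (P i)]
  [∀ i, Module (MonoidAlgebra ℤ G) (P i)] {d : ∀ i, P (i + 1) →ₗ[MonoidAlgebra ℤ G] P i}
  {ε : P 0 →+ ℤ}

/-- `G` is infinite -/
theorem infinite_of (hR : Reso P d ε) [∀ i, Module.Projective (MonoidAlgebra ℤ G) (P i)]
    (h0 : Subsingleton (groupCohomology (Rep.leftRegular ℤ G) 0)) : Infinite G := by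
  by_contra hfin
  rw [not_infinite_iff_finite] at hfin
  have := Fintype.ofFinite G
  let N : RR G := ∑ g : G, gof g
  have hN : ∀ g : G, gof g * N = N := by
    intro g
    change gof g * ∑ h : G, gof h = ∑ h : G, gof h
    rw [Finset.mul_sum]
    exact (Finset.sum_congr rfl fun h _ => (gof_mul g h).symm).trans
      (Equiv.sum_comp (Equiv.mulLeft g) (fun h => gof h))
  have hN0 : N ≠ 0 := by
    intro h
    have h1 : eps N = 0 := by rw [h, map_zero]
    have h2 : eps N = Fintype.card G := by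
      change eps (∑ g : G, gof g) = _
      rw [map_sum]
      simp only [eps_of]
      simp
    rw [h1] at h2
    have h3 := Fintype.card_pos (α := G)
    omega
  have hrN : ∀ r : RR G, r * N = eps r • N := by
    intro r
    induction r using rr_ind with
    | h1 g => rw [hN, eps_of, one_smul]
    | h2 x y hx hy => rw [add_mul, hx, hy, map_add, add_smul]
    | h3 x hx => rw [neg_mul, hx, map_neg, neg_smul]
  have hεr : ∀ (r : RR G) (x : P 0), ε (r • x) = eps r * ε x := by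
    intro r x
    induction r using rr_ind with
    | h1 g => rw [eps_of, one_mul]; exact hR.equi g x
    | h2 r s hr hs => rw [add_smul, map_add, hr, hs, map_add, add_mul]
    | h3 r hr => rw [neg_smul, map_neg, hr, map_neg, neg_mul]
  let φ : P 0 →ₗ[RR G] RR G :=
    { toFun := fun x => ε x • N
      map_add' := fun x y => by rw [map_add, add_smul]
      map_smul' := fun r x => by
        rw [hεr, RingHom.id_apply, smul_eq_mul, mul_smul_comm, hrN, smul_smul, mul_comm] }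
  have hφ : φ ∈ cocyc d 0 := by
    rw [mem_cocyc]
    refine LinearMap.ext fun x => ?_
    change ε (d 0 x) • N = 0
    rw [(hR.ex0 _).2 ⟨x, rfl⟩, zero_smul]
  obtain ⟨π, -, h2⟩ := hR.coh 0
  have h3 : φ = 0 := (h2 ⟨φ, hφ⟩).1 (Subsingleton.elim _ _)
  obtain ⟨x, hx⟩ := hR.surj 1
  have h4 : φ x = 0 := by rw [h3]; rfl
  change ε x • N = 0 at h4
  rw [hx, one_smul] at h4
  exact hN0 h4

/-- **The main theorem.** -/
theorem vanish (hA : Approx G) (hR : Reso P d ε) (m : ℕ) (hm : ∀ i, m < i → Subsingleton (P i))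
    [∀ i, Module.Finite (MonoidAlgebra ℤ G) (P i)]
    [∀ i, Module.Projective (MonoidAlgebra ℤ G) (P i)] (q : ℕ)
    (hcoh : ∀ i, i ≠ q + 2 → Subsingleton (groupCohomology (Rep.leftRegular ℤ G) i))
    (htop : Nonempty (groupCohomology (Rep.leftRegular ℤ G) (q + 2) ≃+ ℤ)) :
    (∀ φ : P 0 →+ L2 G, EqV φ → (∀ x, φ (d 0 x) = 0) → φ = 0) ∧
    ∀ i, (i = 0 ∨ q ≤ i) → ∀ φ : P (i + 1) →+ L2 G, EqV φ → (∀ x, φ (d (i + 1) x) = 0) →
      ∀ (F : Finset (P (i + 1))) (δ : ℝ), 0 < δ →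
        ∃ ψ : P i →+ L2 G, EqV ψ ∧ ∀ p ∈ F, ‖φ p - ψ (d i p)‖ < δ := by
  have hinf : Infinite G := infinite_of hR (hcoh 0 (by omega))
  obtain ⟨w, r, hr, htop'⟩ := top_of hR m hm q hcoh htop
  obtain ⟨n0, h0⟩ := exists_retract (G := G) (P 0)
  obtain ⟨n1, h1⟩ := exists_retract (G := G) (P 1)
  obtain ⟨n2, h2⟩ := exists_retract (G := G) (P 2)
  obtain ⟨k0, j0⟩ := exists_retract (G := G) (P q)
  obtain ⟨k1, j1⟩ := exists_retract (G := G) (P (q + 1))
  obtain ⟨k2, j2⟩ := exists_retract (G := G) (P (q + 2))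
  obtain ⟨n, hn0, hn1, hn2, hk0, hk1, hk2⟩ : ∃ n, n0 ≤ n ∧ n1 ≤ n ∧ n2 ≤ n ∧ k0 ≤ n ∧ k1 ≤ n ∧
      k2 ≤ n :=
    ⟨n0 + n1 + n2 + k0 + k1 + k2, by omega, by omega, by omega, by omega, by omega, by omega⟩
  obtain ⟨a0, b0, hab0'⟩ := h0 n hn0
  obtain ⟨a1, b1, hab1'⟩ := h1 n hn1
  obtain ⟨a2, b2, hab2'⟩ := h2 n hn2
  obtain ⟨a1', b1', hab1''⟩ := j0 n hk0
  obtain ⟨a2', b2', hab2''⟩ := j1 n hk1
  obtain ⟨a3', b3', hab3''⟩ := j2 n hk2
  have hab0 : ∀ x, b0 (a0 x) = x := fun x => LinearMap.congr_fun hab0' x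
  have hab1 : ∀ x, b1 (a1 x) = x := fun x => LinearMap.congr_fun hab1' x
  have hab2 : ∀ x, b2 (a2 x) = x := fun x => LinearMap.congr_fun hab2' x
  have hc1 : ∀ x, b1' (a1' x) = x := fun x => LinearMap.congr_fun hab1'' x
  have hc2 : ∀ x, b2' (a2' x) = x := fun x => LinearMap.congr_fun hab2'' x
  have hc3 : ∀ x, b3' (a3' x) = x := fun x => LinearMap.congr_fun hab3'' x
  have hlow := low_of hR hab0 hab1 hab2
  have htp := htop' n a3' b3' a2' b2' a1' b1' hc3 hc2 hc1
  have hfix : ∀ {M : Type} [AddCommGroup M] [Module (RR G) M] (a : M →ₗ[RR G] FR G n)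
      (b : FR G n →ₗ[RR G] M) (_ : ∀ x, b (a x) = x) (φ : M →+ L2 G), EqV φ →
      LL (mat (a ∘ₗ b)) (vecOf b φ) = vecOf b φ := by
    intro M _ _ a b hab φ hφ
    apply vv_ext
    intro i
    rw [← pr_row, mat_row, ← hφ.pr_vecOf]
    change φ (b (a (b (Pi.single i 1)))) = φ (b (Pi.single i 1))
    rw [hab]
  have hker : ∀ {M N : Type} [AddCommGroup M] [Module (RR G) M] [AddCommGroup N]
      [Module (RR G) N] (f : N →ₗ[RR G] M) (a : M →ₗ[RR G] FR G n)
      (b : FR G n →ₗ[RR G] M) (_ : ∀ x, b (a x) = x) (b' : FR G n →ₗ[RR G] N) (φ : M →+ L2 G),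
      EqV φ → (∀ x, φ (f x) = 0) → LL (mat (a ∘ₗ f ∘ₗ b')) (vecOf b φ) = 0 := by
    intro M N _ _ _ _ f a b hab b' φ hφ h0
    apply vv_ext
    intro i
    rw [← pr_row, mat_row, ← hφ.pr_vecOf]
    change φ (b (a (f (b' (Pi.single i 1))))) = 0
    rw [hab, h0]
  refine ⟨fun φ hφ h0 => ?_, fun i hi φ hφ h0 F δ hδ => ?_⟩
  · have e1 := hfix a0 b0 hab0 φ hφ
    have e2 := hker (d 0) a0 b0 hab0 b1 φ hφ h0
    have e3 := deg_zero hlow e1 e2
    ext1 x
    rw [← hab0 x, hφ.pr_vecOf, e3, pr]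
    simp
  · by_cases hi0 : i = 0
    · subst hi0
      have e1 := hfix a1 b1 hab1 φ hφ
      have e2 := hker (d 1) a1 b1 hab1 b2 φ hφ h0
      exact lim_of_closure (d 0) hab1 hφ (deg_one hA hlow e1 e2) F δ hδ
    · have hqi : q ≤ i := hi.resolve_left hi0
      rcases Nat.lt_or_ge i (q + 1) with hlt | hge
      · obtain rfl : i = q := by omega
        have e1 := hfix a2' b2' hc2 φ hφ
        have e2 := hker (d (i + 1)) a2' b2' hc2 b3' φ hφ h0
        exact lim_of_closure (d i) hc2 hφ (top_one hA htp e1 e2) F δ hδ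
      · rcases Nat.lt_or_ge i (q + 2) with hlt' | hge'
        · obtain rfl : i = q + 1 := by omega
          have e1 : LL (mat (a3' ∘ₗ (LinearMap.id - d (q + 2) ∘ₗ r) ∘ₗ b3')) (vecOf b3' φ) =
              vecOf b3' φ := by
            apply vv_ext
            intro j
            rw [← pr_row, mat_row, ← hφ.pr_vecOf]
            change φ (b3' (a3' (b3' (Pi.single j 1) - d (q + 2) (r (b3' (Pi.single j 1)))))) =
              φ (b3' (Pi.single j 1))
            rw [hc3, map_sub, h0, sub_zero]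
          exact lim_of_closure (d (q + 1)) hc3 hφ (top_zero htp e1) F δ hδ
        · obtain ⟨s, hs⟩ := exists_r' hR m hm (q + 2)
            (fun j hj => cob_of hR hcoh j (by omega)) m i hge' (by omega)
          let ψ : P i →+ L2 G := φ.comp s.toAddMonoidHom
          refine ⟨ψ, fun g x => ?_, fun p _ => ?_⟩
          · change φ (s (gof g • x)) = lam2 g (φ (s x))
            rw [map_smul]
            exact hφ g _
          · have e1 : d i (p - s (d i p)) = 0 := by rw [map_sub, hs, sub_self]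
            obtain ⟨y, hy⟩ := (hR.ex i _).1 e1
            have e2 : φ (p - s (d i p)) = 0 := by rw [← hy]; exact h0 y
            have e3 : φ p - ψ (d i p) = 0 := by
              rw [map_sub] at e2
              exact e2
            rw [e3, norm_zero]
            exact hδ

end

end Pool.Agent.Q103.SG
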