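import Pool.Agent.Q103.SG.Bdry

/-!
# Resolutions over the real group ring
-/

set_option autoImplicit false
set_option linter.unusedSectionVars false

namespace Pool.Agent.Q103.SG

open Set Filter Topology
open scoped Matrix Classical
open Pool.Agent.Helper158 Pool.Agent.Helper386.PD3

noncomputable section

variable {G : Type} [Group G] {a b n : ℕ}

/-- the real group ring -/
abbrev RG (G : Type) [Group G] : Type := MonoidAlgebra ℝ G

/-- group elements -/
abbrev go (g : G) : RG G := MonoidAlgebra.of ℝ G g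

theorem go_mul (g h : G) : go (g * h) = go g * go h := map_mul _ _ _

theorem rg_ind {p : RG G → Prop} (x : RG G) (h1 : ∀ g, p (go g))
    (h2 : ∀ x y, p x → p y → p (x + y)) (h3 : ∀ (r : ℝ) x, p x → p (r • x)) : p x :=
  MonoidAlgebra.induction_on x h1 h2 h3

/-- the action on `ℓ²(G)` -/
def lr : RG G →ₐ[ℝ] (L2 G →L[ℝ] L2 G) := MonoidAlgebra.lift ℝ _ G (lamHom G)

theorem lr_of (g : G) : lr (go g) = lam2 g := MonoidAlgebra.lift_of _ _

theorem lr_mul (r s : RG G) (x : L2 G) : lr (r * s) x = lr r (lr s x) := by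
  rw [map_mul]
  rfl

theorem lr_add (r s : RG G) (x : L2 G) : lr (r + s) x = lr r x + lr s x := by
  rw [map_add]
  rfl

theorem lr_smul (c : ℝ) (r : RG G) (x : L2 G) : lr (c • r) x = c • lr r x := by
  rw [map_smul]
  rfl

theorem lr_neg (r : RG G) (x : L2 G) : lr (-r) x = -lr r x := by
  rw [map_neg]
  rfl

theorem lr_one (x : L2 G) : lr (1 : RG G) x = x := by
  rw [map_one]
  rfl

/-- the augmentation -/
def er : RG G →ₐ[ℝ] ℝ := MonoidAlgebra.lift ℝ _ G 1

theorem er_of (g : G) : er (go g) = 1 := MonoidAlgebra.lift_of _ _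

/-- linear maps of the group ring -/
def linR {N : Type*} [AddCommGroup N] [Module ℝ N] (f : G → N) : RG G →ₗ[ℝ] N where
  toFun r := r.coeff.sum fun g k => k • f g
  map_add' r s := by
    rw [MonoidAlgebra.coeff_add, Finsupp.sum_add_index']
    · intro g
      exact zero_smul _ _
    · intro g k l
      exact add_smul _ _ _
  map_smul' c r := by
    rw [MonoidAlgebra.coeff_smul, RingHom.id_apply, Finsupp.smul_sum]
    rw [Finsupp.sum_smul_index' (h := fun g k => k • f g) (fun g => zero_smul _ _)]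
    refine Finsupp.sum_congr fun g _ => ?_
    rw [smul_assoc]

theorem linR_of {N : Type*} [AddCommGroup N] [Module ℝ N] (f : G → N) (g : G) :
    linR f (go g) = f g := by
  change (Finsupp.single g (1 : ℝ)).sum (fun g k => k • f g) = f g
  rw [Finsupp.sum_single_index (h := fun g k => k • f g) (zero_smul _ _), one_smul]

theorem linR_sub {N : Type*} [AddCommGroup N] [Module ℝ N] (f f' : G → N) (r : RG G) :
    linR (fun g => f g - f' g) r = linR f r - linR f' r := by
  induction r using rg_ind with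
  | h1 g => rw [linR_of, linR_of, linR_of]
  | h2 x y hx hy => rw [map_add, map_add, map_add, hx, hy]; abel
  | h3 c x hx => rw [map_smul, map_smul, map_smul, hx, smul_sub]

theorem linR_act (u : L2 G) (r : RG G) :
    linR (fun g => lam2 g u - u) r = lr r u - er r • u := by
  induction r using rg_ind with
  | h1 g => rw [linR_of, lr_of, er_of, one_smul]
  | h2 x y hx hy => rw [map_add, hx, hy, lr_add, map_add, add_smul]; abel
  | h3 c x hx => rw [map_smul, hx, lr_smul, map_smul, smul_sub, smul_assoc]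

theorem linR_bound (r : RG G) : ∃ (T : Finset G) (C : ℝ), 0 ≤ C ∧ ∀ (f : G → L2 G) (δ : ℝ),
    (∀ g ∈ T, ‖f g‖ ≤ δ) → ‖linR f r‖ ≤ C * δ := by
  induction r using rg_ind with
  | h1 g =>
    refine ⟨{g}, 1, zero_le_one, fun f δ h => ?_⟩
    rw [linR_of, one_mul]
    exact h g (Finset.mem_singleton_self g)
  | h2 x y hx hy =>
    obtain ⟨T, C, hC, h⟩ := hx
    obtain ⟨T', C', hC', h'⟩ := hy
    refine ⟨T ∪ T', C + C', by positivity, fun f δ hf => ?_⟩
    rw [map_add, add_mul]
    exact (norm_add_le _ _).trans (add_le_add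
      (h f δ fun g hg => hf g (Finset.mem_union_left _ hg))
      (h' f δ fun g hg => hf g (Finset.mem_union_right _ hg)))
  | h3 c x hx =>
    obtain ⟨T, C, hC, h⟩ := hx
    refine ⟨T, |c| * C, by positivity, fun f δ hf => ?_⟩
    rw [map_smul, norm_smul, Real.norm_eq_abs, mul_assoc]
    exact mul_le_mul_of_nonneg_left (h f δ hf) (abs_nonneg c)

/-- the pairing of a row vector with a column vector -/
def qr (v : Fin n → RG G) (x : VV G n) : L2 G := ∑ j, lr (v j) (x j)

theorem qr_add (v v' : Fin n → RG G) (x : VV G n) : qr (v + v') x = qr v x + qr v' x := by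
  rw [qr, qr, qr, ← Finset.sum_add_distrib]
  exact Finset.sum_congr rfl fun j _ => lr_add _ _ _

theorem qr_smul (r : RG G) (v : Fin n → RG G) (x : VV G n) : qr (r • v) x = lr r (qr v x) := by
  rw [qr, qr, map_sum]
  exact Finset.sum_congr rfl fun j _ => lr_mul _ _ _

theorem qr_rsmul (c : ℝ) (v : Fin n → RG G) (x : VV G n) : qr (c • v) x = c • qr v x := by
  rw [qr, qr, Finset.smul_sum]
  exact Finset.sum_congr rfl fun j _ => lr_smul _ _ _

/-- the pairing as a linear map -/
def qrl (x : VV G n) : (Fin n → RG G) →ₗ[ℝ] L2 G where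
  toFun v := qr v x
  map_add' v v' := qr_add v v' x
  map_smul' c v := qr_rsmul c v x

theorem qr_sub (v v' : Fin n → RG G) (x : VV G n) : qr (v - v') x = qr v x - qr v' x :=
  map_sub (qrl x) v v'

theorem qr_zero (x : VV G n) : qr (0 : Fin n → RG G) x = 0 := map_zero (qrl x)

theorem qr_sum {ι : Type*} (s : Finset ι) (f : ι → Fin n → RG G) (x : VV G n) :
    qr (∑ i ∈ s, f i) x = ∑ i ∈ s, qr (f i) x := map_sum (qrl x) f s

theorem qr_single (i : Fin n) (x : VV G n) : qr (Pi.single i 1) x = x i := by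
  rw [qr, Finset.sum_eq_single i]
  · rw [Pi.single_eq_same, lr_one]
  · intro j _ hj
    rw [Pi.single_eq_of_ne hj, map_zero]
    rfl
  · intro h
    exact absurd (Finset.mem_univ i) h

theorem qr_zero_right (v : Fin n → RG G) : qr v (0 : VV G n) = 0 := by
  rw [qr]
  simp

/-- the coboundary operator of a boundary matrix -/
def cb (D : Matrix (Fin b) (Fin a) (RG G)) : VV G a →L[ℝ] VV G b :=
  ∑ j, inj j ∘L (∑ k, lr (D j k) ∘L cmp k)

theorem cb_apply (D : Matrix (Fin b) (Fin a) (RG G)) (x : VV G a) (j : Fin b) :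
    cb D x j = qr (D j) x := by
  have h1 : cb D x = ∑ j, inj j ((WithLp.toLp 2 (fun j => qr (D j) x) : VV G b) j) := by
    rw [cb, sum_apply]
    refine Finset.sum_congr rfl fun j _ => ?_
    change inj j ((∑ k, lr (D j k) ∘L cmp k : VV G a →L[ℝ] L2 G) x) = _
    rw [sum_apply]
    rfl
  rw [h1, sum_inj]

theorem qr_vecMul (v : Fin b → RG G) (D : Matrix (Fin b) (Fin a) (RG G)) (x : VV G a) :
    qr (v ᵥ* D) x = qr v (cb D x) := by
  have h1 : v ᵥ* D = ∑ i, v i • D i := Matrix.vecMul_eq_sum _ _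
  rw [h1, qr_sum]
  refine Finset.sum_congr rfl fun i _ => ?_
  rw [qr_smul, cb_apply]

theorem cb_mul (D : Matrix (Fin b) (Fin a) (RG G)) (C : Matrix (Fin a) (Fin n) (RG G))
    (x : VV G n) : cb (D * C) x = cb D (cb C x) := by
  apply vv_ext
  intro j
  rw [cb_apply, cb_apply, ← qr_vecMul]
  rfl

/-- the low degree part of a projective resolution -/
structure LowR (E0 : Matrix (Fin a) (Fin a) (RG G)) (E1 : Matrix (Fin b) (Fin b) (RG G))
    (D0 : Matrix (Fin b) (Fin a) (RG G)) (D1 : Matrix (Fin n) (Fin b) (RG G))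
    (ε : (Fin a → RG G) →ₗ[ℝ] ℝ) : Prop where
  ee0 : E0 * E0 = E0
  ee1 : E1 * E1 = E1
  d0e0 : D0 * E0 = D0
  e1d0 : E1 * D0 = D0
  equi : ∀ (g : G) (v : Fin a → RG G), ε (go g • v) = ε v
  surj : ∃ v, v ᵥ* E0 = v ∧ ε v = 1
  epsd : ∀ v, ε (v ᵥ* D0) = 0
  ex0 : ∀ v, v ᵥ* E0 = v → ε v = 0 → ∃ u, u ᵥ* D0 = v
  ex1 : ∀ v, v ᵥ* E1 = v → v ᵥ* D0 = 0 → ∃ u, u ᵥ* D1 = v

variable {E0 : Matrix (Fin a) (Fin a) (RG G)} {E1 : Matrix (Fin b) (Fin b) (RG G)}
    {D0 : Matrix (Fin b) (Fin a) (RG G)} {D1 : Matrix (Fin n) (Fin b) (RG G)}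
    {ε : (Fin a → RG G) →ₗ[ℝ] ℝ}

theorem LowR.eps_eq (hL : LowR E0 E1 D0 D1 ε) (r : RG G) (v : Fin a → RG G) :
    ε (r • v) = er r * ε v := by
  induction r using rg_ind with
  | h1 g => rw [hL.equi, er_of, one_mul]
  | h2 x y hx hy => rw [add_smul, map_add, hx, hy, map_add, add_mul]
  | h3 c x hx => rw [smul_assoc, map_smul, hx, map_smul, smul_eq_mul, smul_eq_mul, mul_assoc]

theorem LowR.row0 (hL : LowR E0 E1 D0 D1 ε) (i : Fin a) : E0 i ᵥ* E0 = E0 i := by
  funext j
  exact congrFun (congrFun hL.ee0 i) j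

/-- degree zero -/
theorem lowR_zero [Infinite G] (hL : LowR E0 E1 D0 D1 ε) {x : VV G a} (hx : cb E0 x = x)
    (hx0 : cb D0 x = 0) : x = 0 := by
  have kill : ∀ v, qr (v ᵥ* D0) x = 0 := by
    intro v
    rw [qr_vecMul, hx0, qr_zero_right]
  obtain ⟨v0, hv0, hε⟩ := hL.surj
  have h0 : qr v0 x = 0 := by
    refine inv_eq_zero fun g => ?_
    obtain ⟨v, hv⟩ := hL.ex0 (go g • v0 - v0)
      (by rw [Matrix.sub_vecMul, Matrix.smul_vecMul, hv0]) (by rw [map_sub, hL.equi, sub_self])
    have h1 := kill v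
    rw [hv, qr_sub, qr_smul, lr_of, sub_eq_zero] at h1
    exact h1
  apply vv_ext
  intro j
  obtain ⟨v, hv⟩ := hL.ex0 (E0 j - ε (E0 j) • v0) (by
    rw [Matrix.sub_vecMul, hL.row0, Matrix.smul_vecMul, hv0]) (by
    rw [map_sub, map_smul, hε, smul_eq_mul, mul_one, sub_self])
  have h1 := kill v
  rw [hv, qr_sub, qr_rsmul, h0, smul_zero, sub_zero, ← cb_apply, hx] at h1
  exact h1

/-- degree one -/
theorem lowR_one (hA : Approx G) (hL : LowR E0 E1 D0 D1 ε) {x : VV G b} (hx : cb E1 x = x)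
    (hx0 : cb D1 x = 0) : x ∈ closure (Set.range (cb D0)) := by
  have kill : ∀ v : Fin b → RG G, v ᵥ* D0 = 0 → qr v x = 0 := by
    intro v hv
    obtain ⟨u, hu⟩ := hL.ex1 (v ᵥ* E1) (by rw [Matrix.vecMul_vecMul, hL.ee1])
      (by rw [Matrix.vecMul_vecMul, hL.e1d0, hv])
    rw [← hx, ← qr_vecMul, ← hu, qr_vecMul, hx0, qr_zero_right]
  obtain ⟨v0, hv0, hε⟩ := hL.surj
  have hmem : ∀ g : G, ∃ v, v ᵥ* D0 = go g • v0 - v0 := fun g => hL.ex0 _
    (by rw [Matrix.sub_vecMul, Matrix.smul_vecMul, hv0]) (by rw [map_sub, hL.equi, sub_self])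
  choose vg hvg using hmem
  let β : G → L2 G := fun g => qr (vg g) x
  have hβ : ∀ g h, β (g * h) = β g + lam2 g (β h) := by
    intro g h
    have h1 : (vg (g * h) - vg g - go g • vg h) ᵥ* D0 = 0 := by
      rw [Matrix.sub_vecMul, Matrix.sub_vecMul, Matrix.smul_vecMul, hvg, hvg, hvg, go_mul,
        mul_smul, smul_sub]
      abel
    have h2 := kill _ h1
    rw [qr_sub, qr_sub, qr_smul, lr_of, sub_sub, sub_eq_zero] at h2
    exact h2
  have hw : ∀ j, ∃ w, w ᵥ* D0 = E0 j - ε (E0 j) • v0 := fun j => hL.ex0 _ (by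
    rw [Matrix.sub_vecMul, hL.row0, Matrix.smul_vecMul, hv0]) (by
    rw [map_sub, map_smul, hε, smul_eq_mul, mul_one, sub_self])
  choose w hw using hw
  let c : Fin a → ℝ := fun j => ε (E0 j)
  let r : Fin b → RG G := fun i => ∑ j, c j • D0 i j
  let A : Fin b → Fin b → RG G := fun i => ∑ j, D0 i j • w j
  have hd0row : ∀ i, D0 i = ∑ j, D0 i j • E0 j := by
    intro i
    have h1 : D0 i ᵥ* E0 = D0 i := by
      funext j
      exact congrFun (congrFun hL.d0e0 i) j
    conv_lhs => rw [← h1]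
    exact Matrix.vecMul_eq_sum _ _
  have hVsum : ∀ (s : Finset (Fin a)) (f : Fin a → Fin b → RG G),
      (∑ j ∈ s, f j) ᵥ* D0 = ∑ j ∈ s, f j ᵥ* D0 := by
    intro s f
    induction s using Finset.induction_on with
    | empty => simp
    | insert a s ha ih => rw [Finset.sum_insert ha, Finset.sum_insert ha, Matrix.add_vecMul, ih]
  have ha : ∀ i, (A i) ᵥ* D0 = D0 i - r i • v0 := by
    intro i
    have h1 : (A i) ᵥ* D0 = ∑ j, D0 i j • (E0 j - c j • v0) := by
      change (∑ j, D0 i j • w j) ᵥ* D0 = _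
      rw [hVsum]
      refine Finset.sum_congr rfl fun j _ => ?_
      rw [Matrix.smul_vecMul, hw]
    rw [h1]
    have h2 : ∀ j, D0 i j • (E0 j - c j • v0) = D0 i j • E0 j - (c j • D0 i j) • v0 := by
      intro j
      rw [smul_sub, smul_comm, smul_assoc]
    simp only [h2]
    rw [Finset.sum_sub_distrib, ← hd0row, ← Finset.sum_smul]
  have hεr : ∀ i, er (r i) = 0 := by
    intro i
    have h1 : ε (D0 i) = 0 := by
      have h2 : (Pi.single i 1 : Fin b → RG G) ᵥ* D0 = D0 i := Matrix.single_one_vecMul _ _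
      rw [← h2]
      exact hL.epsd _
    have h2 := hL.epsd (A i)
    rw [ha, map_sub, h1, hL.eps_eq, hε, mul_one, zero_sub, neg_eq_zero] at h2
    exact h2
  have hV : ∀ r : RG G, (linR vg r) ᵥ* D0 = r • v0 - er r • v0 := by
    intro r
    induction r using rg_ind with
    | h1 g => rw [linR_of, hvg, er_of, one_smul]
    | h2 x y hx hy => rw [map_add, Matrix.add_vecMul, hx, hy, map_add, add_smul, add_smul]; abel
    | h3 c x hx =>
      rw [map_smul, Matrix.smul_vecMul, hx, map_smul, smul_sub, smul_assoc, smul_assoc]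
  have hqV : ∀ r : RG G, qr (linR vg r) x = linR β r := by
    intro r
    induction r using rg_ind with
    | h1 g => rw [linR_of, linR_of]
    | h2 y z hy hz => rw [map_add, qr_add, hy, hz, map_add]
    | h3 c y hy => rw [map_smul, qr_rsmul, hy, map_smul]
  have hx1 : ∀ i, x i = qr (A i) x + linR β (r i) := by
    intro i
    have h1 : (E1 i - A i - linR vg (r i)) ᵥ* D0 = 0 := by
      have h2 : E1 i ᵥ* D0 = D0 i := by
        funext j
        exact congrFun (congrFun hL.e1d0 i) j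
      rw [Matrix.sub_vecMul, Matrix.sub_vecMul, h2, ha, hV, hεr, zero_smul]
      abel
    have h3 := kill _ h1
    rw [qr_sub, qr_sub, ← cb_apply, hx, hqV, sub_sub, sub_eq_zero] at h3
    exact h3
  have hqa : ∀ i, qr (A i) x = ∑ j, lr (D0 i j) (qr (w j) x) := by
    intro i
    change qr (∑ j, D0 i j • w j) x = _
    rw [qr_sum]
    exact Finset.sum_congr rfl fun j _ => qr_smul _ _ _
  choose T C hC hT using fun i => linR_bound (r i)
  refine mem_closure_of fun δ hδ => ?_
  let B : ℝ := ∑ i : Fin b, C i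
  have hB : 0 ≤ B := Finset.sum_nonneg fun i _ => hC i
  obtain ⟨u, hu⟩ := hA β hβ (Finset.univ.biUnion T) (δ / (B + 1)) (by positivity)
  let y : VV G a := WithLp.toLp 2 fun j => qr (w j) x + c j • u
  refine ⟨cb D0 y, ⟨y, rfl⟩, fun i => ?_⟩
  have hyi : cb D0 y i = qr (A i) x + lr (r i) u := by
    have h1 : cb D0 y i = ∑ j, (lr (D0 i j) (qr (w j) x) + lr (c j • D0 i j) u) := by
      rw [cb_apply]
      refine Finset.sum_congr rfl fun j _ => ?_
      change lr (D0 i j) (qr (w j) x + c j • u) = _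
      rw [map_add, lr_smul, map_smul]
    have h2 : lr (r i) u = ∑ j, lr (c j • D0 i j) u := by
      change lr (∑ j, c j • D0 i j) u = _
      rw [map_sum, sum_apply]
    rw [h1, Finset.sum_add_distrib, ← hqa, h2]
  have h1 : x i - cb D0 y i = linR (fun g => β g - (lam2 g u - u)) (r i) := by
    rw [linR_sub, linR_act, hεr, zero_smul, sub_zero, hyi]
    conv_lhs => rw [hx1 i]
    abel
  rw [h1]
  refine (hT i _ _ fun g hg => (hu g (Finset.mem_biUnion.2 ⟨i, Finset.mem_univ i, hg⟩)).le).trans ?_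
  have h4 : C i ≤ B := Finset.single_le_sum (fun i _ => hC i) (Finset.mem_univ i)
  rw [← mul_div_assoc, div_le_iff₀ (by positivity)]
  nlinarith

end

end Pool.Agent.Q103.SG
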